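import Mathlib

set_option autoImplicit false

open MeasureTheory Set Filter Topology

noncomputable section

namespace Pool.Agent.Helper584.PG

/-- Euclidean 3-space. -/
abbrev E := EuclideanSpace ℝ (Fin 3)

/-- triples of vectors -/
abbrev T := E × E × E

/-- orthonormal frames -/
def Fr : Set T := {g | ‖g.1‖ = 1 ∧ ‖g.2.1‖ = 1 ∧ ‖g.2.2‖ = 1 ∧ inner ℝ g.1 g.2.1 = (0:ℝ) ∧
  inner ℝ g.1 g.2.2 = (0:ℝ) ∧ inner ℝ g.2.1 g.2.2 = (0:ℝ)}

/-- the standard frame -/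
def e0 : T := (EuclideanSpace.single 0 1, EuclideanSpace.single 1 1, EuclideanSpace.single 2 1)

/-- rotation of the first two vectors -/
def rX (t : ℝ) (g : T) : T :=
  (Real.cos t • g.1 + Real.sin t • g.2.1, (-Real.sin t) • g.1 + Real.cos t • g.2.1, g.2.2)
/-- rotation of the last two vectors -/
def rV (t : ℝ) (g : T) : T :=
  (g.1, Real.cos t • g.2.1 + Real.sin t • g.2.2, (-Real.sin t) • g.2.1 + Real.cos t • g.2.2)
/-- rotation of the first and the last vector -/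
def rH (t : ℝ) (g : T) : T :=
  (Real.cos t • g.1 + Real.sin t • g.2.2, g.2.1, (-Real.sin t) • g.1 + Real.cos t • g.2.2)

/-- generators of the rotations -/
def aX (g : T) : T := (g.2.1, -g.1, 0)
def aV (g : T) : T := (0, g.2.2, -g.2.1)
def aH (g : T) : T := (g.2.2, 0, -g.1)

def DX (F : T → ℝ) (g : T) : ℝ := fderiv ℝ F g (aX g)
def DV (F : T → ℝ) (g : T) : ℝ := fderiv ℝ F g (aV g)
def DH (F : T → ℝ) (g : T) : ℝ := fderiv ℝ F g (aH g)

/-- the inner product of two triples -/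
def ip (g h : T) : ℝ := inner ℝ g.1 h.1 + inner ℝ g.2.1 h.2.1 + inner ℝ g.2.2 h.2.2

/-- the invariant probability measure on frames -/
structure IsFM (μ : Measure T) : Prop where
  prob : IsProbabilityMeasure μ
  supp : μ Frᶜ = 0
  invX : ∀ t : ℝ, Measure.map (rX t) μ = μ
  invV : ∀ t : ℝ, Measure.map (rV t) μ = μ
  invH : ∀ t : ℝ, Measure.map (rH t) μ = μ
  pos : ∀ U : Set T, IsOpen U → (U ∩ Fr).Nonempty → μ U ≠ 0
  ker : ∀ φ : ℝ → ℝ, Continuous φ → ∀ g ∈ Fr, ∀ g' ∈ Fr,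
    ∫ h, φ (ip g h) ∂μ = ∫ h, φ (ip g' h) ∂μ

/-- mollification of `F` (not normalised) and its normalising constant -/
def mol (μ : Measure T) (n : ℝ) (F : T → ℝ) (g : T) : ℝ := ∫ h, Real.exp (n * ip g h) * F h ∂μ
def zn (μ : Measure T) (n : ℝ) : ℝ := ∫ h, Real.exp (n * ip e0 h) ∂μ

/-- gauges (norms) -/
structure IsG (N : E → ℝ) : Prop where
  conv : ConvexOn ℝ univ N
  hom : ∀ r : ℝ, 0 ≤ r → ∀ x : E, N (r • x) = r * N x
  even : ∀ x : E, N (-x) = N x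
  pos : ∀ x : E, x ≠ 0 → 0 < N x
  lip : ∃ L : NNReal, LipschitzWith L N

/-- speed of the boundary curve of the section, its derivative in direction `aV`, and the second density -/
def pS (N : E → ℝ) (g : T) : ℝ :=
  Real.sqrt ((N g.1) ^ 2 + (fderiv ℝ N g.1 g.2.1) ^ 2) / (N g.1) ^ 2
def pVS (N : E → ℝ) (g : T) : ℝ :=
  (fderiv ℝ N g.1 g.2.1) * (fderiv ℝ N g.1 g.2.2) /
    (Real.sqrt ((N g.1) ^ 2 + (fderiv ℝ N g.1 g.2.1) ^ 2) * (N g.1) ^ 2)
def pT (N : E → ℝ) (g : T) : ℝ :=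
  (1 + (fderiv ℝ N g.1 g.2.1 / N g.1) * Real.arctan (fderiv ℝ N g.1 g.2.1 / N g.1)) / (N g.1) ^ 2

/-- planar versions: `n` is the gauge along the unit circle -/
def cv (g : T) (t : ℝ) : E := Real.cos t • g.1 + Real.sin t • g.2.1
def nn (N : E → ℝ) (g : T) (t : ℝ) : ℝ := N (cv g t)
def plS (n : ℝ → ℝ) (t : ℝ) : ℝ := Real.sqrt ((n t) ^ 2 + (deriv n t) ^ 2) / (n t) ^ 2
def plT (n : ℝ → ℝ) (t : ℝ) : ℝ :=
  (1 + (deriv n t / n t) * Real.arctan (deriv n t / n t)) / (n t) ^ 2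
/-- boundary curve of the section -/
def bc (N : E → ℝ) (g : T) (t : ℝ) : E := (N (cv g t))⁻¹ • cv g t

/-- the angle between the radial direction and the normal, at differentiability points of `n` -/
def om (n : ℝ → ℝ) (t : ℝ) : ℝ := Real.arctan (deriv n t / n t)

/-- planar gauges -/
structure IsP (n : ℝ → ℝ) : Prop where
  low : ∃ m : ℝ, 0 < m ∧ ∀ t, m ≤ n t
  lip : ∃ L : NNReal, LipschitzWith L n
  per : ∀ t, n (t + 2 * Real.pi) = n t
  nor : ∀ t, DifferentiableAt ℝ n t → ∀ s, Real.cos (t + om n t - s) / n s ≤ Real.cos (om n t) / n t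

/-- `τ s` is the parameter of the boundary point with outer normal direction `s` -/
def IsTau (n τ : ℝ → ℝ) : Prop :=
  ∀ s, |τ s - s| < Real.pi / 2 ∧ ∀ t, Real.cos (s - t) / n t ≤ Real.cos (s - τ s) / n (τ s)

/-- derivative in `t` of `(cos (s-t) / n t - l)^2` -/
def kk (n : ℝ → ℝ) (l s t : ℝ) : ℝ :=
  2 * (Real.cos (s - t) / n t - l) *
    (Real.sin (s - t) / n t - Real.cos (s - t) * deriv n t / (n t) ^ 2)

/-- relative boundary of the section orthogonal to `e` -/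
def bd (K : Set E) (e : E) : Set E :=
  {x : E | x ∈ K ∧ inner ℝ x e = (0:ℝ) ∧ ∀ ε : ℝ, ε > 0 → ∃ y : E,
    inner ℝ y e = (0:ℝ) ∧ dist y x < ε ∧ y ∉ K}

/-- auxiliary function whose `aV`-derivative is `pT - pS^2 + pVS^2` -/
def pk (N : E → ℝ) (g : T) : ℝ :=
  ((fderiv ℝ N g.1 g.2.1 / N g.1) * (fderiv ℝ N g.1 g.2.2 / N g.1) -
    (fderiv ℝ N g.1 g.2.2 / N g.1) * Real.arctan (fderiv ℝ N g.1 g.2.1 / N g.1)) / (N g.1) ^ 2

end Pool.Agent.Helper584.PG
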