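import Pool.Agent.Helper584.PG.Defs

set_option autoImplicit false

open MeasureTheory Set Filter Topology

noncomputable section

namespace Pool.Agent.Helper584.PG



theorem fr_basic_rot (t : ℝ) (u v w : E) (hu : ‖u‖ = 1) (hv : ‖v‖ = 1) (huv : inner ℝ u v = (0:ℝ))
    (huw : inner ℝ u w = (0:ℝ)) (hvw : inner ℝ v w = (0:ℝ)) :
    ‖Real.cos t • u + Real.sin t • v‖ = 1 ∧ ‖(-Real.sin t) • u + Real.cos t • v‖ = 1 ∧
    inner ℝ (Real.cos t • u + Real.sin t • v) ((-Real.sin t) • u + Real.cos t • v) = (0:ℝ) ∧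
    inner ℝ (Real.cos t • u + Real.sin t • v) w = (0:ℝ) ∧
    inner ℝ ((-Real.sin t) • u + Real.cos t • v) w = (0:ℝ) := by
  have hcs := Real.sin_sq_add_cos_sq t
  have hvu : inner ℝ v u = (0:ℝ) := by rw [real_inner_comm]; exact huv
  have huu : inner ℝ u u = (1:ℝ) := by rw [real_inner_self_eq_norm_sq, hu]; norm_num
  have hvv : inner ℝ v v = (1:ℝ) := by rw [real_inner_self_eq_norm_sq, hv]; norm_num
  have hone : ∀ x : E, inner ℝ x x = (1:ℝ) → ‖x‖ = 1 := by
    intro x hx
    rw [real_inner_self_eq_norm_sq] at hx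
    exact (pow_eq_one_iff_of_nonneg (norm_nonneg x) two_ne_zero).mp hx
  refine ⟨hone _ ?_, hone _ ?_, ?_, ?_, ?_⟩
  · simp only [inner_add_left, inner_add_right, real_inner_smul_left, real_inner_smul_right,
      huv, hvu, huu, hvv]
    linear_combination hcs
  · simp only [inner_add_left, inner_add_right, real_inner_smul_left, real_inner_smul_right,
      huv, hvu, huu, hvv]
    linear_combination hcs
  · simp only [inner_add_left, inner_add_right, real_inner_smul_left, real_inner_smul_right,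
      huv, hvu, huu, hvv]
    ring
  · simp only [inner_add_left, real_inner_smul_left, huw, hvw]
    ring
  · simp only [inner_add_left, real_inner_smul_left, huw, hvw]
    ring

theorem fr_basic : IsCompact Fr ∧ (∀ t : ℝ, ∀ g ∈ Fr, rX t g ∈ Fr) ∧ (∀ t : ℝ, ∀ g ∈ Fr, rV t g ∈ Fr) ∧
    (∀ t : ℝ, ∀ g ∈ Fr, rH t g ∈ Fr) ∧ Continuous (fun p : ℝ × T => rX p.1 p.2) ∧
    Continuous (fun p : ℝ × T => rV p.1 p.2) ∧ Continuous (fun p : ℝ × T => rH p.1 p.2) ∧ e0 ∈ Fr := by
  refine ⟨?_, ?_, ?_, ?_, ?_, ?_, ?_, ?_⟩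
  · refine Metric.isCompact_of_isClosed_isBounded ?_ ?_
    · have c1 : Continuous (fun g : T => ‖g.1‖) := by fun_prop
      have c2 : Continuous (fun g : T => ‖g.2.1‖) := by fun_prop
      have c3 : Continuous (fun g : T => ‖g.2.2‖) := by fun_prop
      have c4 : Continuous (fun g : T => (inner ℝ g.1 g.2.1 : ℝ)) :=
        continuous_fst.inner (continuous_fst.comp continuous_snd)
      have c5 : Continuous (fun g : T => (inner ℝ g.1 g.2.2 : ℝ)) :=
        continuous_fst.inner (continuous_snd.comp continuous_snd)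
      have c6 : Continuous (fun g : T => (inner ℝ g.2.1 g.2.2 : ℝ)) :=
        (continuous_fst.comp continuous_snd).inner (continuous_snd.comp continuous_snd)
      exact (isClosed_eq c1 continuous_const).inter ((isClosed_eq c2 continuous_const).inter
        ((isClosed_eq c3 continuous_const).inter ((isClosed_eq c4 continuous_const).inter
        ((isClosed_eq c5 continuous_const).inter (isClosed_eq c6 continuous_const)))))
    · refine Metric.isBounded_closedBall (x := (0 : T)) (r := 1) |>.subset ?_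
      rintro ⟨x, y, z⟩ ⟨h1, h2, h3, -⟩
      rw [mem_closedBall_zero_iff, Prod.norm_def, Prod.norm_def]
      exact max_le h1.le (max_le h2.le h3.le)
  · rintro t ⟨x, y, z⟩ ⟨h1, h2, h3, h4, h5, h6⟩
    obtain ⟨r1, r2, r3, r4, r5⟩ := fr_basic_rot t x y z h1 h2 h4 h5 h6
    exact ⟨r1, r2, h3, r3, r4, r5⟩
  · rintro t ⟨x, y, z⟩ ⟨h1, h2, h3, h4, h5, h6⟩
    obtain ⟨r1, r2, r3, r4, r5⟩ := fr_basic_rot t y z x h2 h3 h6
      (by rw [real_inner_comm]; exact h4) (by rw [real_inner_comm]; exact h5)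
    exact ⟨h1, r1, r2, by rw [real_inner_comm]; exact r4, by rw [real_inner_comm]; exact r5, r3⟩
  · rintro t ⟨x, y, z⟩ ⟨h1, h2, h3, h4, h5, h6⟩
    obtain ⟨r1, r2, r3, r4, r5⟩ := fr_basic_rot t x z y h1 h3 h5 h4
      (by rw [real_inner_comm]; exact h6)
    exact ⟨r1, h2, r2, r4, r3, by rw [real_inner_comm]; exact r5⟩
  · unfold rX
    have := Real.continuous_cos
    have := Real.continuous_sin
    fun_prop
  · unfold rV
    fun_prop
  · unfold rH
    fun_prop
  · refine ⟨?_, ?_, ?_, ?_, ?_, ?_⟩ <;>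
      simp [e0, EuclideanSpace.inner_single_left]

end Pool.Agent.Helper584.PG
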