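import Pool.Agent.Helper584.PG.Defs
import Pool.Agent.Helper584.PG.P_fr_basic

set_option autoImplicit false

open MeasureTheory Set Filter Topology

noncomputable section

namespace Pool.Agent.Helper584.PG



/-- the frame map -/
def ncL (g : T) (z : E) : E := z 0 • g.1 + z 1 • g.2.1 + z 2 • g.2.2

theorem ncL_cont : Continuous (fun p : T × E => ncL p.1 p.2) := by
  unfold ncL
  fun_prop

theorem ncL_ae (g : T) (hg : g ∈ Fr) (A : Set E) (h0 : volume A = 0) :
    ∀ᵐ z ∂(volume : Measure E), ncL g z ∉ A := by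
  obtain ⟨n1, n2, n3, i12, i13, i23⟩ := hg
  have hon : Orthonormal ℝ (![g.1, g.2.1, g.2.2] : Fin 3 → E) := by
    constructor
    · intro i
      fin_cases i
      · exact n1
      · exact n2
      · exact n3
    · intro i j hij
      fin_cases i <;> fin_cases j
      · exact absurd rfl hij
      · exact i12
      · exact i13
      · show inner ℝ g.2.1 g.1 = (0 : ℝ)
        rw [real_inner_comm]; exact i12
      · exact absurd rfl hij
      · exact i23
      · show inner ℝ g.2.2 g.1 = (0 : ℝ)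
        rw [real_inner_comm]; exact i13
      · show inner ℝ g.2.2 g.2.1 = (0 : ℝ)
        rw [real_inner_comm]; exact i23
      · exact absurd rfl hij
  have hsp : ⊤ ≤ Submodule.span ℝ (Set.range (![g.1, g.2.1, g.2.2] : Fin 3 → E)) := by
    rw [hon.linearIndependent.span_eq_top_of_card_eq_finrank (by simp)]
  let b : OrthonormalBasis (Fin 3) ℝ E := OrthonormalBasis.mk hon hsp
  have hb : ∀ z : E, b.repr.symm z = ncL g z := by
    intro z
    rw [← OrthonormalBasis.sum_repr_symm, Fin.sum_univ_three]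
    simp [b, ncL]
  have hmp : MeasurePreserving b.repr.symm volume volume := b.measurePreserving_repr_symm
  have hA' : ∀ᵐ x ∂(volume : Measure E), x ∉ A := by
    rw [ae_iff]
    simpa using h0
  have h1 := hmp.quasiMeasurePreserving.ae hA'
  filter_upwards [h1] with z hz
  rwa [hb] at hz

theorem nc_angles (z : E) (hz : z ≠ 0) : ∃ r a b : ℝ, 0 < r ∧ z 0 = r * (Real.cos b * Real.cos a) ∧
    z 1 = r * (Real.cos b * Real.sin a) ∧ z 2 = r * Real.sin b := by
  set c1 : ℂ := ⟨z 0, z 1⟩ with hc1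
  set c2 : ℂ := ⟨‖c1‖, z 2⟩ with hc2
  have e1 : ‖c1‖ * Real.cos (Complex.arg c1) = z 0 := Complex.norm_mul_cos_arg c1
  have e2 : ‖c1‖ * Real.sin (Complex.arg c1) = z 1 := Complex.norm_mul_sin_arg c1
  have e3 : ‖c2‖ * Real.cos (Complex.arg c2) = ‖c1‖ := Complex.norm_mul_cos_arg c2
  have e4 : ‖c2‖ * Real.sin (Complex.arg c2) = z 2 := Complex.norm_mul_sin_arg c2
  refine ⟨‖c2‖, Complex.arg c1, Complex.arg c2, ?_, ?_, ?_, e4.symm⟩
  · rw [norm_pos_iff]
    intro h
    apply hz
    rw [h, norm_zero, zero_mul] at e3 e4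
    rw [← e3, zero_mul] at e1 e2
    ext i
    fin_cases i
    · exact e1.symm
    · exact e2.symm
    · exact e4.symm
  · rw [← mul_assoc, e3, e1]
  · rw [← mul_assoc, e3, e2]

theorem null_cone (μ : Measure T) (hμ : IsFM μ) (A : Set E) (hA : MeasurableSet A)
    (h0 : volume A = 0) (hc : ∀ x ∈ A, ∀ r : ℝ, 0 < r → r • x ∈ A) :
    ∀ᵐ g ∂μ, g.1 ∉ A := by
  have := hμ.prob
  have hFr : ∀ᵐ g ∂μ, g ∈ Fr := by
    rw [ae_iff]
    exact hμ.supp
  have h1 : ∀ᵐ g ∂μ, ∀ᵐ z ∂(volume : Measure E), ncL g z ∉ A := by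
    filter_upwards [hFr] with g hg
    exact ncL_ae g hg A h0
  have hmeas : MeasurableSet {p : T × E | ncL p.1 p.2 ∉ A} :=
    hA.compl.preimage ncL_cont.measurable
  have h2 : ∀ᵐ z ∂(volume : Measure E), ∀ᵐ g ∂μ, ncL g z ∉ A :=
    (Measure.ae_ae_comm hmeas).1 h1
  have h3 : ∀ᵐ z ∂(volume : Measure E), z ≠ 0 := by
    rw [ae_iff]
    simp
  obtain ⟨z, hz1, hz2⟩ := (h2.and h3).exists
  obtain ⟨r, a, b, hr, e0, e1, e2⟩ := nc_angles z hz2
  obtain ⟨-, -, -, -, cX, -, cH, -⟩ := fr_basic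
  have mX : Measurable (rX a) := (cX.comp (Continuous.prodMk continuous_const continuous_id)).measurable
  have mH : Measurable (rH b) := (cH.comp (Continuous.prodMk continuous_const continuous_id)).measurable
  have hF : ∀ g : T, ncL g z = r • (rH b (rX a g)).1 := by
    intro g
    unfold ncL rH rX
    rw [e0, e1, e2]
    simp only [smul_add, smul_smul]
  have h4 : ∀ᵐ g ∂μ, (rH b (rX a g)).1 ∉ A := by
    filter_upwards [hz1] with g hg hA'
    apply hg
    rw [hF]
    exact hc _ hA' r hr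
  have hm1 : MeasurableSet {g : T | g.1 ∉ A} := hA.compl.preimage measurable_fst
  have h5 : ∀ᵐ g ∂μ, (rH b g).1 ∉ A := by
    have hm2 : MeasurableSet {g : T | (rH b g).1 ∉ A} := hm1.preimage mH
    rw [← hμ.invX a, ae_map_iff mX.aemeasurable hm2]
    exact h4
  rw [← hμ.invH b, ae_map_iff mH.aemeasurable hm1]
  exact h5

end Pool.Agent.Helper584.PG
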