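import Pool.Agent.Helper584.PG.Defs
import Pool.Agent.Helper584.PG.P_null_cone

set_option autoImplicit false

open MeasureTheory Set Filter Topology

noncomputable section

namespace Pool.Agent.Helper584.PG



theorem N_null (μ : Measure T) (hμ : IsFM μ) (N : E → ℝ) (hN : IsG N) :
    ∀ᵐ g ∂μ, DifferentiableAt ℝ N g.1 := by
  obtain ⟨L, hL⟩ := hN.lip
  have hm : MeasurableSet {x : E | DifferentiableAt ℝ N x}ᶜ :=
    (measurableSet_of_differentiableAt ℝ N).compl
  have h0 : volume {x : E | DifferentiableAt ℝ N x}ᶜ = 0 := by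
    have := hL.ae_differentiableAt (μ := (volume : Measure E))
    rwa [ae_iff] at this
  have hc : ∀ x ∈ {x : E | DifferentiableAt ℝ N x}ᶜ, ∀ r : ℝ, 0 < r →
      r • x ∈ {x : E | DifferentiableAt ℝ N x}ᶜ := by
    intro x hx r hr hd
    apply hx
    have hd' : DifferentiableAt ℝ N (r • x) := hd
    have h1 : N = fun y => r⁻¹ * N (r • y) := by
      funext y
      rw [hN.hom r hr.le, ← mul_assoc, inv_mul_cancel₀ hr.ne', one_mul]
    show DifferentiableAt ℝ N x
    rw [h1]
    exact (DifferentiableAt.comp x (f := fun y : E => r • y) hd' (by fun_prop)).const_mul _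
  filter_upwards [null_cone μ hμ _ hm h0 hc] with g hg
  by_contra hcon
  exact hg hcon

end Pool.Agent.Helper584.PG
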