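import Pool.Agent.Helper584.PG.Defs
import Pool.Agent.Helper584.PG.P_fr_basic
import Pool.Agent.Helper584.PG.P_N_null

set_option autoImplicit false

open MeasureTheory Set Filter Topology

noncomputable section

namespace Pool.Agent.Helper584.PG



theorem N_orbit_cont (t : ℝ) : Continuous (rX t) := by
  unfold rX
  fun_prop

theorem N_orbit_cv : Continuous (fun p : T × ℝ => cv p.1 p.2) := by
  unfold cv
  fun_prop

theorem N_orbit_meas (N : E → ℝ) : MeasurableSet {x : E | DifferentiableAt ℝ N x} :=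
  measurableSet_of_differentiableAt ℝ N

theorem N_orbit_meas1 (N : E → ℝ) : MeasurableSet {g : T | DifferentiableAt ℝ N g.1} := by
  have h : Measurable (fun g : T => g.1) := measurable_fst
  exact h (N_orbit_meas N)

theorem N_orbit_meas2 (N : E → ℝ) :
    MeasurableSet {x : T × ℝ | DifferentiableAt ℝ N (cv x.1 x.2)} := by
  have h : Measurable (fun p : T × ℝ => cv p.1 p.2) := N_orbit_cv.measurable
  exact h (N_orbit_meas N)

theorem N_orbit_pt (μ : Measure T) (hμ : IsFM μ) (N : E → ℝ) (hN : IsG N) (t : ℝ) :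
    ∀ᵐ g ∂μ, DifferentiableAt ℝ N (cv g t) := by
  have hrX : Measurable (rX t) := (N_orbit_cont t).measurable
  have h1 : ∀ᵐ g ∂(Measure.map (rX t) μ), DifferentiableAt ℝ N g.1 := by
    rw [hμ.invX t]
    exact N_null μ hμ N hN
  rw [ae_map_iff hrX.aemeasurable (N_orbit_meas1 N)] at h1
  exact h1

theorem N_orbit (μ : Measure T) (hμ : IsFM μ) (N : E → ℝ) (hN : IsG N) :
    ∀ᵐ g ∂μ, ∀ᵐ t : ℝ, DifferentiableAt ℝ N (cv g t) := by
  have := hμ.prob
  rw [Measure.ae_ae_comm (N_orbit_meas2 N)]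
  exact Filter.Eventually.of_forall (N_orbit_pt μ hμ N hN)

end Pool.Agent.Helper584.PG
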