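import Pool.Agent.Helper584.PG.Defs

set_option autoImplicit false

open MeasureTheory Set Filter Topology

noncomputable section

namespace Pool.Agent.Helper584.PG



theorem sv_real (a : ℝ) (ha : 0 < a) (b c : ℝ → ℝ) (t : ℝ) (hb : HasDerivAt b (c t) t)
    (hc : HasDerivAt c (-(b t)) t) :
    HasDerivAt (fun s => Real.sqrt (a ^ 2 + (b s) ^ 2) / a ^ 2)
      (b t * c t / (Real.sqrt (a ^ 2 + (b t) ^ 2) * a ^ 2)) t ∧
    HasDerivAt (fun s => ((b s / a) * (c s / a) - (c s / a) * Real.arctan (b s / a)) / a ^ 2)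
      ((1 + (b t / a) * Real.arctan (b t / a)) / a ^ 2 -
        (Real.sqrt (a ^ 2 + (b t) ^ 2) / a ^ 2) ^ 2 +
        (b t * c t / (Real.sqrt (a ^ 2 + (b t) ^ 2) * a ^ 2)) ^ 2) t := by
  have hpos : 0 < a ^ 2 + (b t) ^ 2 := by positivity
  have hsq : Real.sqrt (a ^ 2 + (b t) ^ 2) ^ 2 = a ^ 2 + (b t) ^ 2 := Real.sq_sqrt hpos.le
  have hsp : 0 < Real.sqrt (a ^ 2 + (b t) ^ 2) := Real.sqrt_pos.2 hpos
  constructor
  · have h1 : HasDerivAt (fun s => a ^ 2 + (b s) ^ 2) (2 * b t * c t) t := by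
      have := (hb.pow 2).const_add (a ^ 2)
      refine this.congr_deriv ?_
      simp
    have h2 := (h1.sqrt hpos.ne').div_const (a ^ 2)
    refine h2.congr_deriv ?_
    field_simp
  · have e1 : HasDerivAt (fun s => b s / a) (c t / a) t := hb.div_const a
    have e2 : HasDerivAt (fun s => c s / a) (-(b t) / a) t := hc.div_const a
    have e3 := e1.mul e2
    have e4 := e2.mul e1.arctan
    have e5 := (e3.sub e4).div_const (a ^ 2)
    refine e5.congr_deriv ?_
    have hA : (Real.sqrt (a ^ 2 + (b t) ^ 2) / a ^ 2) ^ 2 = (a ^ 2 + (b t) ^ 2) / (a ^ 2) ^ 2 := by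
      rw [div_pow, hsq]
    have hB : (b t * c t / (Real.sqrt (a ^ 2 + (b t) ^ 2) * a ^ 2)) ^ 2 =
        (b t * c t) ^ 2 / ((a ^ 2 + (b t) ^ 2) * (a ^ 2) ^ 2) := by
      rw [div_pow, mul_pow (Real.sqrt (a ^ 2 + (b t) ^ 2)), hsq]
    rw [hA, hB]
    have hq : 1 + (b t / a) ^ 2 ≠ 0 := by positivity
    have hq' : a ^ 2 + (b t) ^ 2 ≠ 0 := hpos.ne'
    have hq2 : 1 + (b t / a) ^ 2 = (a ^ 2 + (b t) ^ 2) / a ^ 2 := by
      field_simp
    rw [hq2]
    generalize Real.arctan (b t / a) = A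
    field_simp
    ring

theorem S_V (N : E → ℝ) (hN : IsG N) (g : T) (hg : g ∈ Fr) (t : ℝ) :
    HasDerivAt (fun s => pS N (rV s g)) (pVS N (rV t g)) t ∧
    HasDerivAt (fun s => pk N (rV s g))
      (pT N (rV t g) - (pS N (rV t g)) ^ 2 + (pVS N (rV t g)) ^ 2) t := by
  have hg1 : g.1 ≠ 0 := by
    intro h0
    have := hg.1
    rw [h0, norm_zero] at this
    norm_num at this
  have ha := hN.pos g.1 hg1
  obtain ⟨L, hL⟩ : ∃ L : E →L[ℝ] ℝ, L = fderiv ℝ N g.1 := ⟨_, rfl⟩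
  have hb : ∀ s, L (Real.cos s • g.2.1 + Real.sin s • g.2.2) =
      Real.cos s * L g.2.1 + Real.sin s * L g.2.2 := by
    intro s
    rw [map_add, map_smul, map_smul, smul_eq_mul, smul_eq_mul]
  have hc : ∀ s, L ((-Real.sin s) • g.2.1 + Real.cos s • g.2.2) =
      -Real.sin s * L g.2.1 + Real.cos s * L g.2.2 := by
    intro s
    rw [map_add, map_smul, map_smul, smul_eq_mul, smul_eq_mul]
  have hbd : HasDerivAt (fun s => L (Real.cos s • g.2.1 + Real.sin s • g.2.2))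
      (L ((-Real.sin t) • g.2.1 + Real.cos t • g.2.2)) t := by
    rw [funext hb, hc]
    exact ((Real.hasDerivAt_cos t).mul_const _).add ((Real.hasDerivAt_sin t).mul_const _)
  have hcd : HasDerivAt (fun s => L ((-Real.sin s) • g.2.1 + Real.cos s • g.2.2))
      (-(L (Real.cos t • g.2.1 + Real.sin t • g.2.2))) t := by
    rw [funext hc, hb]
    refine (((Real.hasDerivAt_sin t).neg.mul_const _).add
      ((Real.hasDerivAt_cos t).mul_const _)).congr_deriv ?_
    ring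
  have h := sv_real (N g.1) ha (fun s => L (Real.cos s • g.2.1 + Real.sin s • g.2.2))
    (fun s => L ((-Real.sin s) • g.2.1 + Real.cos s • g.2.2)) t hbd hcd
  rw [hL] at h
  exact h

end Pool.Agent.Helper584.PG
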