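import Pool.Agent.Helper584.PG.Defs

set_option autoImplicit false

open MeasureTheory Set Filter Topology

noncomputable section

namespace Pool.Agent.Helper584.PG



theorem S_chain (N : E → ℝ) (hN : IsG N) (g : T) (t : ℝ) (h : DifferentiableAt ℝ N (cv g t)) :
    DifferentiableAt ℝ (nn N g) t ∧ pS N (rX t g) = plS (nn N g) t ∧ pT N (rX t g) = plT (nn N g) t := by
  have hcv : HasDerivAt (cv g) ((-Real.sin t) • g.1 + Real.cos t • g.2.1) t := by
    have h1 : HasDerivAt (fun t => Real.cos t • g.1) ((-Real.sin t) • g.1) t :=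
      (Real.hasDerivAt_cos t).smul_const g.1
    have h2 : HasDerivAt (fun t => Real.sin t • g.2.1) (Real.cos t • g.2.1) t :=
      (Real.hasDerivAt_sin t).smul_const g.2.1
    exact h1.add h2
  have hnn : HasDerivAt (nn N g) (fderiv ℝ N (cv g t) ((-Real.sin t) • g.1 + Real.cos t • g.2.1)) t :=
    h.hasFDerivAt.comp_hasDerivAt t hcv
  refine ⟨hnn.differentiableAt, ?_, ?_⟩
  · unfold pS plS
    rw [hnn.deriv]
    rfl
  · unfold pT plT
    rw [hnn.deriv]
    rfl

end Pool.Agent.Helper584.PG
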