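import Pool.Agent.Helper584.PG.Defs

set_option autoImplicit false

open MeasureTheory Set Filter Topology

noncomputable section

namespace Pool.Agent.Helper584.PG



theorem S_even (N : E → ℝ) (hN : IsG N) (g : T) : pS N (rX Real.pi g) = pS N g := by
  have h1 : (rX Real.pi g).1 = -g.1 := by
    simp [rX]
  have h2 : (rX Real.pi g).2.1 = -g.2.1 := by
    simp [rX]
  have h3 : fderiv ℝ N (-g.1) = -fderiv ℝ N g.1 := by
    have h4 : N ∘ (ContinuousLinearEquiv.neg ℝ : E ≃L[ℝ] E) = N := funext hN.even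
    have h5 := (ContinuousLinearEquiv.neg ℝ : E ≃L[ℝ] E).comp_right_fderiv (f := N) (x := g.1)
    rw [h4] at h5
    ext1 w
    rw [h5]
    simp
  unfold pS
  rw [h1, h2, h3, hN.even]
  simp

end Pool.Agent.Helper584.PG
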