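import Pool.Agent.Helper584.PG.Defs
import Pool.Agent.Helper584.PG.P_fr_basic

set_option autoImplicit false

open MeasureTheory Set Filter Topology

noncomputable section

namespace Pool.Agent.Helper584.PG



theorem S_meas_aux {a b A c : ℝ} (ha : |a| ≤ A) (hc : 0 < c) (hb : c ≤ b) : |a / b| ≤ A / c := by
  rw [abs_div, abs_of_pos (hc.trans_le hb)]
  exact div_le_div₀ ((abs_nonneg a).trans ha) ha hc hb

theorem S_meas_D (N : E → ℝ) (f : T → E) (hf : Measurable f) :
    Measurable (fun g : T => fderiv ℝ N g.1 (f g)) := by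
  have h1 : Measurable (fun g : T => fderiv ℝ N g.1) := (measurable_fderiv ℝ N).comp measurable_fst
  have h2 : Measurable (fun g : T => (fderiv ℝ N g.1, f g)) := h1.prodMk hf
  have h3 : Measurable (fun p : (E →L[ℝ] ℝ) × E => p.1 p.2) :=
    isBoundedBilinearMap_apply.continuous.measurable
  exact h3.comp h2

theorem S_meas (N : E → ℝ) (hN : IsG N) : Measurable (pS N) ∧ Measurable (pVS N) ∧ Measurable (pT N) ∧
    Measurable (pk N) ∧ ∃ B : ℝ, ∀ g ∈ Fr, |pS N g| ≤ B ∧ |pVS N g| ≤ B ∧ |pT N g| ≤ B ∧ |pk N g| ≤ B := by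
  obtain ⟨L, hL⟩ := hN.lip
  have hNm : Measurable (fun g : T => N g.1) := hL.continuous.measurable.comp measurable_fst
  have hD1 : Measurable (fun g : T => fderiv ℝ N g.1 g.2.1) := S_meas_D N _ measurable_snd.fst
  have hD2 : Measurable (fun g : T => fderiv ℝ N g.1 g.2.2) := S_meas_D N _ measurable_snd.snd
  have hat : Measurable Real.arctan := Real.continuous_arctan.measurable
  refine ⟨?_, ?_, ?_, ?_, ?_⟩
  · exact (((hNm.pow_const 2).add (hD1.pow_const 2)).sqrt).div (hNm.pow_const 2)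
  · exact (hD1.mul hD2).div ((((hNm.pow_const 2).add (hD1.pow_const 2)).sqrt).mul (hNm.pow_const 2))
  · exact (measurable_const.add ((hD1.div hNm).mul (hat.comp (hD1.div hNm)))).div (hNm.pow_const 2)
  · exact (((hD1.div hNm).mul (hD2.div hNm)).sub
      ((hD2.div hNm).mul (hat.comp (hD1.div hNm)))).div (hNm.pow_const 2)
  · have hcs : IsCompact (Metric.sphere (0 : E) 1) := isCompact_sphere _ _
    have hne : (Metric.sphere (0 : E) 1).Nonempty := NormedSpace.sphere_nonempty.2 zero_le_one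
    obtain ⟨x₀, hx₀, hmin⟩ := hcs.exists_isMinOn hne hL.continuous.continuousOn
    obtain ⟨x₁, hx₁, hmax⟩ := hcs.exists_isMaxOn hne hL.continuous.continuousOn
    have hx₀0 : x₀ ≠ 0 := by
      rintro rfl
      simp at hx₀
    set m : ℝ := N x₀ with hm
    set M : ℝ := N x₁ with hM
    have hmpos : 0 < m := hN.pos x₀ hx₀0
    set K : ℝ := (L : ℝ) with hK
    have hK0 : 0 ≤ K := L.2
    have hMm : m ≤ M := hmin hx₁
    have hpi := Real.pi_pos
    refine ⟨(M + K) / m ^ 2 + (K * K) / (m * m ^ 2) + (1 + K / m * (Real.pi / 2)) / m ^ 2 +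
      (K / m * (K / m) + K / m * (Real.pi / 2)) / m ^ 2, ?_⟩
    intro g hg
    obtain ⟨h1, h2, h3, -, -, -⟩ := hg
    have hgs : g.1 ∈ Metric.sphere (0 : E) 1 := by simpa using h1
    have hn1 : m ≤ N g.1 := hmin hgs
    have hn2 : N g.1 ≤ M := hmax hgs
    have hn0 : 0 < N g.1 := hmpos.trans_le hn1
    have hF : ‖fderiv ℝ N g.1‖ ≤ K := norm_fderiv_le_of_lipschitz ℝ hL
    have hd1 : |fderiv ℝ N g.1 g.2.1| ≤ K := by
      have := (fderiv ℝ N g.1).le_opNorm g.2.1
      rw [h2, mul_one] at this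
      exact this.trans hF
    have hd2 : |fderiv ℝ N g.1 g.2.2| ≤ K := by
      have := (fderiv ℝ N g.1).le_opNorm g.2.2
      rw [h3, mul_one] at this
      exact this.trans hF
    have hq1 : |fderiv ℝ N g.1 g.2.1 / N g.1| ≤ K / m := S_meas_aux hd1 hmpos hn1
    have hq2 : |fderiv ℝ N g.1 g.2.2 / N g.1| ≤ K / m := S_meas_aux hd2 hmpos hn1
    have hat1 : |Real.arctan (fderiv ℝ N g.1 g.2.1 / N g.1)| ≤ Real.pi / 2 :=
      (abs_lt.2 ⟨Real.neg_pi_div_two_lt_arctan _, Real.arctan_lt_pi_div_two _⟩).le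
    have hm2 : 0 < m ^ 2 := by positivity
    have hn3 : m ^ 2 ≤ (N g.1) ^ 2 := by gcongr
    have hKm : 0 ≤ K / m := by positivity
    have hM0 : 0 < M := hmpos.trans_le hMm
    have t1 : 0 ≤ (M + K) / m ^ 2 := by positivity
    have t2 : 0 ≤ (K * K) / (m * m ^ 2) := by positivity
    have t3 : 0 ≤ (1 + K / m * (Real.pi / 2)) / m ^ 2 := by positivity
    have t4 : 0 ≤ (K / m * (K / m) + K / m * (Real.pi / 2)) / m ^ 2 := by positivity
    have hsq1 : N g.1 ≤ Real.sqrt ((N g.1) ^ 2 + (fderiv ℝ N g.1 g.2.1) ^ 2) := by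
      apply Real.le_sqrt_of_sq_le
      nlinarith [sq_nonneg (fderiv ℝ N g.1 g.2.1)]
    have hsq2 : |Real.sqrt ((N g.1) ^ 2 + (fderiv ℝ N g.1 g.2.1) ^ 2)| ≤ M + K := by
      rw [abs_of_nonneg (Real.sqrt_nonneg _)]
      apply Real.sqrt_le_iff.2
      refine ⟨by linarith, ?_⟩
      have e1 : (N g.1) ^ 2 ≤ M ^ 2 := by gcongr
      have e2 : (fderiv ℝ N g.1 g.2.1) ^ 2 ≤ K ^ 2 := by
        rw [← sq_abs]; gcongr
      nlinarith [mul_nonneg hM0.le hK0]
    refine ⟨?_, ?_, ?_, ?_⟩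
    · have : |pS N g| ≤ (M + K) / m ^ 2 := S_meas_aux hsq2 hm2 hn3
      linarith
    · have : |pVS N g| ≤ (K * K) / (m * m ^ 2) := by
        apply S_meas_aux
        · rw [abs_mul]; gcongr
        · positivity
        · exact mul_le_mul (hn1.trans hsq1) hn3 hm2.le (Real.sqrt_nonneg _)
      linarith
    · have : |pT N g| ≤ (1 + K / m * (Real.pi / 2)) / m ^ 2 := by
        apply S_meas_aux _ hm2 hn3
        refine (abs_add_le _ _).trans ?_
        rw [abs_one, abs_mul]
        gcongr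
      linarith
    · have : |pk N g| ≤ (K / m * (K / m) + K / m * (Real.pi / 2)) / m ^ 2 := by
        apply S_meas_aux _ hm2 hn3
        refine (abs_sub _ _).trans ?_
        rw [abs_mul, abs_mul]
        gcongr
      linarith

end Pool.Agent.Helper584.PG
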