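import Pool.Agent.Helper584.PG.Defs

set_option autoImplicit false

open MeasureTheory Set Filter Topology

noncomputable section

namespace Pool.Agent.Helper584.PG



theorem r_deriv_aux1 (a b : E) (t : ℝ) :
    HasDerivAt (fun s => Real.cos s • a + Real.sin s • b) ((-Real.sin t) • a + Real.cos t • b) t :=
  ((Real.hasDerivAt_cos t).smul_const a).add ((Real.hasDerivAt_sin t).smul_const b)

theorem r_deriv_aux2 (a b : E) (t : ℝ) :
    HasDerivAt (fun s => (-Real.sin s) • a + Real.cos s • b)
      (-(Real.cos t • a + Real.sin t • b)) t := by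
  have h := ((Real.hasDerivAt_sin t).neg.smul_const a).add
    ((Real.hasDerivAt_cos t).smul_const b)
  have e : (-(Real.cos t • a + Real.sin t • b)) = (-Real.cos t) • a + (-Real.sin t) • b := by
    rw [neg_add, neg_smul, neg_smul]
  rw [e]
  exact h

theorem r_deriv : (∀ (t : ℝ) (g : T), HasDerivAt (fun s => rX s g) (aX (rX t g)) t) ∧
    (∀ (t : ℝ) (g : T), HasDerivAt (fun s => rV s g) (aV (rV t g)) t) ∧
    (∀ (t : ℝ) (g : T), HasDerivAt (fun s => rH s g) (aH (rH t g)) t) ∧
    (∀ t : ℝ, ∃ L : T →L[ℝ] T, ∀ g, L g = rX t g) ∧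
    (∀ t : ℝ, ∃ L : T →L[ℝ] T, ∀ g, L g = rV t g) ∧
    (∀ t : ℝ, ∃ L : T →L[ℝ] T, ∀ g, L g = rH t g) ∧
    (∀ (t : ℝ) (g h : T), ip (rX t g) h = ip g (rX (-t) h)) ∧
    (∀ (t : ℝ) (g h : T), ip (rV t g) h = ip g (rV (-t) h)) ∧
    (∀ (g h : T), ip g h = ip h g) := by
  refine ⟨?_, ?_, ?_, ?_, ?_, ?_, ?_, ?_, ?_⟩
  · intro t g
    exact (r_deriv_aux1 g.1 g.2.1 t).prodMk
      ((r_deriv_aux2 g.1 g.2.1 t).prodMk (hasDerivAt_const t g.2.2))
  · intro t g
    exact (hasDerivAt_const t g.1).prodMk
      ((r_deriv_aux1 g.2.1 g.2.2 t).prodMk (r_deriv_aux2 g.2.1 g.2.2 t))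
  · intro t g
    exact (r_deriv_aux1 g.1 g.2.2 t).prodMk
      ((hasDerivAt_const t g.2.1).prodMk (r_deriv_aux2 g.1 g.2.2 t))
  · intro t
    refine ⟨ContinuousLinearMap.prod
      (Real.cos t • ContinuousLinearMap.fst ℝ E (E × E) +
        Real.sin t • (ContinuousLinearMap.fst ℝ E E).comp (ContinuousLinearMap.snd ℝ E (E × E)))
      (ContinuousLinearMap.prod
        ((-Real.sin t) • ContinuousLinearMap.fst ℝ E (E × E) +
          Real.cos t • (ContinuousLinearMap.fst ℝ E E).comp
            (ContinuousLinearMap.snd ℝ E (E × E)))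
        ((ContinuousLinearMap.snd ℝ E E).comp (ContinuousLinearMap.snd ℝ E (E × E)))), ?_⟩
    intro g
    rfl
  · intro t
    refine ⟨ContinuousLinearMap.prod
      (ContinuousLinearMap.fst ℝ E (E × E))
      (ContinuousLinearMap.prod
        (Real.cos t • (ContinuousLinearMap.fst ℝ E E).comp
            (ContinuousLinearMap.snd ℝ E (E × E)) +
          Real.sin t • (ContinuousLinearMap.snd ℝ E E).comp
            (ContinuousLinearMap.snd ℝ E (E × E)))
        ((-Real.sin t) • (ContinuousLinearMap.fst ℝ E E).comp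
            (ContinuousLinearMap.snd ℝ E (E × E)) +
          Real.cos t • (ContinuousLinearMap.snd ℝ E E).comp
            (ContinuousLinearMap.snd ℝ E (E × E)))), ?_⟩
    intro g
    rfl
  · intro t
    refine ⟨ContinuousLinearMap.prod
      (Real.cos t • ContinuousLinearMap.fst ℝ E (E × E) +
        Real.sin t • (ContinuousLinearMap.snd ℝ E E).comp (ContinuousLinearMap.snd ℝ E (E × E)))
      (ContinuousLinearMap.prod
        ((ContinuousLinearMap.fst ℝ E E).comp (ContinuousLinearMap.snd ℝ E (E × E)))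
        ((-Real.sin t) • ContinuousLinearMap.fst ℝ E (E × E) +
          Real.cos t • (ContinuousLinearMap.snd ℝ E E).comp
            (ContinuousLinearMap.snd ℝ E (E × E)))), ?_⟩
    intro g
    rfl
  · intro t g h
    simp only [ip, rX, inner_add_left, inner_add_right, real_inner_smul_left,
      real_inner_smul_right, Real.cos_neg, Real.sin_neg]
    ring
  · intro t g h
    simp only [ip, rV, inner_add_left, inner_add_right, real_inner_smul_left,
      real_inner_smul_right, Real.cos_neg, Real.sin_neg]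
    ring
  · intro g h
    simp only [ip]
    rw [real_inner_comm g.1 h.1, real_inner_comm g.2.1 h.2.1, real_inner_comm g.2.2 h.2.2]

end Pool.Agent.Helper584.PG
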