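import Pool.Agent.Helper584.PG.Defs
import Pool.Agent.Helper584.PG.P_r_deriv

set_option autoImplicit false

open MeasureTheory Set Filter Topology

noncomputable section

namespace Pool.Agent.Helper584.PG



theorem flow_D (F : T → ℝ) (hF : ContDiff ℝ 1 F) (g : T) (t : ℝ) :
    HasDerivAt (fun s => F (rX s g)) (DX F (rX t g)) t ∧
    HasDerivAt (fun s => F (rV s g)) (DV F (rV t g)) t ∧
    HasDerivAt (fun s => F (rH s g)) (DH F (rH t g)) t := by
  have hd : Differentiable ℝ F := hF.differentiable (by norm_num)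
  obtain ⟨h1, h2, h3, -⟩ := r_deriv
  exact ⟨(hd (rX t g)).hasFDerivAt.comp_hasDerivAt t (h1 t g),
    (hd (rV t g)).hasFDerivAt.comp_hasDerivAt t (h2 t g),
    (hd (rH t g)).hasFDerivAt.comp_hasDerivAt t (h3 t g)⟩

end Pool.Agent.Helper584.PG
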