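import Pool.Agent.Helper584.PG.Defs

set_option autoImplicit false

open MeasureTheory Set Filter Topology

noncomputable section

namespace Pool.Agent.Helper584.PG



theorem r_alg : (∀ (s t : ℝ) (g : T), rX s (rX t g) = rX (s + t) g) ∧
    (∀ (s t : ℝ) (g : T), rV s (rV t g) = rV (s + t) g) ∧
    (∀ (s t : ℝ) (g : T), rH s (rH t g) = rH (s + t) g) ∧
    (∀ g : T, rX 0 g = g) ∧ (∀ g : T, rV 0 g = g) ∧ (∀ g : T, rH 0 g = g) ∧
    (∀ (t : ℝ) (g : T), rX (t + 2 * Real.pi) g = rX t g) ∧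
    (∀ (t : ℝ) (g : T), rX t (aV g) = Real.cos t • aV (rX t g) + Real.sin t • aH (rX t g)) ∧
    (∀ (t : ℝ) (g : T), rX t (aH g) = Real.cos t • aH (rX t g) - Real.sin t • aV (rX t g)) ∧
    (∀ (s : ℝ) (g : T), rX Real.pi (rV s g) = rV (-s) (rX Real.pi g)) := by
  refine ⟨?_, ?_, ?_, ?_, ?_, ?_, ?_, ?_, ?_, ?_⟩
  · rintro s t ⟨a, b, c⟩
    refine Prod.ext ?_ (Prod.ext ?_ ?_)
    · simp only [rX, Real.cos_add, Real.sin_add]; module
    · simp only [rX, Real.cos_add, Real.sin_add]; module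
    · simp only [rX]
  · rintro s t ⟨a, b, c⟩
    refine Prod.ext ?_ (Prod.ext ?_ ?_)
    · simp only [rV]
    · simp only [rV, Real.cos_add, Real.sin_add]; module
    · simp only [rV, Real.cos_add, Real.sin_add]; module
  · rintro s t ⟨a, b, c⟩
    refine Prod.ext ?_ (Prod.ext ?_ ?_)
    · simp only [rH, Real.cos_add, Real.sin_add]; module
    · simp only [rH]
    · simp only [rH, Real.cos_add, Real.sin_add]; module
  · rintro ⟨a, b, c⟩
    simp [rX]
  · rintro ⟨a, b, c⟩
    simp [rV]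
  · rintro ⟨a, b, c⟩
    simp [rH]
  · rintro t ⟨a, b, c⟩
    simp only [rX, Real.cos_add_two_pi, Real.sin_add_two_pi]
  · rintro t ⟨a, b, c⟩
    refine Prod.ext ?_ (Prod.ext ?_ ?_)
    · simp only [rX, aV, aH, Prod.fst_add, Prod.snd_add, Prod.smul_fst, Prod.smul_snd]
    · simp only [rX, aV, aH, Prod.fst_add, Prod.snd_add, Prod.smul_fst, Prod.smul_snd]; module
    · simp only [rX, aV, aH, Prod.fst_add, Prod.snd_add, Prod.smul_fst, Prod.smul_snd]
      match_scalars
      · linear_combination Real.sin_sq_add_cos_sq t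
      · ring
  · rintro t ⟨a, b, c⟩
    refine Prod.ext ?_ (Prod.ext ?_ ?_)
    · simp only [rX, aV, aH, Prod.fst_sub, Prod.snd_sub, Prod.smul_fst, Prod.smul_snd]; module
    · simp only [rX, aV, aH, Prod.fst_sub, Prod.snd_sub, Prod.smul_fst, Prod.smul_snd]; module
    · simp only [rX, aV, aH, Prod.fst_sub, Prod.snd_sub, Prod.smul_fst, Prod.smul_snd]
      match_scalars
      · linear_combination Real.sin_sq_add_cos_sq t
      · ring
  · rintro s ⟨a, b, c⟩
    refine Prod.ext ?_ (Prod.ext ?_ ?_)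
    · simp only [rX, rV, Real.cos_pi, Real.sin_pi, Real.cos_neg, Real.sin_neg]; module
    · simp only [rX, rV, Real.cos_pi, Real.sin_pi, Real.cos_neg, Real.sin_neg]; module
    · simp only [rX, rV, Real.cos_pi, Real.sin_pi, Real.cos_neg, Real.sin_neg]; module

end Pool.Agent.Helper584.PG
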