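import Pool.Agent.Helper584.PG.Defs
import Pool.Agent.Helper584.PG.P_fr_basic
import Pool.Agent.Helper584.PG.P_r_alg
import Pool.Agent.Helper584.PG.P_flow_D

set_option autoImplicit false

open MeasureTheory Set Filter Topology

noncomputable section

namespace Pool.Agent.Helper584.PG



theorem antiW (u : T → ℝ) (hu : ContDiff ℝ 1 u) (h : ∀ g ∈ Fr, u (rX Real.pi g) = u g) :
    ∀ g ∈ Fr, DV u (rX Real.pi g) = - DV u g := by
  intro g hg
  obtain ⟨-, -, hVFr, -, -, -, -, -⟩ := (⟨fr_basic.1, fr_basic.2.1, fr_basic.2.2.1, trivial, trivial,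
    trivial, trivial, trivial⟩ : IsCompact Fr ∧ (∀ t : ℝ, ∀ g ∈ Fr, rX t g ∈ Fr) ∧
    (∀ t : ℝ, ∀ g ∈ Fr, rV t g ∈ Fr) ∧ True ∧ True ∧ True ∧ True ∧ True)
  obtain ⟨-, -, -, -, hV0, -, -, -, -, halg⟩ := r_alg
  have h1 : (fun s : ℝ => u (rV (-s) (rX Real.pi g))) = fun s : ℝ => u (rV s g) := by
    funext s
    rw [← halg s g]
    exact h _ (hVFr s g hg)
  have d1 : HasDerivAt (fun s : ℝ => u (rV s g)) (DV u g) 0 := by
    have := (flow_D u hu g 0).2.1
    rwa [hV0] at this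
  have d2 : HasDerivAt (fun s : ℝ => u (rV (-s) (rX Real.pi g))) (-DV u (rX Real.pi g)) 0 := by
    have h2 := (flow_D u hu (rX Real.pi g) (-0)).2.1
    have h3 := h2.scomp (0 : ℝ) ((hasDerivAt_id (0 : ℝ)).neg)
    rw [neg_zero, hV0] at h3
    simpa [Function.comp_def] using h3
  rw [h1] at d2
  have := d2.unique d1
  linarith

end Pool.Agent.Helper584.PG
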