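import Pool.Agent.Helper584.PG.Defs

set_option autoImplicit false

open MeasureTheory Set Filter Topology

noncomputable section

namespace Pool.Agent.Helper584.PG



theorem bc_facts_inner1 {g : T} (hg : g ∈ Fr) (t : ℝ) : inner ℝ (cv g t) g.1 = Real.cos t := by
  obtain ⟨h1, h2, h3, h4, h5, h6⟩ := hg
  unfold cv
  rw [inner_add_left, inner_smul_left, inner_smul_left, real_inner_self_eq_norm_sq, h1,
    real_inner_comm, h4]
  simp

theorem bc_facts_inner2 {g : T} (hg : g ∈ Fr) (t : ℝ) : inner ℝ (cv g t) g.2.1 = Real.sin t := by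
  obtain ⟨h1, h2, h3, h4, h5, h6⟩ := hg
  unfold cv
  rw [inner_add_left, inner_smul_left, inner_smul_left, real_inner_self_eq_norm_sq, h2, h4]
  simp

theorem bc_facts_norm {g : T} (hg : g ∈ Fr) (t : ℝ) : ‖cv g t‖ = 1 := by
  have h1 : ‖cv g t‖ ^ 2 = 1 := by
    rw [← real_inner_self_eq_norm_sq]
    conv_lhs => rw [show cv g t = Real.cos t • g.1 + Real.sin t • g.2.1 from rfl]
    rw [inner_add_left, inner_smul_left, inner_smul_left]
    have e1 := bc_facts_inner1 hg t
    have e2 := bc_facts_inner2 hg t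
    rw [real_inner_comm] at e1 e2
    have e3 : inner ℝ g.1 (Real.cos t • g.1 + Real.sin t • g.2.1) = Real.cos t := e1
    have e4 : inner ℝ g.2.1 (Real.cos t • g.1 + Real.sin t • g.2.1) = Real.sin t := e2
    rw [e3, e4]
    simp only [conj_trivial]
    nlinarith [Real.cos_sq_add_sin_sq t]
  have h2 : (0 : ℝ) ≤ ‖cv g t‖ := norm_nonneg _
  nlinarith

theorem bc_facts_lip {g : T} (hg : g ∈ Fr) (s t : ℝ) : ‖cv g t - cv g s‖ ≤ 2 * |t - s| := by
  have e : cv g t - cv g s = (Real.cos t - Real.cos s) • g.1 + (Real.sin t - Real.sin s) • g.2.1 := by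
    unfold cv
    module
  rw [e]
  have h1 : |Real.cos t - Real.cos s| ≤ |t - s| := by
    simpa [Real.dist_eq] using Real.lipschitzWith_cos.dist_le_mul t s
  have h2 : |Real.sin t - Real.sin s| ≤ |t - s| := by
    simpa [Real.dist_eq] using Real.lipschitzWith_sin.dist_le_mul t s
  refine (norm_add_le _ _).trans ?_
  rw [norm_smul, norm_smul, hg.1, hg.2.1, mul_one, mul_one, Real.norm_eq_abs, Real.norm_eq_abs]
  linarith

theorem bc_facts_low (N : E → ℝ) (hN : IsG N) : ∃ m : ℝ, 0 < m ∧ ∀ x : E, ‖x‖ = 1 → m ≤ N x := by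
  obtain ⟨L, hL⟩ := hN.lip
  have hc : IsCompact (Metric.sphere (0 : E) 1) := isCompact_sphere _ _
  have hne : (Metric.sphere (0 : E) 1).Nonempty := by
    refine ⟨EuclideanSpace.single 0 1, ?_⟩
    simp
  obtain ⟨x0, hx0, hmin⟩ := hc.exists_isMinOn hne hL.continuous.continuousOn
  refine ⟨N x0, hN.pos x0 ?_, fun x hx => hmin (by simpa using hx)⟩
  rintro rfl
  simp at hx0

theorem bc_facts (N : E → ℝ) (hN : IsG N) (g : T) (hg : g ∈ Fr) :
    (∃ L : NNReal, LipschitzWith L (bc N g)) ∧ (∀ t, bc N g (t + 2 * Real.pi) = bc N g t) ∧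
    InjOn (bc N g) (Ico 0 (2 * Real.pi)) := by
  obtain ⟨m, hm, hlow⟩ := bc_facts_low N hN
  obtain ⟨L, hL⟩ := hN.lip
  have hml : ∀ t, m ≤ N (cv g t) := fun t => hlow _ (bc_facts_norm hg t)
  have hpos : ∀ t, 0 < N (cv g t) := fun t => hm.trans_le (hml t)
  refine ⟨?_, ?_, ?_⟩
  · refine ⟨Real.toNNReal (2 * L / m ^ 2 + 2 / m), ?_⟩
    refine LipschitzWith.of_dist_le_mul fun t s => ?_
    rw [Real.coe_toNNReal _ (by positivity), dist_eq_norm, Real.dist_eq]
    have e : bc N g t - bc N g s = ((N (cv g t))⁻¹ - (N (cv g s))⁻¹) • cv g t +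
        (N (cv g s))⁻¹ • (cv g t - cv g s) := by
      unfold bc
      module
    rw [e]
    have h1 : |(N (cv g t))⁻¹ - (N (cv g s))⁻¹| ≤ 2 * L / m ^ 2 * |t - s| := by
      have h2 : (N (cv g t))⁻¹ - (N (cv g s))⁻¹ =
          (N (cv g s) - N (cv g t)) / (N (cv g t) * N (cv g s)) := by
        have := (hpos t).ne'
        have := (hpos s).ne'
        field_simp
      rw [h2, abs_div, abs_of_pos (mul_pos (hpos t) (hpos s))]
      have h3 : |N (cv g s) - N (cv g t)| ≤ L * (2 * |t - s|) := by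
        have h4 := hL.dist_le_mul (cv g t) (cv g s)
        rw [Real.dist_eq, dist_eq_norm, abs_sub_comm] at h4
        exact h4.trans (mul_le_mul_of_nonneg_left (bc_facts_lip hg s t) L.2)
      have h5 : m ^ 2 ≤ N (cv g t) * N (cv g s) := by
        rw [sq]
        exact mul_le_mul (hml t) (hml s) hm.le (hpos t).le
      calc |N (cv g s) - N (cv g t)| / (N (cv g t) * N (cv g s))
          ≤ (L * (2 * |t - s|)) / m ^ 2 := by
            apply div_le_div₀ (by positivity) h3 (by positivity) h5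
        _ = 2 * L / m ^ 2 * |t - s| := by ring
    have h6 : ‖(N (cv g s))⁻¹ • (cv g t - cv g s)‖ ≤ 2 / m * |t - s| := by
      rw [norm_smul, Real.norm_eq_abs, abs_of_pos (inv_pos.2 (hpos s))]
      calc (N (cv g s))⁻¹ * ‖cv g t - cv g s‖ ≤ m⁻¹ * (2 * |t - s|) :=
            mul_le_mul (inv_anti₀ hm (hml s)) (bc_facts_lip hg s t) (norm_nonneg _)
              (inv_pos.2 hm).le
        _ = 2 / m * |t - s| := by ring
    calc ‖((N (cv g t))⁻¹ - (N (cv g s))⁻¹) • cv g t + (N (cv g s))⁻¹ • (cv g t - cv g s)‖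
        ≤ ‖((N (cv g t))⁻¹ - (N (cv g s))⁻¹) • cv g t‖ +
          ‖(N (cv g s))⁻¹ • (cv g t - cv g s)‖ := norm_add_le _ _
      _ ≤ 2 * L / m ^ 2 * |t - s| + 2 / m * |t - s| := by
          refine add_le_add ?_ h6
          rw [norm_smul, bc_facts_norm hg, mul_one, Real.norm_eq_abs]
          exact h1
      _ = (2 * L / m ^ 2 + 2 / m) * |t - s| := by ring
  · intro t
    have h1 : cv g (t + 2 * Real.pi) = cv g t := by
      unfold cv
      rw [Real.cos_add_two_pi, Real.sin_add_two_pi]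
    unfold bc
    rw [h1]
  · intro s hs t ht hst
    have hst' : (N (cv g s))⁻¹ • cv g s = (N (cv g t))⁻¹ • cv g t := hst
    have h1 := congrArg norm hst'
    rw [norm_smul, norm_smul, bc_facts_norm hg, bc_facts_norm hg, mul_one, mul_one,
      Real.norm_eq_abs, Real.norm_eq_abs, abs_of_pos (inv_pos.2 (hpos s)),
      abs_of_pos (inv_pos.2 (hpos t))] at h1
    rw [h1] at hst'
    have h2 : cv g s = cv g t := smul_right_injective E (inv_pos.2 (hpos t)).ne' hst'
    have hc : Real.cos s = Real.cos t := by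
      rw [← bc_facts_inner1 hg s, ← bc_facts_inner1 hg t, h2]
    have hsn : Real.sin s = Real.sin t := by
      rw [← bc_facts_inner2 hg s, ← bc_facts_inner2 hg t, h2]
    have h3 : Real.cos (s - t) = 1 := by
      rw [Real.cos_sub, hc, hsn]
      nlinarith [Real.cos_sq_add_sin_sq t]
    have h4 := (Real.cos_eq_one_iff_of_lt_of_lt (by linarith [hs.1, ht.2])
      (by linarith [hs.2, ht.1])).1 h3
    linarith

end Pool.Agent.Helper584.PG
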