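import Pool.Agent.Helper584.PG.Defs

set_option autoImplicit false

open MeasureTheory Set Filter Topology

noncomputable section

namespace Pool.Agent.Helper584.PG



theorem nn_isP_aux_supp (N : E → ℝ) (hN : IsG N) (x : E) (hx : x ≠ 0) :
    ∃ a : E →ₗ[ℝ] ℝ, a x = N x ∧ ∀ y, a y ≤ N y := by
  have hN0 : N 0 = 0 := by
    have := hN.hom 0 le_rfl 0
    simpa using this
  have hnn : ∀ y, 0 ≤ N y := by
    intro y
    by_cases hy : y = 0
    · rw [hy, hN0]
    · exact (hN.pos y hy).le
  have hadd : ∀ x y, N (x + y) ≤ N x + N y := by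
    intro x y
    have h : N ((1 / 2 : ℝ) • x + (1 / 2 : ℝ) • y) ≤ (1 / 2 : ℝ) • N x + (1 / 2 : ℝ) • N y :=
      hN.conv.2 (mem_univ x) (mem_univ y) (by norm_num) (by norm_num) (by norm_num)
    have e : (1 / 2 : ℝ) • x + (1 / 2 : ℝ) • y = (1 / 2 : ℝ) • (x + y) := by rw [smul_add]
    rw [e, hN.hom (1 / 2) (by norm_num)] at h
    simp only [smul_eq_mul] at h
    linarith
  have H : ∀ c : ℝ, c • x = 0 → (RingHom.id ℝ) c • N x = 0 := by
    intro c hc
    have : c = 0 := by
      rcases smul_eq_zero.mp hc with h | h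
      · exact h
      · exact absurd h hx
    rw [this]
    simp
  obtain ⟨a, ha1, ha2⟩ := exists_extension_of_le_sublinear
    (LinearPMap.mkSpanSingleton' x (N x) H) N
    (fun c hc y => hN.hom c hc.le y) hadd (by
      rintro ⟨y, hy⟩
      obtain ⟨c, rfl⟩ := Submodule.mem_span_singleton.mp hy
      rw [LinearPMap.mkSpanSingleton'_apply]
      simp only [RingHom.id_apply, smul_eq_mul]
      by_cases hc : 0 ≤ c
      · rw [hN.hom c hc]
      · push Not at hc
        have := hnn (c • x)
        have h2 := hnn x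
        nlinarith)
  refine ⟨a, ?_, ha2⟩
  have h := ha1 ⟨x, Submodule.mem_span_singleton_self x⟩
  rw [LinearPMap.mkSpanSingleton'_apply_self] at h
  exact h

theorem nn_isP (N : E → ℝ) (hN : IsG N) (g : T) (hg : g ∈ Fr) : IsP (nn N g) := by
  have hnorm : ∀ t, ‖cv g t‖ = 1 := by
    intro t
    obtain ⟨h1, h2, _, h4, _, _⟩ := hg
    have : ‖cv g t‖ ^ 2 = 1 := by
      unfold cv
      rw [norm_add_sq_real, norm_smul, norm_smul, inner_smul_left, inner_smul_right, h1, h2, h4]
      simp
    have h5 : 0 ≤ ‖cv g t‖ := norm_nonneg _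
    nlinarith
  have hne : ∀ t, cv g t ≠ 0 := by
    intro t h
    have := hnorm t
    rw [h, norm_zero] at this
    exact zero_ne_one this
  have hpos : ∀ t, 0 < nn N g t := fun t => hN.pos _ (hne t)
  have hper : ∀ t, nn N g (t + 2 * Real.pi) = nn N g t := by
    intro t
    unfold nn cv
    rw [Real.cos_add_two_pi, Real.sin_add_two_pi]
  have hlip : ∃ L : NNReal, LipschitzWith L (nn N g) := by
    obtain ⟨L, hL⟩ := hN.lip
    refine ⟨L * 2, ?_⟩
    have hcv : LipschitzWith 2 (cv g) := by
      refine LipschitzWith.of_dist_le_mul fun s t => ?_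
      obtain ⟨h1, h2, _⟩ := hg
      rw [dist_eq_norm, Real.dist_eq]
      have e : cv g s - cv g t = (Real.cos s - Real.cos t) • g.1 + (Real.sin s - Real.sin t) • g.2.1 := by
        unfold cv
        module
      rw [e]
      calc ‖(Real.cos s - Real.cos t) • g.1 + (Real.sin s - Real.sin t) • g.2.1‖
          ≤ ‖(Real.cos s - Real.cos t) • g.1‖ + ‖(Real.sin s - Real.sin t) • g.2.1‖ := norm_add_le _ _
        _ = |Real.cos s - Real.cos t| + |Real.sin s - Real.sin t| := by
            rw [norm_smul, norm_smul, h1, h2, Real.norm_eq_abs, Real.norm_eq_abs, mul_one, mul_one]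
        _ ≤ |s - t| + |s - t| := add_le_add (Real.abs_cos_sub_cos_le s t) (Real.abs_sin_sub_sin_le s t)
        _ = ((2 : NNReal) : ℝ) * |s - t| := by push_cast; ring
    exact hL.comp hcv
  refine ⟨?_, hlip, hper, ?_⟩
  · obtain ⟨L, hL⟩ := hlip
    have hc : Continuous (nn N g) := hL.continuous
    obtain ⟨t₀, _, ht₀⟩ := isCompact_Icc.exists_isMinOn (s := Icc 0 (2 * Real.pi))
      ⟨0, by constructor <;> linarith [Real.pi_pos]⟩ hc.continuousOn
    refine ⟨nn N g t₀, hpos t₀, fun t => ?_⟩
    have hP : Function.Periodic (nn N g) (2 * Real.pi) := hper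
    obtain ⟨y, hy, hyt⟩ := hP.exists_mem_Ico₀ (by linarith [Real.pi_pos]) t
    rw [hyt]
    exact ht₀ (Ico_subset_Icc_self hy)
  · intro t ht s
    obtain ⟨a, ha1, ha2⟩ := nn_isP_aux_supp N hN (cv g t) (hne t)
    have hacv : ∀ r, a (cv g r) = a g.1 * Real.cos r + a g.2.1 * Real.sin r := by
      intro r
      unfold cv
      rw [map_add, map_smul, map_smul, smul_eq_mul, smul_eq_mul]
      ring
    have hle : ∀ r, a g.1 * Real.cos r + a g.2.1 * Real.sin r ≤ nn N g r := by
      intro r
      rw [← hacv]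
      exact ha2 _
    have heq : a g.1 * Real.cos t + a g.2.1 * Real.sin t = nn N g t := by
      rw [← hacv]
      exact ha1
    obtain ⟨p, hp⟩ : ∃ p, p = a g.1 := ⟨_, rfl⟩
    obtain ⟨q, hq⟩ : ∃ q, q = a g.2.1 := ⟨_, rfl⟩
    rw [← hp, ← hq] at heq
    simp only [← hp, ← hq] at hle
    have hder : HasDerivAt (fun r => nn N g r - (p * Real.cos r + q * Real.sin r))
        (deriv (nn N g) t - (p * (-Real.sin t) + q * Real.cos t)) t :=
      ht.hasDerivAt.sub (((Real.hasDerivAt_cos t).const_mul p).add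
        ((Real.hasDerivAt_sin t).const_mul q))
    have hmin : IsLocalMin (fun r => nn N g r - (p * Real.cos r + q * Real.sin r)) t := by
      refine Eventually.of_forall fun r => ?_
      beta_reduce
      rw [heq, sub_self]
      linarith [hle r]
    have hzero := hmin.hasDerivAt_eq_zero hder
    obtain ⟨d, hd⟩ : ∃ d, d = deriv (nn N g) t := ⟨_, rfl⟩
    rw [← hd] at hzero
    have hd' : d = q * Real.cos t - p * Real.sin t := by linarith
    have hnt := hpos t
    have hns := hpos s
    have hom : om (nn N g) t = Real.arctan (d / nn N g t) := by unfold om; rw [hd]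
    rw [hom]
    obtain ⟨w, hw⟩ : ∃ w, w = Real.arctan (d / nn N g t) := ⟨_, rfl⟩
    rw [← hw]
    have hcosw : 0 < Real.cos w := by rw [hw]; exact Real.cos_arctan_pos _
    have hsinw : Real.sin w = d / nn N g t * Real.cos w := by
      have h1 : Real.tan w = d / nn N g t := by rw [hw]; exact Real.tan_arctan _
      rw [← h1, Real.tan_mul_cos hcosw.ne']
    rw [div_le_iff₀ hns]
    have e1 : Real.cos (t + w - s) = Real.cos w * Real.cos (s - t) + Real.sin w * Real.sin (s - t) := by
      rw [← Real.cos_sub]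
      congr 1
      ring
    rw [e1, hsinw]
    have e2 : Real.cos w * Real.cos (s - t) + d / nn N g t * Real.cos w * Real.sin (s - t)
        = Real.cos w / nn N g t * (nn N g t * Real.cos (s - t) + d * Real.sin (s - t)) := by
      field_simp
    rw [e2]
    have e3 : nn N g t * Real.cos (s - t) + d * Real.sin (s - t) = p * Real.cos s + q * Real.sin s := by
      rw [← heq, hd', Real.cos_sub, Real.sin_sub]
      have := Real.sin_sq_add_cos_sq t
      linear_combination (p * Real.cos s + q * Real.sin s) * this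
    rw [e3]
    exact mul_le_mul_of_nonneg_left (hle s) (div_nonneg hcosw.le hnt.le)

end Pool.Agent.Helper584.PG
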