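import Pool.Agent.Helper584.PG.Defs
import Pool.Agent.Helper584.PG.P_nn_isP

set_option autoImplicit false

open MeasureTheory Set Filter Topology

noncomputable section

namespace Pool.Agent.Helper584.PG



theorem bc_speed_norm (x y : E) (hx : ‖x‖ = 1) (hy : ‖y‖ = 1) (hxy : inner ℝ x y = (0:ℝ)) (a b : ℝ) :
    ‖a • x + b • y‖ ^ 2 = a ^ 2 + b ^ 2 := by
  rw [norm_add_sq_real, norm_smul, norm_smul, inner_smul_left, inner_smul_right, hxy, hx, hy]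
  simp

theorem bc_speed_deriv (g : T) (t : ℝ) :
    HasDerivAt (cv g) (-Real.sin t • g.1 + Real.cos t • g.2.1) t := by
  have h1 := (Real.hasDerivAt_cos t).smul_const g.1
  have h2 := (Real.hasDerivAt_sin t).smul_const g.2.1
  exact h1.add h2

theorem bc_speed (N : E → ℝ) (hN : IsG N) (g : T) (hg : g ∈ Fr) (t : ℝ)
    (ht : DifferentiableAt ℝ (nn N g) t) : ‖deriv (bc N g) t‖ = plS (nn N g) t := by
  obtain ⟨m, hm, hlow⟩ := (nn_isP N hN g hg).low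
  have hn : 0 < nn N g t := hm.trans_le (hlow t)
  obtain ⟨hg1, hg2, -, hg12, -, -⟩ := hg
  have h1 : HasDerivAt (fun t => (nn N g t)⁻¹) (-(deriv (nn N g) t) / (nn N g t) ^ 2) t :=
    ht.hasDerivAt.fun_inv hn.ne'
  have h2 := h1.fun_smul (bc_speed_deriv g t)
  have h3 : HasDerivAt (bc N g) ((nn N g t)⁻¹ • (-Real.sin t • g.1 + Real.cos t • g.2.1) +
      (-(deriv (nn N g) t) / (nn N g t) ^ 2) • cv g t) t := h2
  rw [h3.deriv]
  obtain ⟨n, hn'⟩ : ∃ n : ℝ, n = nn N g t := ⟨_, rfl⟩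
  obtain ⟨q, hq⟩ : ∃ q : ℝ, q = deriv (nn N g) t := ⟨_, rfl⟩
  unfold plS
  rw [← hq, ← hn'] at *
  have e1 : n⁻¹ • (-Real.sin t • g.1 + Real.cos t • g.2.1) + (-q / n ^ 2) • cv g t =
      (n⁻¹ * (-Real.sin t) + (-q / n ^ 2) * Real.cos t) • g.1 +
        (n⁻¹ * Real.cos t + (-q / n ^ 2) * Real.sin t) • g.2.1 := by
    unfold cv
    simp only [smul_add, smul_smul, add_smul]
    abel
  have e2 : ‖n⁻¹ • (-Real.sin t • g.1 + Real.cos t • g.2.1) + (-q / n ^ 2) • cv g t‖ ^ 2 =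
      (Real.sqrt (n ^ 2 + q ^ 2) / n ^ 2) ^ 2 := by
    rw [e1, bc_speed_norm _ _ hg1 hg2 hg12, div_pow, Real.sq_sqrt (by positivity)]
    have hs := Real.sin_sq_add_cos_sq t
    have e3 : (n⁻¹ * (-Real.sin t) + (-q / n ^ 2) * Real.cos t) ^ 2 +
        (n⁻¹ * Real.cos t + (-q / n ^ 2) * Real.sin t) ^ 2 =
        ((n⁻¹) ^ 2 + (q / n ^ 2) ^ 2) * (Real.sin t ^ 2 + Real.cos t ^ 2) := by ring
    rw [e3, hs]
    field_simp
  exact (pow_left_inj₀ (norm_nonneg _) (by positivity) two_ne_zero).1 e2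

end Pool.Agent.Helper584.PG
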