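import Pool.Agent.Helper584.PG.Defs

set_option autoImplicit false

open MeasureTheory Set Filter Topology

noncomputable section

namespace Pool.Agent.Helper584.PG



theorem bdry_decomp (g : T) (hg : g ∈ Fr) (x : E) (hx : inner ℝ x g.2.2 = (0:ℝ)) :
    x = (inner ℝ g.1 x : ℝ) • g.1 + (inner ℝ g.2.1 x : ℝ) • g.2.1 := by
  obtain ⟨h1, h2, h3, h4, h5, h6⟩ := hg
  have hon : Orthonormal ℝ ![g.1, g.2.1, g.2.2] := by
    constructor
    · intro i
      fin_cases i
      · exact h1
      · exact h2
      · exact h3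
    · intro i j hij
      fin_cases i <;> fin_cases j <;> simp_all [real_inner_comm]
  have hcard : Fintype.card (Fin 3) = Module.finrank ℝ E := by simp
  let b0 := basisOfOrthonormalOfCardEqFinrank hon hcard
  have hb0 : ⇑b0 = ![g.1, g.2.1, g.2.2] := coe_basisOfOrthonormalOfCardEqFinrank hon hcard
  let b : OrthonormalBasis (Fin 3) ℝ E := b0.toOrthonormalBasis (by rw [hb0]; exact hon)
  have hb : ⇑b = ![g.1, g.2.1, g.2.2] := by
    rw [Module.Basis.coe_toOrthonormalBasis, hb0]
  have h := b.sum_repr' x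
  rw [hb, Fin.sum_univ_three] at h
  simp only [Matrix.cons_val_zero, Matrix.cons_val_one, Matrix.cons_val_two, Matrix.head_cons,
    Matrix.tail_cons, Matrix.cons_val] at h
  rw [real_inner_comm] at hx
  rw [hx, zero_smul, add_zero] at h
  exact h.symm

theorem bdry_cv_orth (g : T) (hg : g ∈ Fr) (t : ℝ) : inner ℝ (cv g t) g.2.2 = (0:ℝ) := by
  obtain ⟨h1, h2, h3, h4, h5, h6⟩ := hg
  simp only [cv, inner_add_left, real_inner_smul_left, h5, h6, mul_zero, add_zero]

theorem bdry_cv_ne (g : T) (hg : g ∈ Fr) (t : ℝ) : cv g t ≠ 0 := by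
  obtain ⟨h1, h2, h3, h4, h5, h6⟩ := hg
  intro h
  have h7 : inner ℝ (cv g t) (cv g t) = (1:ℝ) := by
    have h8 : inner ℝ g.1 g.1 = (1:ℝ) := by rw [real_inner_self_eq_norm_sq, h1]; norm_num
    have h9 : inner ℝ g.2.1 g.2.1 = (1:ℝ) := by rw [real_inner_self_eq_norm_sq, h2]; norm_num
    have h10 : inner ℝ g.2.1 g.1 = (0:ℝ) := by rw [real_inner_comm]; exact h4
    simp only [cv, inner_add_left, inner_add_right, real_inner_smul_left, real_inner_smul_right,
      h8, h9, h4, h10]
    have := Real.sin_sq_add_cos_sq t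
    nlinarith
  rw [h] at h7
  simp at h7

theorem bdry (K : Set E) (N : E → ℝ) (hN : IsG N) (hK : K = {x | N x ≤ 1}) (g : T) (hg : g ∈ Fr) :
    bd K g.2.2 = range (bc N g) := by
  have hcont : Continuous N := by
    obtain ⟨L, hL⟩ := hN.lip
    exact hL.continuous
  have hN0 : N 0 = 0 := by
    have := hN.hom 0 le_rfl 0
    simpa using this
  ext x
  constructor
  · rintro ⟨hxK, hxo, hxe⟩
    have hx1 : N x ≤ 1 := by
      rw [hK] at hxK
      exact hxK
    have hx2 : N x = 1 := by
      by_contra hne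
      have hlt : N x < 1 := lt_of_le_of_ne hx1 hne
      have hev : ∀ᶠ y in 𝓝 x, N y < 1 := hcont.continuousAt.eventually_lt continuousAt_const hlt
      obtain ⟨ε, hε, hball⟩ := Metric.mem_nhds_iff.1 hev
      obtain ⟨y, -, hy2, hy3⟩ := hxe ε hε
      have h8 : N y < 1 := hball hy2
      apply hy3
      rw [hK]
      exact h8.le
    have hx0 : x ≠ 0 := by
      intro h
      rw [h, hN0] at hx2
      exact zero_ne_one hx2
    have hdec := bdry_decomp g hg x hxo
    set a : ℝ := inner ℝ g.1 x with ha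
    set b : ℝ := inner ℝ g.2.1 x with hb
    set z : ℂ := ⟨a, b⟩ with hz
    have hz0 : z ≠ 0 := by
      intro h
      have h1 : a = 0 := congrArg Complex.re h
      have h2 : b = 0 := congrArg Complex.im h
      rw [h1, h2] at hdec
      simp at hdec
      exact hx0 hdec
    have hza : ‖z‖ * Real.cos z.arg = a := by
      have := Complex.norm_mul_cos_arg z
      exact this
    have hzb : ‖z‖ * Real.sin z.arg = b := by
      have := Complex.norm_mul_sin_arg z
      exact this
    have hxc : x = ‖z‖ • cv g z.arg := by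
      rw [hdec, cv, smul_add, smul_smul, smul_smul, hza, hzb]
    have hpos : 0 < N (cv g z.arg) := hN.pos _ (bdry_cv_ne g hg _)
    have h9 : ‖z‖ * N (cv g z.arg) = 1 := by
      rw [← hN.hom _ (norm_nonneg z), ← hxc, hx2]
    refine ⟨z.arg, ?_⟩
    rw [bc]
    have h10 : (N (cv g z.arg))⁻¹ = ‖z‖ := by
      field_simp
      linarith
    rw [h10, ← hxc]
  · rintro ⟨t, rfl⟩
    have hpos : 0 < N (cv g t) := hN.pos _ (bdry_cv_ne g hg _)
    have h1 : N (bc N g t) = 1 := by
      rw [bc, hN.hom _ (inv_nonneg.2 hpos.le), inv_mul_cancel₀ hpos.ne']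
    have horth : inner ℝ (bc N g t) g.2.2 = (0:ℝ) := by
      rw [bc, real_inner_smul_left, bdry_cv_orth g hg, mul_zero]
    refine ⟨?_, horth, ?_⟩
    · rw [hK]
      exact h1.le
    · intro ε hε
      set x := bc N g t with hx
      set δ : ℝ := ε / (2 * (‖x‖ + 1)) with hδ
      have hδ0 : 0 < δ := by positivity
      refine ⟨(1 + δ) • x, ?_, ?_, ?_⟩
      · rw [real_inner_smul_left, horth, mul_zero]
      · rw [dist_eq_norm, show (1 + δ) • x - x = δ • x by rw [add_smul, one_smul]; abel,
          norm_smul, Real.norm_eq_abs, abs_of_pos hδ0, hδ, div_mul_eq_mul_div,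
          div_lt_iff₀ (by positivity)]
        nlinarith [norm_nonneg x]
      · rw [hK]
        intro h
        have h2 : N ((1 + δ) • x) ≤ 1 := h
        rw [hN.hom _ (by positivity), h1] at h2
        linarith

end Pool.Agent.Helper584.PG
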