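import Pool.Agent.Helper584.PG.Defs

set_option autoImplicit false

open MeasureTheory Set Filter Topology

noncomputable section

namespace Pool.Agent.Helper584.PG


/-- `aV` as a continuous linear map -/
def comm_HV_LV : T →L[ℝ] T :=
  (0 : T →L[ℝ] E).prod (((ContinuousLinearMap.snd ℝ E E).comp (ContinuousLinearMap.snd ℝ E (E × E))).prod
    (-((ContinuousLinearMap.fst ℝ E E).comp (ContinuousLinearMap.snd ℝ E (E × E)))))

/-- `aH` as a continuous linear map -/
def comm_HV_LH : T →L[ℝ] T :=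
  ((ContinuousLinearMap.snd ℝ E E).comp (ContinuousLinearMap.snd ℝ E (E × E))).prod
    ((0 : T →L[ℝ] E).prod (-(ContinuousLinearMap.fst ℝ E (E × E))))

theorem comm_HV_LV_apply (g : T) : comm_HV_LV g = aV g := by
  simp [comm_HV_LV, aV]

theorem comm_HV_LH_apply (g : T) : comm_HV_LH g = aH g := by
  simp [comm_HV_LH, aH]

/-- product rule -/
theorem comm_HV_prod (F : T → ℝ) (hF : ContDiff ℝ 2 F) (L : T →L[ℝ] T) (g v : T) :
    fderiv ℝ (fun h => fderiv ℝ F h (L h)) g v =
      fderiv ℝ (fderiv ℝ F) g v (L g) + fderiv ℝ F g (L v) := by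
  have h1 : DifferentiableAt ℝ (fderiv ℝ F) g := by
    have : ContDiff ℝ 1 (fderiv ℝ F) := hF.fderiv_right (by norm_num)
    exact (this.differentiable (by norm_num)) g
  have h2 : HasFDerivAt (fun h : T => L h) L g := L.hasFDerivAt
  have h3 := (h1.hasFDerivAt).clm_apply h2
  rw [h3.fderiv]
  simp [add_comm]

theorem comm_HV (F : T → ℝ) (hF : ContDiff ℝ 2 F) (g : T) :
    DH (DV F) g - DV (DH F) g = DX F g := by
  have eV : DV F = fun h => fderiv ℝ F h (comm_HV_LV h) := by
    funext h; rw [comm_HV_LV_apply]; rfl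
  have eH : DH F = fun h => fderiv ℝ F h (comm_HV_LH h) := by
    funext h; rw [comm_HV_LH_apply]; rfl
  have e1 : DH (DV F) g = fderiv ℝ (fderiv ℝ F) g (aH g) (aV g) + fderiv ℝ F g (aV (aH g)) := by
    unfold DH
    rw [eV, comm_HV_prod F hF, comm_HV_LV_apply, comm_HV_LV_apply]
  have e2 : DV (DH F) g = fderiv ℝ (fderiv ℝ F) g (aV g) (aH g) + fderiv ℝ F g (aH (aV g)) := by
    unfold DV
    rw [eH, comm_HV_prod F hF, comm_HV_LH_apply, comm_HV_LH_apply]
  have hsym : fderiv ℝ (fderiv ℝ F) g (aH g) (aV g) = fderiv ℝ (fderiv ℝ F) g (aV g) (aH g) := by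
    have : IsSymmSndFDerivAt ℝ F g :=
      (hF.contDiffAt).isSymmSndFDerivAt (by simp)
    exact this.eq _ _
  have e3 : aV (aH g) - aH (aV g) = aX g := by
    simp [aV, aH, aX]
  rw [e1, e2, hsym, add_sub_add_left_eq_sub, ← map_sub, e3]
  rfl

end Pool.Agent.Helper584.PG
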