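import Pool.Agent.Helper584.PG.Defs

set_option autoImplicit false

open MeasureTheory Set Filter Topology

noncomputable section

namespace Pool.Agent.Helper584.PG



theorem cont_D_aux : ContDiff ℝ 1 aX ∧ ContDiff ℝ 1 aV ∧ ContDiff ℝ 1 aH := by
  refine ⟨?_, ?_, ?_⟩
  · unfold aX; fun_prop
  · unfold aV; fun_prop
  · unfold aH; fun_prop

theorem cont_D : (∀ F : T → ℝ, ContDiff ℝ 1 F → Continuous (DX F) ∧ Continuous (DV F) ∧ Continuous (DH F)) ∧
    (∀ F : T → ℝ, ContDiff ℝ 2 F → ContDiff ℝ 1 (DV F) ∧ ContDiff ℝ 1 (DH F)) := by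
  obtain ⟨hX, hV, hH⟩ := cont_D_aux
  refine ⟨fun F hF => ?_, fun F hF => ?_⟩
  · have h := hF.continuous_fderiv one_ne_zero
    exact ⟨h.clm_apply hX.continuous, h.clm_apply hV.continuous, h.clm_apply hH.continuous⟩
  · have h : ContDiff ℝ 1 (fderiv ℝ F) := hF.fderiv_right (by norm_num)
    exact ⟨h.clm_apply hV, h.clm_apply hH⟩

end Pool.Agent.Helper584.PG
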