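import Pool.Agent.Helper584.PG.Defs
import Pool.Agent.Helper584.PG.P_fr_basic
import Pool.Agent.Helper584.PG.P_r_alg
import Pool.Agent.Helper584.PG.P_r_deriv
import Pool.Agent.Helper584.PG.P_cont_D
import Pool.Agent.Helper584.PG.P_flow_D

set_option autoImplicit false

open MeasureTheory Set Filter Topology

noncomputable section

namespace Pool.Agent.Helper584.PG



theorem conj_rel_mixed (G H H' : ℝ → ℝ → ℝ) (P : ℝ → ℝ)
    (h1 : ∀ s t, HasDerivAt (fun τ => G s τ) (H s t) t)
    (h2 : ∀ t, HasDerivAt (fun s => G s t) (P t) 0)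
    (h3 : ∀ s t, HasDerivAt (fun σ => H σ t) (H' s t) s)
    (c1 : ∀ s, Continuous (H s)) (c2 : Continuous (fun p : ℝ × ℝ => H' p.1 p.2)) (t : ℝ) :
    HasDerivAt P (H' 0 t) t := by
  have c3 : ∀ s, Continuous (H' s) := fun s => c2.comp (by fun_prop : Continuous fun τ : ℝ => (s, τ))
  have key : ∀ t, HasDerivAt (fun s => ∫ τ in (0:ℝ)..t, H s τ) (∫ τ in (0:ℝ)..t, H' 0 τ) 0 := by
    intro t
    obtain ⟨M, hM⟩ := ((isCompact_Icc (a := (-1:ℝ)) (b := 1)).prod
      (isCompact_uIcc (a := (0:ℝ)) (b := t))).exists_bound_of_continuousOn c2.continuousOn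
    refine (intervalIntegral.hasDerivAt_integral_of_dominated_loc_of_deriv_le
      (bound := fun _ => M) (s := Icc (-1:ℝ) 1) (Icc_mem_nhds (by norm_num) (by norm_num))
      ?_ ?_ ?_ ?_ ?_ ?_).2
    · exact Eventually.of_forall (fun s => (c1 s).aestronglyMeasurable)
    · exact (c1 0).intervalIntegrable _ _
    · exact (c3 0).aestronglyMeasurable
    · refine Eventually.of_forall (fun τ hτ s hs => ?_)
      exact hM (s, τ) ⟨hs, uIoc_subset_uIcc hτ⟩
    · exact intervalIntegrable_const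
    · exact Eventually.of_forall (fun τ _ s _ => h3 s τ)
  have hG : ∀ s t, G s t = G s 0 + ∫ τ in (0:ℝ)..t, H s τ := by
    intro s t
    rw [intervalIntegral.integral_eq_sub_of_hasDerivAt (fun x _ => h1 s x)
      ((c1 s).intervalIntegrable _ _)]
    ring
  have hP : ∀ t, P t = P 0 + ∫ τ in (0:ℝ)..t, H' 0 τ := by
    intro t
    have h4 : HasDerivAt (fun s => G s t) (P 0 + ∫ τ in (0:ℝ)..t, H' 0 τ) 0 := by
      have h5 := (h2 0).add (key t)
      have e : (fun s => G s t) = (fun s => G s 0) + fun s => ∫ τ in (0:ℝ)..t, H s τ := by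
        funext s
        exact hG s t
      rw [e]
      exact h5
    exact (h2 t).unique h4
  have e : P = fun t => P 0 + ∫ τ in (0:ℝ)..t, H' 0 τ := by
    funext t
    exact hP t
  rw [e]
  exact (intervalIntegral.integral_hasDerivAt_right ((c3 0).intervalIntegrable _ _)
    ((c3 0).stronglyMeasurableAtFilter _ _) (c3 0).continuousAt).const_add (P 0)

theorem conj_rel_dir (S : Set T)
    (X : ℝ → T → T) (hXc : Continuous (fun p : ℝ × T => X p.1 p.2))
    (hlin : ∀ t : ℝ, ∃ L : T →L[ℝ] T, ∀ g, L g = X t g)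
    (u F : T → ℝ) (hu : ContDiff ℝ 1 u) (hF : ContDiff ℝ 1 F)
    (R : ℝ → T → T) (a : T → T) (ha : Continuous a) (hR0 : ∀ g, R 0 g = g)
    (hRF : ∀ s : ℝ, ∀ g ∈ S, R s g ∈ S) (hRc : ∀ g, Continuous (fun s => R s g))
    (hRd : ∀ (t : ℝ) (g : T), HasDerivAt (fun s => R s g) (a (R t g)) t)
    (h : ∀ g ∈ S, ∀ t : ℝ, HasDerivAt (fun s => u (X s g)) (F (X t g)) t)
    (g : T) (hg : g ∈ S) (t : ℝ) :
    HasDerivAt (fun s => fderiv ℝ u (X s g) (X s (a g)))
      (fderiv ℝ F (X t g) (X t (a g))) t := by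
  have hchain : ∀ (f : T → ℝ), ContDiff ℝ 1 f → ∀ s t : ℝ,
      HasDerivAt (fun σ => f (X t (R σ g)))
        (fderiv ℝ f (X t (R s g)) (X t (a (R s g)))) s := by
    intro f hf s t
    obtain ⟨L, hL⟩ := hlin t
    have h1 : HasDerivAt (fun σ => L (R σ g)) (L (a (R s g))) s :=
      L.hasFDerivAt.comp_hasDerivAt s (hRd s g)
    have h2 : HasFDerivAt f (fderiv ℝ f (L (R s g))) (L (R s g)) :=
      (hf.differentiable (by norm_num) _).hasFDerivAt
    have h3 := h2.comp_hasDerivAt s h1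
    simp only [hL] at h3
    exact h3
  have c1 : Continuous (fun p : ℝ × ℝ => R p.1 g) := (hRc g).comp continuous_fst
  have c2 : Continuous (fun p : ℝ × ℝ => X p.2 (R p.1 g)) :=
    hXc.comp (continuous_snd.prodMk c1)
  have c3 : Continuous (fun p : ℝ × ℝ => X p.2 (a (R p.1 g))) :=
    hXc.comp (continuous_snd.prodMk (ha.comp c1))
  have c4 : Continuous (fun p : ℝ × ℝ => fderiv ℝ F (X p.2 (R p.1 g)) (X p.2 (a (R p.1 g)))) :=
    ((hF.continuous_fderiv (by norm_num)).comp c2).clm_apply c3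
  have c5 : ∀ s, Continuous (fun t => F (X t (R s g))) := fun s =>
    hF.continuous.comp (hXc.comp (continuous_id.prodMk continuous_const))
  have hmain := conj_rel_mixed (fun s t => u (X t (R s g))) (fun s t => F (X t (R s g)))
    (fun s t => fderiv ℝ F (X t (R s g)) (X t (a (R s g))))
    (fun t => fderiv ℝ u (X t g) (X t (a g)))
    (fun s t => h (R s g) (hRF s g hg) t)
    (fun t => by
      have := hchain u hu 0 t
      rw [hR0] at this
      exact this)
    (fun s t => hchain F hF s t) c5 c4 t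
  simp only [hR0] at hmain
  exact hmain

theorem conj_rel_A (u F : T → ℝ) (hu : ContDiff ℝ 1 u) (hF : ContDiff ℝ 1 F)
    (h : ∀ g ∈ Fr, ∀ t : ℝ, HasDerivAt (fun s => u (rX s g)) (F (rX t g)) t)
    (g : T) (hg : g ∈ Fr) (t : ℝ) :
    HasDerivAt (fun s => Real.cos s * DV u (rX s g) + Real.sin s * DH u (rX s g))
      (Real.cos t * DV F (rX t g) + Real.sin t * DH F (rX t g)) t := by
  have aVc : Continuous aV := by unfold aV; fun_prop
  have hV0 : ∀ g : T, rV 0 g = g := r_alg.2.2.2.2.1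
  have hXV := r_alg.2.2.2.2.2.2.2.1
  have hRc : ∀ g : T, Continuous (fun s => rV s g) :=
    fun g => continuous_iff_continuousAt.2 (fun t => (r_deriv.2.1 t g).continuousAt)
  have hA := conj_rel_dir Fr rX fr_basic.2.2.2.2.1 r_deriv.2.2.2.1 u F hu hF rV aV aVc hV0
    fr_basic.2.2.1 hRc r_deriv.2.1 h g hg t
  have eA : ∀ (f : T → ℝ) (s : ℝ), fderiv ℝ f (rX s g) (rX s (aV g)) =
      Real.cos s * DV f (rX s g) + Real.sin s * DH f (rX s g) := by
    intro f s
    rw [hXV, map_add, map_smul, map_smul, smul_eq_mul, smul_eq_mul, DV, DH]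
  rw [eA] at hA
  have e : (fun s => fderiv ℝ u (rX s g) (rX s (aV g))) =
      fun s => Real.cos s * DV u (rX s g) + Real.sin s * DH u (rX s g) := funext (eA u)
  rw [e] at hA
  exact hA

theorem conj_rel_B (u F : T → ℝ) (hu : ContDiff ℝ 1 u) (hF : ContDiff ℝ 1 F)
    (h : ∀ g ∈ Fr, ∀ t : ℝ, HasDerivAt (fun s => u (rX s g)) (F (rX t g)) t)
    (g : T) (hg : g ∈ Fr) (t : ℝ) :
    HasDerivAt (fun s => Real.cos s * DH u (rX s g) - Real.sin s * DV u (rX s g))
      (Real.cos t * DH F (rX t g) - Real.sin t * DV F (rX t g)) t := by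
  have aHc : Continuous aH := by unfold aH; fun_prop
  have hH0 : ∀ g : T, rH 0 g = g := r_alg.2.2.2.2.2.1
  have hXH := r_alg.2.2.2.2.2.2.2.2.1
  have hRc : ∀ g : T, Continuous (fun s => rH s g) :=
    fun g => continuous_iff_continuousAt.2 (fun t => (r_deriv.2.2.1 t g).continuousAt)
  have hB := conj_rel_dir Fr rX fr_basic.2.2.2.2.1 r_deriv.2.2.2.1 u F hu hF rH aH aHc hH0
    fr_basic.2.2.2.1 hRc r_deriv.2.2.1 h g hg t
  have eB : ∀ (f : T → ℝ) (s : ℝ), fderiv ℝ f (rX s g) (rX s (aH g)) =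
      Real.cos s * DH f (rX s g) - Real.sin s * DV f (rX s g) := by
    intro f s
    rw [hXH, map_sub, map_smul, map_smul, smul_eq_mul, smul_eq_mul, DV, DH]
  rw [eB] at hB
  have e : (fun s => fderiv ℝ u (rX s g) (rX s (aH g))) =
      fun s => Real.cos s * DH u (rX s g) - Real.sin s * DV u (rX s g) := funext (eB u)
  rw [e] at hB
  exact hB

theorem conj_rel_trig (W Z w z : ℝ → ℝ) (t : ℝ)
    (hA : HasDerivAt (fun s => Real.cos s * W s + Real.sin s * Z s)
      (Real.cos t * w t + Real.sin t * z t) t)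
    (hB : HasDerivAt (fun s => Real.cos s * Z s - Real.sin s * W s)
      (Real.cos t * z t - Real.sin t * w t) t) :
    HasDerivAt W (w t - Z t) t ∧ HasDerivAt Z (z t + W t) t := by
  have hc := Real.hasDerivAt_cos t
  have hs := Real.hasDerivAt_sin t
  have hcs : Real.sin t ^ 2 + Real.cos t ^ 2 = 1 := Real.sin_sq_add_cos_sq t
  constructor
  · have h1 := (hc.mul hA).sub (hs.mul hB)
    have e : W =
        (Real.cos * fun s => Real.cos s * W s + Real.sin s * Z s) -
        (Real.sin * fun s => Real.cos s * Z s - Real.sin s * W s) := by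
      funext s
      simp only [Pi.sub_apply, Pi.mul_apply]
      linear_combination -(W s) * Real.sin_sq_add_cos_sq s
    rw [← e] at h1
    refine h1.congr_deriv ?_
    linear_combination (w t - Z t) * hcs
  · have h1 := (hs.mul hA).add (hc.mul hB)
    have e : Z =
        (Real.sin * fun s => Real.cos s * W s + Real.sin s * Z s) +
        (Real.cos * fun s => Real.cos s * Z s - Real.sin s * W s) := by
      funext s
      simp only [Pi.add_apply, Pi.mul_apply]
      linear_combination -(Z s) * Real.sin_sq_add_cos_sq s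
    rw [← e] at h1
    refine h1.congr_deriv ?_
    linear_combination (z t + W t) * hcs

theorem conj_rel (u F : T → ℝ) (hu : ContDiff ℝ 1 u) (hF : ContDiff ℝ 1 F)
    (h : ∀ g ∈ Fr, ∀ t : ℝ, HasDerivAt (fun s => u (rX s g)) (F (rX t g)) t) :
    ∀ g ∈ Fr, ∀ t : ℝ,
      HasDerivAt (fun s => DV u (rX s g)) (DV F (rX t g) - DH u (rX t g)) t ∧
      HasDerivAt (fun s => DH u (rX s g)) (DH F (rX t g) + DV u (rX t g)) t := by
  intro g hg t
  exact conj_rel_trig (fun s => DV u (rX s g)) (fun s => DH u (rX s g))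
    (fun s => DV F (rX s g)) (fun s => DH F (rX s g)) t
    (conj_rel_A u F hu hF h g hg t) (conj_rel_B u F hu hF h g hg t)

end Pool.Agent.Helper584.PG
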