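import Pool.Agent.Helper584.PG.Defs

set_option autoImplicit false

open MeasureTheory Set Filter Topology

noncomputable section

namespace Pool.Agent.Helper584.PG



theorem flow_zero (μ : Measure T) (hμ : IsFM μ) (r : ℝ → T → T)
    (hrc : Continuous (fun p : ℝ × T => r p.1 p.2)) (hr0 : ∀ g, r 0 g = g)
    (hrF : ∀ t, ∀ g ∈ Fr, r t g ∈ Fr) (hinv : ∀ t, Measure.map (r t) μ = μ)
    (k k' : T → ℝ) (hk : Measurable k) (hk' : Measurable k') (B : ℝ)
    (hB : ∀ g ∈ Fr, |k g| ≤ B) (hB' : ∀ g ∈ Fr, |k' g| ≤ B)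
    (hd : ∀ᵐ g ∂μ, ∀ t : ℝ, HasDerivAt (fun s => k (r s g)) (k' (r t g)) t) :
    ∫ g, k' g ∂μ = 0 := by
  haveI := hμ.prob
  have hFr : ∀ᵐ g ∂μ, g ∈ Fr := by
    rw [ae_iff]; exact hμ.supp
  have hrm : ∀ t, Measurable (r t) := fun t =>
    (hrc.comp (Continuous.prodMk continuous_const continuous_id)).measurable
  have hrm2 : Measurable (fun p : T × ℝ => r p.2 p.1) :=
    (hrc.comp (Continuous.prodMk continuous_snd continuous_fst)).measurable
  -- FTC
  have hftc : ∀ᵐ g ∂μ, (∫ t in (0:ℝ)..1, k' (r t g)) = k (r 1 g) - k g := by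
    filter_upwards [hFr, hd] with g hg hdg
    have hint : IntervalIntegrable (fun t => k' (r t g)) volume 0 1 := by
      have hm : Measurable (fun t => k' (r t g)) :=
        hk'.comp (hrm2.comp (measurable_const.prodMk measurable_id))
      rw [intervalIntegrable_iff]
      refine Measure.integrableOn_of_bounded (M := B) (by simp) hm.aestronglyMeasurable ?_
      exact Filter.Eventually.of_forall (fun t => by
        rw [Real.norm_eq_abs]; exact hB' _ (hrF t g hg))
    have h := intervalIntegral.integral_eq_sub_of_hasDerivAt (f := fun s => k (r s g))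
      (f' := fun t => k' (r t g)) (a := 0) (b := 1) (fun t _ => hdg t) hint
    rw [h]
    simp only [hr0]
  have hkint : Integrable k μ := by
    refine Integrable.of_bound hk.aestronglyMeasurable B ?_
    filter_upwards [hFr] with g hg
    rw [Real.norm_eq_abs]; exact hB g hg
  have hk1int : Integrable (fun g => k (r 1 g)) μ := by
    refine Integrable.of_bound (hk.comp (hrm 1)).aestronglyMeasurable B ?_
    filter_upwards [hFr] with g hg
    rw [Real.norm_eq_abs]; exact hB _ (hrF 1 g hg)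
  have hmapk : ∀ (f : T → ℝ), Measurable f → ∀ t, ∫ g, f (r t g) ∂μ = ∫ g, f g ∂μ := by
    intro f hf t
    conv_rhs => rw [← hinv t]
    rw [integral_map (hrm t).aemeasurable]
    rw [hinv t]
    exact hf.aestronglyMeasurable
  have h0 : ∫ g, (∫ t in (0:ℝ)..1, k' (r t g)) ∂μ = 0 := by
    rw [integral_congr_ae hftc, integral_sub hk1int hkint, hmapk k hk 1, sub_self]
  have hsw : ∫ g, (∫ t in (0:ℝ)..1, k' (r t g)) ∂μ = ∫ t in (0:ℝ)..1, (∫ g, k' (r t g) ∂μ) := by
    simp only [intervalIntegral.integral_of_le (zero_le_one' ℝ)]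
    apply integral_integral_swap (f := fun g t => k' (r t g))
    refine Integrable.of_bound (C := B) (hk'.comp hrm2).aestronglyMeasurable ?_
    have h1 : ∀ᵐ p ∂(μ.prod (volume.restrict (Ioc (0:ℝ) 1))), p.1 ∈ Fr :=
      Measure.quasiMeasurePreserving_fst.ae hFr
    filter_upwards [h1] with p hp
    rw [Real.norm_eq_abs]; exact hB' _ (hrF _ _ hp)
  rw [hsw] at h0
  have : ∀ t, ∫ g, k' (r t g) ∂μ = ∫ g, k' g ∂μ := hmapk k' hk'
  simp only [this] at h0
  simpa using h0

end Pool.Agent.Helper584.PG
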