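import Pool.Agent.Helper584.PG.Defs
import Pool.Agent.Helper584.PG.P_fr_basic

set_option autoImplicit false

open MeasureTheory Set Filter Topology

noncomputable section

namespace Pool.Agent.Helper584.PG



theorem orbit_avg (μ : Measure T) (hμ : IsFM μ) (k : T → ℝ) (hk : Measurable k) (B : ℝ)
    (hB : ∀ g ∈ Fr, |k g| ≤ B) :
    Integrable k μ ∧ Integrable (fun g => ∫ t in (0:ℝ)..(2 * Real.pi), k (rX t g)) μ ∧
    ∫ g, (∫ t in (0:ℝ)..(2 * Real.pi), k (rX t g)) ∂μ = 2 * Real.pi * ∫ g, k g ∂μ := by
  haveI := hμ.prob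
  obtain ⟨-, hrX, -, -, hcX, -, -, -⟩ := fr_basic
  have hae : ∀ᵐ g ∂μ, g ∈ Fr := by
    rw [ae_iff]
    exact hμ.supp
  have hint : Integrable k μ := by
    refine Integrable.of_bound hk.aestronglyMeasurable B ?_
    filter_upwards [hae] with g hg
    rw [Real.norm_eq_abs]
    exact hB g hg
  have h2pi : (0:ℝ) ≤ 2 * Real.pi := by positivity
  set ν : Measure ℝ := volume.restrict (Ioc 0 (2 * Real.pi)) with hν
  haveI : IsFiniteMeasure ν := by
    rw [hν]
    infer_instance
  have hmeasF : Measurable (fun p : T × ℝ => k (rX p.2 p.1)) := by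
    have h1 : Measurable (fun p : T × ℝ => rX p.2 p.1) := by
      have h2 : Continuous (fun p : T × ℝ => (p.2, p.1)) := continuous_snd.prodMk continuous_fst
      have h2' : Measurable (fun p : T × ℝ => (p.2, p.1)) := h2.measurable
      have h7 : Measurable (fun p : ℝ × T => rX p.1 p.2) := hcX.measurable
      have h8 := h7.comp h2'
      simpa [Function.comp_def] using h8
    exact hk.comp h1
  have hF : Integrable (fun p : T × ℝ => k (rX p.2 p.1)) (μ.prod ν) := by
    refine Integrable.of_bound hmeasF.aestronglyMeasurable B ?_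
    have h3 : ∀ᵐ p ∂(μ.prod ν), p.1 ∈ Fr :=
      (Measure.quasiMeasurePreserving_fst (μ := μ) (ν := ν)).ae hae
    refine h3.mono ?_
    intro p hp
    have h6 : |k (rX p.2 p.1)| ≤ B := hB (rX p.2 p.1) (hrX p.2 p.1 hp)
    exact h6
  have hrw : (fun g => ∫ t in (0:ℝ)..(2 * Real.pi), k (rX t g)) =
      fun g => ∫ t, k (rX t g) ∂ν := by
    funext g
    rw [intervalIntegral.integral_of_le h2pi]
  refine ⟨hint, ?_, ?_⟩
  · rw [hrw]
    exact hF.integral_prod_left
  · rw [hrw]
    have hsw := integral_integral_swap (μ := μ) (ν := ν) (f := fun g t => k (rX t g)) hF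
    rw [hsw]
    have hin : ∀ t : ℝ, ∫ g, k (rX t g) ∂μ = ∫ g, k g ∂μ := by
      intro t
      have hm : Measurable (rX t) := by
        have h2 : Continuous (fun g : T => (t, g)) := continuous_const.prodMk continuous_id
        have h2' : Measurable (fun g : T => (t, g)) := h2.measurable
        have h7 : Measurable (fun p : ℝ × T => rX p.1 p.2) := hcX.measurable
        have h8 := h7.comp h2'
        simpa [Function.comp_def] using h8
      have h4 := integral_map (μ := μ) (φ := rX t) hm.aemeasurable (f := k)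
        hk.aestronglyMeasurable
      rw [hμ.invX t] at h4
      exact h4.symm
    simp_rw [hin]
    rw [integral_const]
    have h5 : ν.real univ = 2 * Real.pi := by
      rw [hν]
      simp [measureReal_def, h2pi, Real.pi_pos.le]
    rw [h5, smul_eq_mul]

end Pool.Agent.Helper584.PG
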