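import Pool.Agent.Helper584.PG.Defs
import Pool.Agent.Helper584.PG.P_fr_basic
import Pool.Agent.Helper584.PG.P_r_alg
import Pool.Agent.Helper584.PG.P_r_deriv
import Pool.Agent.Helper584.PG.P_flow_zero
import Pool.Agent.Helper584.PG.P_orbit_avg
import Pool.Agent.Helper584.PG.P_comm_HV
import Pool.Agent.Helper584.PG.P_cont_D
import Pool.Agent.Helper584.PG.P_flow_D
import Pool.Agent.Helper584.PG.P_conj_rel

set_option autoImplicit false

open MeasureTheory Set Filter Topology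

noncomputable section

namespace Pool.Agent.Helper584.PG



theorem pestov_bdd (k : T → ℝ) (hk : Continuous k) : ∃ B : ℝ, ∀ g ∈ Fr, |k g| ≤ B := by
  obtain ⟨B, hB⟩ := (fr_basic.1).exists_bound_of_continuousOn hk.continuousOn
  exact ⟨B, fun g hg => by simpa [Real.norm_eq_abs] using hB g hg⟩

theorem pestov_int (μ : Measure T) (hμ : IsFM μ) (k : T → ℝ) (hk : Continuous k) :
    Integrable k μ := by
  obtain ⟨B, hB⟩ := pestov_bdd k hk
  exact (orbit_avg μ hμ k hk.measurable B hB).1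

theorem pestov_fz (μ : Measure T) (hμ : IsFM μ) (r : ℝ → T → T)
    (hrc : Continuous (fun p : ℝ × T => r p.1 p.2)) (hr0 : ∀ g, r 0 g = g)
    (hrF : ∀ t, ∀ g ∈ Fr, r t g ∈ Fr) (hinv : ∀ t, Measure.map (r t) μ = μ)
    (k k' : T → ℝ) (hk : Continuous k) (hk' : Continuous k')
    (hd : ∀ g ∈ Fr, ∀ t : ℝ, HasDerivAt (fun s => k (r s g)) (k' (r t g)) t) :
    ∫ g, k' g ∂μ = 0 := by
  obtain ⟨B, hB⟩ := pestov_bdd k hk
  obtain ⟨B', hB'⟩ := pestov_bdd k' hk'
  refine flow_zero μ hμ r hrc hr0 hrF hinv k k' hk.measurable hk'.measurable (max B B')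
    (fun g hg => (hB g hg).trans (le_max_left _ _))
    (fun g hg => (hB' g hg).trans (le_max_right _ _)) ?_
  have h1 : ∀ᵐ g ∂μ, g ∈ Fr := by
    rw [ae_iff]
    exact hμ.supp
  filter_upwards [h1] with g hg
  exact hd g hg

theorem pestov (μ : Measure T) (hμ : IsFM μ) (u F : T → ℝ) (hu : ContDiff ℝ 1 u) (hF : ContDiff ℝ 2 F)
    (h : ∀ g ∈ Fr, ∀ t : ℝ, HasDerivAt (fun s => u (rX s g)) (F (rX t g)) t) :
    ∫ g, (DV F g - DH u g) ^ 2 ∂μ =
      (∫ g, (DV F g) ^ 2 ∂μ) + (∫ g, (DV u g) ^ 2 ∂μ) - ∫ g, (F g) ^ 2 ∂μ := by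
  obtain ⟨_, hFX, hFV, hFH, hcX, hcV, hcH, _⟩ := fr_basic
  obtain ⟨_, _, _, h0X, h0V, h0H, _⟩ := r_alg
  have hF1 : ContDiff ℝ 1 F := hF.of_le (by norm_num)
  obtain ⟨hDV1, hDH1⟩ := cont_D.2 F hF
  obtain ⟨cX, cV, cH⟩ := cont_D.1 F hF1
  obtain ⟨_, cW, cZ⟩ := cont_D.1 u hu
  obtain ⟨_, _, cHV⟩ := cont_D.1 (DV F) hDV1
  obtain ⟨_, cVH, _⟩ := cont_D.1 (DH F) hDH1
  have cu : Continuous u := hu.continuous
  have cF : Continuous F := hF.continuous
  -- (1)
  have e1 : ∫ g, (DV u g * DH F g + u g * DV (DH F) g) ∂μ = 0 :=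
    pestov_fz μ hμ rV hcV h0V hFV hμ.invV (fun g => u g * DH F g) _
      (cu.mul cH) ((cW.mul cH).add (cu.mul cVH))
      (fun g _ t => (flow_D u hu g t).2.1.mul (flow_D (DH F) hDH1 g t).2.1)
  have e2 : ∫ g, (DH u g * DV F g + u g * DH (DV F) g) ∂μ = 0 :=
    pestov_fz μ hμ rH hcH h0H hFH hμ.invH (fun g => u g * DV F g) _
      (cu.mul cV) ((cZ.mul cV).add (cu.mul cHV))
      (fun g _ t => (flow_D u hu g t).2.2.mul (flow_D (DV F) hDV1 g t).2.2)
  have e3 : ∫ g, (F g * F g + u g * DX F g) ∂μ = 0 :=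
    pestov_fz μ hμ rX hcX h0X hFX hμ.invX (fun g => u g * F g) _
      (cu.mul cF) ((cF.mul cF).add (cu.mul cX))
      (fun g hg t => (h g hg t).mul (flow_D F hF1 g t).1)
  have e4 : ∫ g, ((DV F g - DH u g) * DH u g + DV u g * (DH F g + DV u g)) ∂μ = 0 :=
    pestov_fz μ hμ rX hcX h0X hFX hμ.invX (fun g => DV u g * DH u g) _
      (cW.mul cZ) (((cV.sub cZ).mul cZ).add (cW.mul (cH.add cW)))
      (fun g hg t => (conj_rel u F hu hF1 h g hg t).1.mul (conj_rel u F hu hF1 h g hg t).2)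
  have iWH : Integrable (fun g => DV u g * DH F g) μ := pestov_int μ hμ _ (cW.mul cH)
  have iuVH : Integrable (fun g => u g * DV (DH F) g) μ := pestov_int μ hμ _ (cu.mul cVH)
  have iZV : Integrable (fun g => DH u g * DV F g) μ := pestov_int μ hμ _ (cZ.mul cV)
  have iuHV : Integrable (fun g => u g * DH (DV F) g) μ := pestov_int μ hμ _ (cu.mul cHV)
  have iFF : Integrable (fun g => (F g) ^ 2) μ := pestov_int μ hμ _ (cF.pow 2)
  have iuX : Integrable (fun g => u g * DX F g) μ := pestov_int μ hμ _ (cu.mul cX)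
  have iZZ : Integrable (fun g => (DH u g) ^ 2) μ := pestov_int μ hμ _ (cZ.pow 2)
  have iWW : Integrable (fun g => (DV u g) ^ 2) μ := pestov_int μ hμ _ (cW.pow 2)
  have iVV : Integrable (fun g => (DV F g) ^ 2) μ := pestov_int μ hμ _ (cV.pow 2)
  rw [integral_add iWH iuVH] at e1
  rw [integral_add iZV iuHV] at e2
  have e3' : (∫ g, (F g) ^ 2 ∂μ) + ∫ g, u g * DX F g ∂μ = 0 := by
    rw [← integral_add iFF iuX, ← e3]
    exact integral_congr_ae (Filter.Eventually.of_forall fun g => by ring_nf)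
  have e5 : (∫ g, u g * DX F g ∂μ) =
      (∫ g, u g * DH (DV F) g ∂μ) - ∫ g, u g * DV (DH F) g ∂μ := by
    rw [← integral_sub iuHV iuVH]
    refine integral_congr_ae (Filter.Eventually.of_forall fun g => ?_)
    show u g * DX F g = u g * DH (DV F) g - u g * DV (DH F) g
    rw [← comm_HV F hF g]
    ring
  have e4' : (∫ g, DH u g * DV F g ∂μ) - (∫ g, (DH u g) ^ 2 ∂μ) +
      ((∫ g, DV u g * DH F g ∂μ) + ∫ g, (DV u g) ^ 2 ∂μ) = 0 := by
    have iA : Integrable (fun g => DH u g * DV F g - (DH u g) ^ 2) μ := iZV.sub iZZ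
    have iB : Integrable (fun g => DV u g * DH F g + (DV u g) ^ 2) μ := iWH.add iWW
    rw [← integral_sub iZV iZZ, ← integral_add iWH iWW, ← integral_add iA iB, ← e4]
    refine integral_congr_ae (Filter.Eventually.of_forall fun g => ?_)
    show DH u g * DV F g - (DH u g) ^ 2 + (DV u g * DH F g + (DV u g) ^ 2) =
      (DV F g - DH u g) * DH u g + DV u g * (DH F g + DV u g)
    ring
  have e6 : ∫ g, (DV F g - DH u g) ^ 2 ∂μ =
      (∫ g, (DV F g) ^ 2 ∂μ) - 2 * (∫ g, DH u g * DV F g ∂μ) + ∫ g, (DH u g) ^ 2 ∂μ := by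
    have iC : Integrable (fun g => (DV F g) ^ 2 - 2 * (DH u g * DV F g)) μ :=
      iVV.sub (iZV.const_mul 2)
    rw [← integral_const_mul, ← integral_sub iVV (iZV.const_mul 2), ← integral_add iC iZZ]
    refine integral_congr_ae (Filter.Eventually.of_forall fun g => ?_)
    show (DV F g - DH u g) ^ 2 = (DV F g) ^ 2 - 2 * (DH u g * DV F g) + (DH u g) ^ 2
    ring
  rw [e6]
  linarith [e1, e2, e3', e4', e5]

end Pool.Agent.Helper584.PG

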