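import Pool.Agent.Helper584.PG.Defs
import Pool.Agent.Helper584.PG.P_fr_basic
import Pool.Agent.Helper584.PG.P_r_deriv

set_option autoImplicit false

open MeasureTheory Set Filter Topology

noncomputable section

namespace Pool.Agent.Helper584.PG



theorem uex_aux {H : Type*} [NormedAddCommGroup H] [NormedSpace ℝ H] [ProperSpace H]
    (Φ : H → ℝ → ℝ) (Φ' : H → ℝ → H →L[ℝ] ℝ) (a b : ℝ)
    (h1 : Continuous (fun p : H × ℝ => Φ p.1 p.2))
    (h2 : Continuous (fun p : H × ℝ => Φ' p.1 p.2))
    (h3 : ∀ t g, HasFDerivAt (fun x => Φ x t) (Φ' g t) g) :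
    ContDiff ℝ 1 (fun g : H => ∫ t in a..b, Φ g t) := by
  rw [contDiff_one_iff_hasFDerivAt]
  refine ⟨fun g => ∫ t in a..b, Φ' g t, ?_, ?_⟩
  · exact intervalIntegral.continuous_parametric_intervalIntegral_of_continuous' (f := Φ') h2 a b
  · intro g
    have hc : IsCompact (Metric.closedBall g 1 ×ˢ Set.uIcc a b) :=
      (isCompact_closedBall g 1).prod isCompact_uIcc
    obtain ⟨M, hM⟩ := hc.exists_bound_of_continuousOn h2.continuousOn
    refine intervalIntegral.hasFDerivAt_integral_of_dominated_of_fderiv_le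
      (s := Metric.closedBall g 1) (bound := fun _ => M)
      (Metric.closedBall_mem_nhds g one_pos) ?_ ?_ ?_ ?_ ?_ ?_
    · refine Filter.Eventually.of_forall fun x => ?_
      have : Continuous (Φ x) := h1.comp (Continuous.prodMk continuous_const continuous_id)
      exact this.aestronglyMeasurable
    · have : Continuous (Φ g) := h1.comp (Continuous.prodMk continuous_const continuous_id)
      exact this.intervalIntegrable _ _
    · have : Continuous (Φ' g) := h2.comp (Continuous.prodMk continuous_const continuous_id)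
      exact this.aestronglyMeasurable
    · refine Filter.Eventually.of_forall fun t ht x hx => ?_
      exact hM (x, t) ⟨hx, Set.uIoc_subset_uIcc ht⟩
    · exact intervalIntegrable_const
    · refine Filter.Eventually.of_forall fun t _ x _ => h3 t x

/-- `rX t` as a continuous linear map -/
def uexA : T →L[ℝ] T :=
  (ContinuousLinearMap.fst ℝ E (E × E)).prod
    (((ContinuousLinearMap.fst ℝ E E).comp (ContinuousLinearMap.snd ℝ E (E × E))).prod 0)
def uexB : T →L[ℝ] T :=
  ((ContinuousLinearMap.fst ℝ E E).comp (ContinuousLinearMap.snd ℝ E (E × E))).prod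
    ((-(ContinuousLinearMap.fst ℝ E (E × E))).prod 0)
def uexC : T →L[ℝ] T :=
  (0 : T →L[ℝ] E).prod ((0 : T →L[ℝ] E).prod
    ((ContinuousLinearMap.snd ℝ E E).comp (ContinuousLinearMap.snd ℝ E (E × E))))
def uexL (t : ℝ) : T →L[ℝ] T := Real.cos t • uexA + Real.sin t • uexB + uexC

theorem uexL_apply (t : ℝ) (g : T) : uexL t g = rX t g := by
  obtain ⟨x, y, z⟩ := g
  simp [uexL, uexA, uexB, uexC, rX]
  rw [add_comm]

theorem uexL_cont : Continuous uexL := by
  unfold uexL
  fun_prop

theorem uex_smooth (F : T → ℝ) (hF : ContDiff ℝ 1 F) :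
    ContDiff ℝ 1 (fun g : T => ∫ t in (0:ℝ)..(2 * Real.pi), t * F (rX t g)) := by
  have hL : Continuous (fun p : T × ℝ => uexL p.2 p.1) :=
    (uexL_cont.comp continuous_snd).clm_apply continuous_fst
  have h := uex_aux (fun (g : T) (t : ℝ) => t * F (uexL t g))
    (fun g t => t • (fderiv ℝ F (uexL t g)).comp (uexL t)) 0 (2 * Real.pi)
    (continuous_snd.mul (hF.continuous.comp hL))
    (continuous_snd.smul (((hF.continuous_fderiv one_ne_zero).comp hL).clm_comp
      (uexL_cont.comp continuous_snd))) ?_
  · simpa only [uexL_apply] using h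
  · intro t g
    have h1 : HasFDerivAt F (fderiv ℝ F (uexL t g)) (uexL t g) :=
      (hF.differentiable one_ne_zero _).hasFDerivAt
    have h2 : HasFDerivAt (fun x : T => uexL t x) (uexL t) g := (uexL t).hasFDerivAt
    exact (h1.comp g h2).const_mul t

end Pool.Agent.Helper584.PG
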