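import Pool.Agent.Helper584.PG.Defs
import Pool.Agent.Helper584.PG.P_fr_basic
import Pool.Agent.Helper584.PG.P_r_alg
import Pool.Agent.Helper584.PG.P_r_deriv
import Pool.Agent.Helper584.PG.P_uex_smooth

set_option autoImplicit false

open MeasureTheory Set Filter Topology

noncomputable section

namespace Pool.Agent.Helper584.PG



theorem uex_cont (F : T → ℝ) (hF : Continuous F) (g : T) :
    Continuous (fun y : ℝ => F (rX y g)) := by
  have h : Continuous (fun y : ℝ => rX y g) := by
    unfold rX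
    exact ((Real.continuous_cos.smul continuous_const).add
      (Real.continuous_sin.smul continuous_const)).prodMk
      (((Real.continuous_sin.neg.smul continuous_const).add
        (Real.continuous_cos.smul continuous_const)).prodMk continuous_const)
  exact hF.comp h

theorem uex_per (φ : ℝ → ℝ) (hφ : Continuous φ) (hp : Function.Periodic φ (2 * Real.pi))
    (h0 : ∫ t in (0:ℝ)..(2 * Real.pi), φ t = 0) (s : ℝ) :
    HasDerivAt (fun s => ∫ t in (0:ℝ)..(2 * Real.pi), t * φ (t + s)) (2 * Real.pi * φ s) s := by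
  have hc : Continuous (fun y : ℝ => y * φ y) := continuous_id.mul hφ
  have h1 : ∀ s : ℝ, ∫ t in (0:ℝ)..(2 * Real.pi), t * φ (t + s) =
      (∫ y in (0:ℝ)..(s + 2 * Real.pi), y * φ y) - ∫ y in (0:ℝ)..s, y * φ y := by
    intro s
    have e1 : ∫ t in (0:ℝ)..(2 * Real.pi), t * φ (t + s) =
        ∫ t in (0:ℝ)..(2 * Real.pi), (fun y => (y - s) * φ y) (t + s) := by
      refine intervalIntegral.integral_congr (fun t _ => ?_)
      show t * φ (t + s) = (t + s - s) * φ (t + s)
      rw [add_sub_cancel_right]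
    rw [e1, intervalIntegral.integral_comp_add_right (fun y => (y - s) * φ y) s, zero_add,
      add_comm (2 * Real.pi) s]
    have e2 : ∫ y in s..(s + 2 * Real.pi), (y - s) * φ y =
        (∫ y in s..(s + 2 * Real.pi), y * φ y) - s * ∫ y in s..(s + 2 * Real.pi), φ y := by
      have hsc : Continuous (fun y : ℝ => s * φ y) := continuous_const.mul hφ
      rw [← intervalIntegral.integral_const_mul, ← intervalIntegral.integral_sub
        (hc.intervalIntegrable _ _) (hsc.intervalIntegrable _ _)]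
      refine intervalIntegral.integral_congr (fun t _ => ?_)
      show (t - s) * φ t = t * φ t - s * φ t
      ring
    have e3 : ∫ y in s..(s + 2 * Real.pi), φ y = 0 := by
      rw [hp.intervalIntegral_add_eq s 0, zero_add, h0]
    rw [e2, e3, mul_zero, sub_zero,
      intervalIntegral.integral_interval_sub_left (hc.intervalIntegrable _ _)
        (hc.intervalIntegrable _ _)]
  have h2 : HasDerivAt (fun x : ℝ => ∫ y in (0:ℝ)..x, y * φ y)
      ((s + 2 * Real.pi) * φ (s + 2 * Real.pi)) (s + 2 * Real.pi) :=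
    (hc.integral_hasStrictDerivAt 0 (s + 2 * Real.pi)).hasDerivAt
  have h3 : HasDerivAt (fun x : ℝ => ∫ y in (0:ℝ)..x, y * φ y) (s * φ s) s :=
    (hc.integral_hasStrictDerivAt 0 s).hasDerivAt
  have h4 : HasDerivAt (fun x : ℝ => x + 2 * Real.pi) 1 s := (hasDerivAt_id s).add_const _
  have h5 := (h2.comp s h4).sub h3
  have h6 : (fun s => ∫ t in (0:ℝ)..(2 * Real.pi), t * φ (t + s)) =
      fun s => (∫ y in (0:ℝ)..(s + 2 * Real.pi), y * φ y) - ∫ y in (0:ℝ)..s, y * φ y :=
    funext h1
  rw [h6]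
  refine h5.congr_deriv ?_
  rw [hp s]
  ring

theorem uex (F : T → ℝ) (hF : ContDiff ℝ 1 F)
    (hz : ∀ g ∈ Fr, ∫ t in (0:ℝ)..(2 * Real.pi), F (rX t g) = 0)
    (he : ∀ g ∈ Fr, F (rX Real.pi g) = F g) :
    ∃ u : T → ℝ, ContDiff ℝ 1 u ∧
      (∀ g ∈ Fr, ∀ t : ℝ, HasDerivAt (fun s => u (rX s g)) (F (rX t g)) t) ∧
      (∀ g ∈ Fr, u (rX Real.pi g) = u g) := by
  obtain ⟨-, fr1, -, -, fr2, -, -, -⟩ := fr_basic
  obtain ⟨ra1, -, -, ra2, -, -, ra3, -, -, -⟩ := r_alg
  have hpi : (0 : ℝ) < 2 * Real.pi := Real.two_pi_pos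
  refine ⟨fun g => 1 / (2 * Real.pi) * ∫ t in (0:ℝ)..(2 * Real.pi), t * F (rX t g),
    contDiff_const.mul (uex_smooth F hF), ?_, ?_⟩
  · intro g hg s
    have hc : Continuous (fun y : ℝ => F (rX y g)) := uex_cont F hF.continuous g
    have hp : Function.Periodic (fun y : ℝ => F (rX y g)) (2 * Real.pi) := by
      intro y
      show F (rX (y + 2 * Real.pi) g) = F (rX y g)
      rw [ra3]
    have h1 := (uex_per _ hc hp (hz g hg) s).const_mul (1 / (2 * Real.pi))
    have h2 : (fun s => (fun g => 1 / (2 * Real.pi) *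
        ∫ t in (0:ℝ)..(2 * Real.pi), t * F (rX t g)) (rX s g)) =
        fun s => 1 / (2 * Real.pi) * ∫ t in (0:ℝ)..(2 * Real.pi),
          t * (fun y : ℝ => F (rX y g)) (t + s) := by
      funext s
      simp only [ra1]
    rw [h2]
    refine h1.congr_deriv ?_
    field_simp
  · intro g hg
    show 1 / (2 * Real.pi) * ∫ t in (0:ℝ)..(2 * Real.pi), t * F (rX t (rX Real.pi g)) =
      1 / (2 * Real.pi) * ∫ t in (0:ℝ)..(2 * Real.pi), t * F (rX t g)
    congr 1
    refine intervalIntegral.integral_congr (fun t _ => ?_)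
    show t * F (rX t (rX Real.pi g)) = t * F (rX t g)
    rw [ra1, add_comm, ← ra1, he _ (fr1 t g hg)]

end Pool.Agent.Helper584.PG
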