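import Pool.Agent.Helper584.PG.Defs

set_option autoImplicit false

open MeasureTheory Set Filter Topology

noncomputable section

namespace Pool.Agent.Helper584.PG



theorem wirt1_aux (w w' : ℝ → ℝ) (hw' : Continuous w') (hd : ∀ t, HasDerivAt w (w' t) t)
    (a : ℝ) (h0 : w a = 0) (h1 : w (a + Real.pi) = 0) (l : ℝ) (hl0 : 0 < l) (hl1 : l < 1) :
    l ^ 2 * ∫ t in a..(a + Real.pi), (w t) ^ 2 ≤ ∫ t in a..(a + Real.pi), (w' t) ^ 2 := by
  have hpi := Real.pi_pos
  have hwc : Continuous w := continuous_iff_continuousAt.2 fun t => (hd t).continuousAt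
  have hle : a ≤ a + Real.pi := by linarith
  have hcos : ∀ t ∈ Set.uIcc a (a + Real.pi), Real.cos (l * (a + Real.pi / 2 - t)) ≠ 0 := by
    intro t ht
    rw [Set.uIcc_of_le hle] at ht
    obtain ⟨h2, h3⟩ := ht
    apply ne_of_gt
    apply Real.cos_pos_of_mem_Ioo
    constructor
    · nlinarith
    · nlinarith
  have hderiv : ∀ t ∈ Set.uIcc a (a + Real.pi),
      HasDerivAt (fun t => l * Real.tan (l * (a + Real.pi / 2 - t)) * (w t) ^ 2)
        (2 * (l * Real.tan (l * (a + Real.pi / 2 - t))) * w t * w' t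
          - (l ^ 2 + (l * Real.tan (l * (a + Real.pi / 2 - t))) ^ 2) * (w t) ^ 2) t := by
    intro t ht
    have hc := hcos t ht
    have e1 : HasDerivAt (fun t : ℝ => l * (a + Real.pi / 2 - t)) (-l) t := by
      have := ((hasDerivAt_id t).const_sub (a + Real.pi / 2)).const_mul l
      simpa using this
    have e2 := (Real.hasDerivAt_tan hc).comp t e1
    have e3 := (e2.const_mul l).mul ((hd t).pow 2)
    refine e3.congr_deriv ?_
    have key : 1 / Real.cos (l * (a + Real.pi / 2 - t)) ^ 2
        = 1 + Real.tan (l * (a + Real.pi / 2 - t)) ^ 2 := by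
      have hs := Real.sin_sq_add_cos_sq (l * (a + Real.pi / 2 - t))
      rw [Real.tan_eq_sin_div_cos]
      generalize Real.cos (l * (a + Real.pi / 2 - t)) = c at *
      generalize Real.sin (l * (a + Real.pi / 2 - t)) = d at *
      field_simp
      linarith
    rw [key]
    simp only [Function.comp, Pi.pow_apply]
    push_cast
    ring
  have hcontphi : ContinuousOn (fun t => l * Real.tan (l * (a + Real.pi / 2 - t)))
      (Set.uIcc a (a + Real.pi)) := by
    refine ContinuousOn.mul continuousOn_const ?_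
    intro t ht
    have hc := hcos t ht
    exact ((Real.continuousAt_tan.2 hc).comp
      (f := fun t : ℝ => l * (a + Real.pi / 2 - t)) (by fun_prop)).continuousWithinAt
  have hint1 : ContinuousOn (fun t => 2 * (l * Real.tan (l * (a + Real.pi / 2 - t))) * w t * w' t
          - (l ^ 2 + (l * Real.tan (l * (a + Real.pi / 2 - t))) ^ 2) * (w t) ^ 2)
          (Set.uIcc a (a + Real.pi)) := by
    refine ContinuousOn.sub ?_ ?_
    · exact ((continuousOn_const.mul hcontphi).mul hwc.continuousOn).mul hw'.continuousOn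
    · exact (continuousOn_const.add (hcontphi.pow 2)).mul (hwc.continuousOn.pow 2)
  have hftc := intervalIntegral.integral_eq_sub_of_hasDerivAt hderiv hint1.intervalIntegrable
  rw [h0, h1] at hftc
  have hI1 : IntervalIntegrable (fun t => (w t) ^ 2) volume a (a + Real.pi) :=
    (hwc.pow 2).intervalIntegrable _ _
  have hI2 : IntervalIntegrable (fun t => (w' t) ^ 2) volume a (a + Real.pi) :=
    (hw'.pow 2).intervalIntegrable _ _
  have hkey : 0 ≤ ∫ t in a..(a + Real.pi), ((w' t) ^ 2 - l ^ 2 * (w t) ^ 2 -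
      (2 * (l * Real.tan (l * (a + Real.pi / 2 - t))) * w t * w' t
          - (l ^ 2 + (l * Real.tan (l * (a + Real.pi / 2 - t))) ^ 2) * (w t) ^ 2)) := by
    apply intervalIntegral.integral_nonneg hle
    intro t ht
    nlinarith [sq_nonneg (w' t - l * Real.tan (l * (a + Real.pi / 2 - t)) * w t)]
  rw [intervalIntegral.integral_sub (hI2.sub (hI1.const_mul _)) hint1.intervalIntegrable, hftc,
    intervalIntegral.integral_sub hI2 (hI1.const_mul _),
    intervalIntegral.integral_const_mul] at hkey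
  simp at hkey
  linarith

theorem wirt1 (w w' : ℝ → ℝ) (hw' : Continuous w') (hd : ∀ t, HasDerivAt w (w' t) t)
    (ha : ∀ t, w (t + Real.pi) = - w t) :
    ∫ t in (0:ℝ)..(2 * Real.pi), (w t) ^ 2 ≤ ∫ t in (0:ℝ)..(2 * Real.pi), (w' t) ^ 2 := by
  have hpi := Real.pi_pos
  have hwc : Continuous w := continuous_iff_continuousAt.2 fun t => (hd t).continuousAt
  have ha' : ∀ t, w' (t + Real.pi) = - w' t := by
    intro t
    have e1 : HasDerivAt (fun s => w (s + Real.pi)) (w' (t + Real.pi)) t := by
      have := (hd (t + Real.pi)).comp_add_const t Real.pi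
      simpa using this
    have e2 : HasDerivAt (fun s => w (s + Real.pi)) (-(w' t)) t := by
      have : (fun s => w (s + Real.pi)) = fun s => - w s := funext ha
      rw [this]
      exact (hd t).neg
    exact e1.unique e2
  obtain ⟨s, hs⟩ : ∃ s, w s = 0 := by
    have h1 : w Real.pi = - w 0 := by simpa using ha 0
    have h2 : (0:ℝ) ∈ Set.uIcc (w 0) (w Real.pi) := by
      rw [h1, Set.mem_uIcc]
      rcases le_total (w 0) 0 with h | h
      · left; constructor <;> linarith
      · right; constructor <;> linarith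
    obtain ⟨s, -, hs⟩ := intermediate_value_uIcc (hwc.continuousOn (s := Set.uIcc 0 Real.pi)) h2
    exact ⟨s, hs⟩
  have hs2 : w (s + Real.pi) = 0 := by rw [ha, hs]; simp
  have hp1 : Function.Periodic (fun t => (w t) ^ 2) Real.pi := by
    intro t; simp only [ha]; ring
  have hp2 : Function.Periodic (fun t => (w' t) ^ 2) Real.pi := by
    intro t; simp only [ha']; ring
  have hgen : ∀ f : ℝ → ℝ, Continuous f → Function.Periodic f Real.pi →
      ∫ t in (0:ℝ)..(2 * Real.pi), f t = 2 * ∫ t in s..(s + Real.pi), f t := by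
    intro f hf hp
    have e1 : ∫ t in (0:ℝ)..(2 * Real.pi), f t
        = (∫ t in (0:ℝ)..Real.pi, f t) + ∫ t in Real.pi..(2 * Real.pi), f t :=
      (intervalIntegral.integral_add_adjacent_intervals (hf.intervalIntegrable _ _)
        (hf.intervalIntegrable _ _)).symm
    have e2 := hp.intervalIntegral_add_eq 0 s
    have e3 := hp.intervalIntegral_add_eq Real.pi s
    rw [zero_add] at e2
    have e4 : Real.pi + Real.pi = 2 * Real.pi := by ring
    rw [e4] at e3
    rw [e1, e2, e3]; ring
  rw [hgen (fun t => (w t) ^ 2) (hwc.pow 2) hp1, hgen (fun t => (w' t) ^ 2) (hw'.pow 2) hp2]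
  have hmain : ∀ l : ℝ, 0 < l → l < 1 →
      l ^ 2 * ∫ t in s..(s + Real.pi), (w t) ^ 2 ≤ ∫ t in s..(s + Real.pi), (w' t) ^ 2 :=
    fun l h0 h1 => wirt1_aux w w' hw' hd s hs hs2 l h0 h1
  have hlim : Tendsto (fun l : ℝ => l ^ 2 * ∫ t in s..(s + Real.pi), (w t) ^ 2) (𝓝[<] 1)
      (𝓝 (1 ^ 2 * ∫ t in s..(s + Real.pi), (w t) ^ 2)) := by
    apply tendsto_nhdsWithin_of_tendsto_nhds
    exact (Continuous.tendsto (by fun_prop) 1)
  have hfin := le_of_tendsto hlim (b := ∫ t in s..(s + Real.pi), (w' t) ^ 2) (by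
    have : Set.Ioo (0:ℝ) 1 ∈ 𝓝[<] (1:ℝ) := Ioo_mem_nhdsLT (by norm_num)
    filter_upwards [this] with l hl
    exact hmain l hl.1 hl.2)
  simp only [one_pow, one_mul] at hfin
  linarith

end Pool.Agent.Helper584.PG
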