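import Pool.Agent.Helper584.PG.Defs
import Pool.Agent.Helper584.PG.P_fr_basic
import Pool.Agent.Helper584.PG.P_r_alg
import Pool.Agent.Helper584.PG.P_orbit_avg
import Pool.Agent.Helper584.PG.P_wirt1

set_option autoImplicit false

open MeasureTheory Set Filter Topology

noncomputable section

namespace Pool.Agent.Helper584.PG



theorem wirtG (μ : Measure T) (hμ : IsFM μ) (W W' : T → ℝ) (hW : Continuous W) (hW' : Continuous W')
    (hd : ∀ g ∈ Fr, ∀ t : ℝ, HasDerivAt (fun s => W (rX s g)) (W' (rX t g)) t)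
    (ha : ∀ g ∈ Fr, W (rX Real.pi g) = - W g) :
    ∫ g, (W g) ^ 2 ∂μ ≤ ∫ g, (W' g) ^ 2 ∂μ := by
  obtain ⟨hcomp, hXm, -, -, hXc, -, -, -⟩ := fr_basic
  obtain ⟨hadd, -, -, -⟩ := r_alg
  have hb : ∀ F : T → ℝ, Continuous F → ∃ B : ℝ, ∀ g ∈ Fr, |(F g) ^ 2| ≤ B := by
    intro F hF
    obtain ⟨B, hB⟩ := hcomp.exists_bound_of_continuousOn (f := fun g => (F g) ^ 2)
      ((hF.pow 2).continuousOn)
    exact ⟨B, fun g hg => by simpa [Real.norm_eq_abs] using hB g hg⟩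
  obtain ⟨B1, hB1⟩ := hb W hW
  obtain ⟨B2, hB2⟩ := hb W' hW'
  obtain ⟨-, i1, e1⟩ := orbit_avg μ hμ (fun g => (W g) ^ 2) ((hW.pow 2).measurable) B1 hB1
  obtain ⟨-, i2, e2⟩ := orbit_avg μ hμ (fun g => (W' g) ^ 2) ((hW'.pow 2).measurable) B2 hB2
  have hle : ∫ g, (∫ t in (0:ℝ)..(2 * Real.pi), (W (rX t g)) ^ 2) ∂μ ≤
      ∫ g, (∫ t in (0:ℝ)..(2 * Real.pi), (W' (rX t g)) ^ 2) ∂μ := by
    apply integral_mono_ae i1 i2
    have hae : ∀ᵐ g ∂μ, g ∈ Fr := by
      rw [ae_iff]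
      exact hμ.supp
    filter_upwards [hae] with g hg
    have hc0 : Continuous (fun t : ℝ => ((t, g) : ℝ × T)) := Continuous.prodMk continuous_id continuous_const
    have hc1 : Continuous (fun t : ℝ => rX t g) := by
      have h3 := Continuous.comp hXc hc0
      simpa [Function.comp_def] using h3
    have hc2 : Continuous (fun t : ℝ => W' (rX t g)) := hW'.comp hc1
    have hd1 : ∀ t, HasDerivAt (fun t => W (rX t g)) ((fun t => W' (rX t g)) t) t := fun t => hd g hg t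
    refine wirt1 (fun t => W (rX t g)) (fun t => W' (rX t g)) hc2 hd1 ?_
    · intro t
      have h1 : rX (t + Real.pi) g = rX Real.pi (rX t g) := by
        rw [hadd Real.pi t g, add_comm Real.pi t]
      show W (rX (t + Real.pi) g) = - W (rX t g)
      rw [h1, ha (rX t g) (hXm t g hg)]
  have hle2 : 2 * Real.pi * ∫ g, (W g) ^ 2 ∂μ ≤ 2 * Real.pi * ∫ g, (W' g) ^ 2 ∂μ := by
    calc 2 * Real.pi * ∫ g, (W g) ^ 2 ∂μ = _ := e1.symm
      _ ≤ _ := hle
      _ = _ := e2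
  exact le_of_mul_le_mul_left hle2 (by positivity)

end Pool.Agent.Helper584.PG
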