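import Pool.Agent.Helper584.PG.Defs
import Pool.Agent.Helper584.PG.P_fr_basic
import Pool.Agent.Helper584.PG.P_r_alg
import Pool.Agent.Helper584.PG.P_cont_D
import Pool.Agent.Helper584.PG.P_conj_rel
import Pool.Agent.Helper584.PG.P_pestov
import Pool.Agent.Helper584.PG.P_wirtG
import Pool.Agent.Helper584.PG.P_antiW
import Pool.Agent.Helper584.PG.P_uex

set_option autoImplicit false

open MeasureTheory Set Filter Topology

noncomputable section

namespace Pool.Agent.Helper584.PG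



theorem energyC2 (μ : Measure T) (hμ : IsFM μ) (F : T → ℝ) (hF : ContDiff ℝ 2 F)
    (hz : ∀ g ∈ Fr, ∫ t in (0:ℝ)..(2 * Real.pi), F (rX t g) = 0)
    (he : ∀ g ∈ Fr, F (rX Real.pi g) = F g) :
    ∫ g, (F g) ^ 2 ∂μ ≤ ∫ g, (DV F g) ^ 2 ∂μ := by
  have hF1 : ContDiff ℝ 1 F := hF.of_le (by norm_num)
  obtain ⟨u, hu, hud, hue⟩ := uex F hF1 hz he
  have hcu := cont_D.1 u hu
  have hcF := cont_D.1 F hF1
  have h1 := wirtG μ hμ (DV u) (fun g => DV F g - DH u g) hcu.2.1 (hcF.2.1.sub hcu.2.2)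
    (fun g hg t => (conj_rel u F hu hF1 hud g hg t).1) (antiW u hu hue)
  have h2 := pestov μ hμ u F hu hF hud
  linarith

end Pool.Agent.Helper584.PG
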