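import Pool.Agent.Helper584.PG.Defs
import Pool.Agent.Helper584.PG.P_fr_basic
import Pool.Agent.Helper584.PG.P_r_alg
import Pool.Agent.Helper584.PG.P_r_deriv

set_option autoImplicit false

open MeasureTheory Set Filter Topology

noncomputable section

namespace Pool.Agent.Helper584.PG



theorem mol_shift_gen (μ : Measure T) (n : ℝ) (F : T → ℝ) (hF : Measurable F) (R : T → T)
    (hR : Continuous R) (hinv : Measure.map R μ = μ) (g : T)
    (hip : ∀ h : T, ip (R g) (R h) = ip g h) :
    mol μ n F (R g) = mol μ n (fun h => F (R h)) g := by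
  unfold mol
  have hc : Continuous (fun h : T => ip (R g) h) := by
    unfold ip
    fun_prop
  have hm : Measurable (fun h : T => Real.exp (n * ip (R g) h) * F h) :=
    ((Real.continuous_exp.comp (continuous_const.mul hc)).measurable).mul hF
  have h1 : ∫ h, Real.exp (n * ip (R g) h) * F h ∂(Measure.map R μ)
      = ∫ h, Real.exp (n * ip (R g) (R h)) * F (R h) ∂μ :=
    integral_map hR.measurable.aemeasurable hm.aestronglyMeasurable
  rw [hinv] at h1
  rw [h1]
  simp only [hip]

theorem mol_shift (μ : Measure T) (hμ : IsFM μ) (n : ℝ) (F : T → ℝ) (hF : Measurable F) :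
    (∀ (t : ℝ) (g : T), mol μ n F (rX t g) = mol μ n (fun h => F (rX t h)) g) ∧
    (∀ (t : ℝ) (g : T), mol μ n F (rV t g) = mol μ n (fun h => F (rV t h)) g) := by
  obtain ⟨-, -, -, -, cX, cV, -, -⟩ := fr_basic
  obtain ⟨aX1, aV1, -, aX0, aV0, -⟩ := r_alg
  obtain ⟨-, -, -, -, -, -, dX, dV, -⟩ := r_deriv
  constructor
  · intro t g
    apply mol_shift_gen μ n F hF (rX t) _ (hμ.invX t) g
    · intro h
      rw [dX, aX1, neg_add_cancel, aX0]
    · have h1 : Continuous (fun g : T => ((t, g) : ℝ × T)) := by fun_prop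
      have h2 := Continuous.comp (g := fun p : ℝ × T => rX p.1 p.2)
        (f := fun g : T => ((t, g) : ℝ × T)) cX h1
      simp only [Function.comp_def] at h2
      exact h2
  · intro t g
    apply mol_shift_gen μ n F hF (rV t) _ (hμ.invV t) g
    · intro h
      rw [dV, aV1, neg_add_cancel, aV0]
    · have h1 : Continuous (fun g : T => ((t, g) : ℝ × T)) := by fun_prop
      have h2 := Continuous.comp (g := fun p : ℝ × T => rV p.1 p.2)
        (f := fun g : T => ((t, g) : ℝ × T)) cV h1
      simp only [Function.comp_def] at h2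
      exact h2

end Pool.Agent.Helper584.PG
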