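import Pool.Agent.Helper584.PG.Defs
import Pool.Agent.Helper584.PG.P_fr_basic

set_option autoImplicit false

open MeasureTheory Set Filter Topology

noncomputable section

namespace Pool.Agent.Helper584.PG



/-- the functional `g ↦ ip g h` -/
def mol_smooth_L (h : T) : T →L[ℝ] ℝ :=
  (innerSL ℝ h.1).comp (ContinuousLinearMap.fst ℝ E (E × E)) +
  (innerSL ℝ h.2.1).comp ((ContinuousLinearMap.fst ℝ E E).comp (ContinuousLinearMap.snd ℝ E (E × E))) +
  (innerSL ℝ h.2.2).comp ((ContinuousLinearMap.snd ℝ E E).comp (ContinuousLinearMap.snd ℝ E (E × E)))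

theorem mol_smooth_L_apply (g h : T) : mol_smooth_L h g = ip g h := by
  unfold mol_smooth_L ip
  simp only [ContinuousLinearMap.add_apply, ContinuousLinearMap.comp_apply,
    ContinuousLinearMap.coe_fst', ContinuousLinearMap.coe_snd', innerSL_apply_apply]
  rw [real_inner_comm, real_inner_comm g.2.1, real_inner_comm g.2.2]

theorem mol_smooth_L_cont : Continuous mol_smooth_L := by
  unfold mol_smooth_L
  refine Continuous.add (Continuous.add ?_ ?_) ?_
  · exact ((innerSL ℝ).continuous.comp continuous_fst).clm_comp continuous_const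
  · exact ((innerSL ℝ).continuous.comp (continuous_fst.comp continuous_snd)).clm_comp
      continuous_const
  · exact ((innerSL ℝ).continuous.comp (continuous_snd.comp continuous_snd)).clm_comp
      continuous_const

theorem mol_smooth_ip (g h : T) (hh : h ∈ Fr) : |ip g h| ≤ 3 * ‖g‖ := by
  obtain ⟨h1, h2, h3, -, -, -⟩ := hh
  unfold ip
  have e1 : |inner ℝ g.1 h.1| ≤ ‖g‖ := by
    refine (abs_real_inner_le_norm _ _).trans ?_
    rw [h1, mul_one]
    exact norm_fst_le g
  have e2 : |inner ℝ g.2.1 h.2.1| ≤ ‖g‖ := by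
    refine (abs_real_inner_le_norm _ _).trans ?_
    rw [h2, mul_one]
    exact (norm_fst_le g.2).trans (norm_snd_le g)
  have e3 : |inner ℝ g.2.2 h.2.2| ≤ ‖g‖ := by
    refine (abs_real_inner_le_norm _ _).trans ?_
    rw [h3, mul_one]
    exact (norm_snd_le g.2).trans (norm_snd_le g)
  calc |inner ℝ g.1 h.1 + inner ℝ g.2.1 h.2.1 + inner ℝ g.2.2 h.2.2|
      ≤ |inner ℝ g.1 h.1 + inner ℝ g.2.1 h.2.1| + |inner ℝ g.2.2 h.2.2| := abs_add_le _ _
    _ ≤ |inner ℝ g.1 h.1| + |inner ℝ g.2.1 h.2.1| + |inner ℝ g.2.2 h.2.2| :=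
        add_le_add_left (abs_add_le _ _) _
    _ ≤ 3 * ‖g‖ := by linarith

theorem mol_smooth_L_norm (h : T) (hh : h ∈ Fr) : ‖mol_smooth_L h‖ ≤ 3 := by
  refine ContinuousLinearMap.opNorm_le_bound _ (by norm_num) fun g => ?_
  rw [mol_smooth_L_apply, Real.norm_eq_abs]
  exact mol_smooth_ip g h hh

theorem mol_smooth_ip_cont (g : T) : Continuous (fun h => ip g h) := by
  unfold ip
  fun_prop

theorem mol_smooth_deriv (μ : Measure T) [IsProbabilityMeasure μ] (hs : ∀ᵐ h ∂μ, h ∈ Fr) (n : ℝ)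
    {W : Type} [NormedAddCommGroup W] [NormedSpace ℝ W] (Φ : T → W)
    (hΦ : AEStronglyMeasurable Φ μ) (C : ℝ) (hC : ∀ᵐ h ∂μ, ‖Φ h‖ ≤ C) (g : T) :
    HasFDerivAt (fun g => ∫ h, Real.exp (n * ip g h) • Φ h ∂μ)
      (∫ h, Real.exp (n * ip g h) • (ContinuousLinearMap.smulRight (n • mol_smooth_L h) (Φ h)) ∂μ)
      g := by
  have hC0 : 0 ≤ C := by
    obtain ⟨h, hh⟩ := hC.exists
    exact (norm_nonneg _).trans hh
  have hexp : ∀ g : T, AEStronglyMeasurable (fun h => Real.exp (n * ip g h)) μ := fun g =>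
    (Real.continuous_exp.comp (continuous_const.mul (mol_smooth_ip_cont g))).aestronglyMeasurable
  have hbd : ∀ x ∈ Metric.ball g 1, ∀ h ∈ Fr,
      Real.exp (n * ip x h) ≤ Real.exp (|n| * (3 * (‖g‖ + 1))) := by
    intro x hx h hh
    apply Real.exp_le_exp.2
    have h1 : ‖x‖ ≤ ‖g‖ + 1 := by
      rw [Metric.mem_ball, dist_eq_norm] at hx
      have : ‖x‖ ≤ ‖x - g‖ + ‖g‖ := by
        simpa using norm_add_le (x - g) g
      linarith
    calc n * ip x h ≤ |n * ip x h| := le_abs_self _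
      _ = |n| * |ip x h| := abs_mul _ _
      _ ≤ |n| * (3 * (‖g‖ + 1)) := by
        apply mul_le_mul_of_nonneg_left _ (abs_nonneg _)
        exact (mol_smooth_ip x h hh).trans (by linarith)
  refine hasFDerivAt_integral_of_dominated_of_fderiv_le (𝕜 := ℝ) (s := Metric.ball g 1)
    (F' := fun g h => Real.exp (n * ip g h) •
      (ContinuousLinearMap.smulRight (n • mol_smooth_L h) (Φ h)))
    (Metric.ball_mem_nhds g one_pos)
    (bound := fun _ => Real.exp (|n| * (3 * (‖g‖ + 1))) * (|n| * 3 * C)) ?_ ?_ ?_ ?_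
    (integrable_const _) ?_
  · exact Eventually.of_forall fun x => (hexp x).smul hΦ
  · refine Integrable.mono' (integrable_const (Real.exp (|n| * (3 * (‖g‖ + 1))) * C))
      ((hexp g).smul hΦ) ?_
    filter_upwards [hs, hC] with h h1 h2
    rw [norm_smul, Real.norm_eq_abs, Real.abs_exp]
    exact mul_le_mul (hbd g (Metric.mem_ball_self one_pos) h h1) h2 (norm_nonneg _)
      (Real.exp_pos _).le
  · refine (hexp g).smul ?_
    have h1 : AEStronglyMeasurable (fun h => n • mol_smooth_L h) μ :=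
      (mol_smooth_L_cont.const_smul n).aestronglyMeasurable
    exact (ContinuousLinearMap.smulRightL ℝ T W).aestronglyMeasurable_comp₂ h1 hΦ
  · filter_upwards [hs, hC] with h h1 h2 x hx
    rw [norm_smul, Real.norm_eq_abs, Real.abs_exp, ContinuousLinearMap.norm_smulRight_apply,
      norm_smul, Real.norm_eq_abs]
    refine mul_le_mul (hbd x hx h h1) ?_ (by positivity) (Real.exp_pos _).le
    refine mul_le_mul ?_ h2 (norm_nonneg _) (by positivity)
    exact mul_le_mul_of_nonneg_left (mol_smooth_L_norm h h1) (abs_nonneg _)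
  · refine Eventually.of_forall fun h x _ => ?_
    have h1 : HasFDerivAt (fun g => n * ip g h) (n • mol_smooth_L h) x := by
      have h2 := (n • mol_smooth_L h).hasFDerivAt (x := x)
      refine h2.congr_of_eventuallyEq (Eventually.of_forall fun y => ?_)
      show n * ip y h = (n • mol_smooth_L h) y
      rw [ContinuousLinearMap.smul_apply, mol_smooth_L_apply, smul_eq_mul]
    have h3 := (h1.exp).smul_const (Φ h)
    convert h3 using 1
    refine ContinuousLinearMap.ext fun y => ?_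
    simp [smul_smul, mul_assoc]

theorem mol_smooth_gen (μ : Measure T) [IsProbabilityMeasure μ] (hs : ∀ᵐ h ∂μ, h ∈ Fr) (n : ℝ)
    (m : ℕ) : ∀ (W : Type) [NormedAddCommGroup W] [NormedSpace ℝ W] (Φ : T → W)
    (_ : AEStronglyMeasurable Φ μ) (C : ℝ) (_ : ∀ᵐ h ∂μ, ‖Φ h‖ ≤ C),
    ContDiff ℝ m (fun g => ∫ h, Real.exp (n * ip g h) • Φ h ∂μ) := by
  induction m with
  | zero =>
    intro W _ _ Φ hΦ C hC
    rw [Nat.cast_zero, contDiff_zero]
    exact continuous_iff_continuousAt.2 fun g =>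
      (mol_smooth_deriv μ hs n Φ hΦ C hC g).continuousAt
  | succ m ih =>
    intro W _ _ Φ hΦ C hC
    rw [Nat.cast_succ, contDiff_succ_iff_hasFDerivAt]
    refine ⟨fun g => ∫ h, Real.exp (n * ip g h) •
      (ContinuousLinearMap.smulRight (n • mol_smooth_L h) (Φ h)) ∂μ, ?_,
      fun g => mol_smooth_deriv μ hs n Φ hΦ C hC g⟩
    refine ih (T →L[ℝ] W) (fun h => ContinuousLinearMap.smulRight (n • mol_smooth_L h) (Φ h)) ?_
      (|n| * 3 * C) ?_
    · have h1 : AEStronglyMeasurable (fun h => n • mol_smooth_L h) μ :=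
        (mol_smooth_L_cont.const_smul n).aestronglyMeasurable
      exact (ContinuousLinearMap.smulRightL ℝ T W).aestronglyMeasurable_comp₂ h1 hΦ
    · filter_upwards [hs, hC] with h h1 h2
      rw [ContinuousLinearMap.norm_smulRight_apply, norm_smul, Real.norm_eq_abs]
      refine mul_le_mul ?_ h2 (norm_nonneg _) (by positivity)
      exact mul_le_mul_of_nonneg_left (mol_smooth_L_norm h h1) (abs_nonneg _)

theorem mol_smooth (μ : Measure T) (hμ : IsFM μ) (n : ℝ) (F : T → ℝ) (hF : Measurable F) (B : ℝ)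
    (hB : ∀ g ∈ Fr, |F g| ≤ B) : ContDiff ℝ 2 (mol μ n F) := by
  haveI := hμ.prob
  have hs : ∀ᵐ h ∂μ, h ∈ Fr := by
    rw [ae_iff]
    exact hμ.supp
  have h1 := mol_smooth_gen μ hs n 2 ℝ F hF.aestronglyMeasurable B (by
    filter_upwards [hs] with h hh
    exact hB h hh)
  exact h1

end Pool.Agent.Helper584.PG
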