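import Pool.Agent.Helper584.PG.Defs
import Pool.Agent.Helper584.PG.P_fr_basic
import Pool.Agent.Helper584.PG.P_r_alg
import Pool.Agent.Helper584.PG.P_flow_D
import Pool.Agent.Helper584.PG.P_mol_smooth
import Pool.Agent.Helper584.PG.P_mol_shift

set_option autoImplicit false

open MeasureTheory Set Filter Topology

noncomputable section

namespace Pool.Agent.Helper584.PG



theorem mol_DV_ip_cont (g : T) : Continuous (fun h : T => ip g h) := by
  unfold ip
  fun_prop

theorem mol_DV (μ : Measure T) (hμ : IsFM μ) (n : ℝ) (F VF : T → ℝ) (hF : Measurable F)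
    (hVF : Measurable VF) (B : ℝ) (hB : ∀ g ∈ Fr, |F g| ≤ B) (hB' : ∀ g ∈ Fr, |VF g| ≤ B)
    (hd : ∀ g ∈ Fr, ∀ t : ℝ, HasDerivAt (fun s => F (rV s g)) (VF (rV t g)) t) (g : T) :
    DV (mol μ n F) g = mol μ n VF g := by
  haveI := hμ.prob
  have hae : ∀ᵐ h ∂μ, h ∈ Fr := by
    rw [ae_iff]
    exact hμ.supp
  have hr0 : ∀ h : T, rV 0 h = h := r_alg.2.2.2.2.1
  have he : Continuous (fun h : T => Real.exp (n * ip g h)) :=
    Real.continuous_exp.comp (continuous_const.mul (mol_DV_ip_cont g))
  obtain ⟨C, hC⟩ := fr_basic.1.exists_bound_of_continuousOn he.continuousOn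
  have hB0 : 0 ≤ B := le_trans (abs_nonneg _) (hB e0 fr_basic.2.2.2.2.2.2.2)
  have hC0 : 0 ≤ C := le_trans (norm_nonneg _) (hC e0 fr_basic.2.2.2.2.2.2.2)
  have hrc : ∀ s : ℝ, Continuous (rV s) := fun s =>
    fr_basic.2.2.2.2.2.1.comp (Continuous.prodMk continuous_const continuous_id)
  have hFm : ∀ s : ℝ, AEStronglyMeasurable (fun h => Real.exp (n * ip g h) * F (rV s h)) μ :=
    fun s => (he.measurable.mul (hF.comp (hrc s).measurable)).aestronglyMeasurable
  have hVm : ∀ s : ℝ, AEStronglyMeasurable (fun h => Real.exp (n * ip g h) * VF (rV s h)) μ :=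
    fun s => (he.measurable.mul (hVF.comp (hrc s).measurable)).aestronglyMeasurable
  have hint : Integrable (fun h => Real.exp (n * ip g h) * F (rV 0 h)) μ := by
    refine Integrable.of_bound (hFm 0) (C * B) ?_
    filter_upwards [hae] with h hh
    rw [norm_mul]
    refine mul_le_mul (hC h hh) ?_ (norm_nonneg _) hC0
    rw [hr0, Real.norm_eq_abs]
    exact hB h hh
  have key := (hasDerivAt_integral_of_dominated_loc_of_deriv_le (μ := μ) (x₀ := (0 : ℝ))
    (s := Set.univ)
    (F := fun (s : ℝ) (h : T) => Real.exp (n * ip g h) * F (rV s h))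
    (F' := fun (s : ℝ) (h : T) => Real.exp (n * ip g h) * VF (rV s h))
    (bound := fun _ => C * B) Filter.univ_mem
    (Filter.Eventually.of_forall hFm) hint (hVm 0)
    (by
      filter_upwards [hae] with h hh
      intro s _
      rw [norm_mul]
      refine mul_le_mul (hC h hh) ?_ (norm_nonneg _) hC0
      rw [Real.norm_eq_abs]
      exact hB' _ (fr_basic.2.2.1 s h hh))
    (integrable_const _)
    (by
      filter_upwards [hae] with h hh
      intro s _
      exact (hd h hh s).const_mul _)).2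
  have hsm : ContDiff ℝ 1 (mol μ n F) := (mol_smooth μ hμ n F hF B hB).of_le (by norm_num)
  have h1 := (flow_D (mol μ n F) hsm g 0).2.1
  rw [hr0] at h1
  have h2 : (fun s : ℝ => mol μ n F (rV s g)) =
      fun s : ℝ => ∫ h, Real.exp (n * ip g h) * F (rV s h) ∂μ := by
    funext s
    rw [(mol_shift μ hμ n F hF).2 s g]
    rfl
  rw [h2] at h1
  have h3 := h1.unique key
  rw [h3]
  simp only [hr0]
  rfl

end Pool.Agent.Helper584.PG
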