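import Pool.Agent.Helper584.PG.Defs
import Pool.Agent.Helper584.PG.P_fr_basic
import Pool.Agent.Helper584.PG.P_r_deriv

set_option autoImplicit false

open MeasureTheory Set Filter Topology

noncomputable section

namespace Pool.Agent.Helper584.PG



theorem zn_ip_bound {g h : T} (hg : g ∈ Fr) (hh : h ∈ Fr) : |ip g h| ≤ 3 := by
  obtain ⟨g1, g2, g3, -, -, -⟩ := hg
  obtain ⟨h1, h2, h3, -, -, -⟩ := hh
  have a1 := abs_real_inner_le_norm g.1 h.1
  have a2 := abs_real_inner_le_norm g.2.1 h.2.1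
  have a3 := abs_real_inner_le_norm g.2.2 h.2.2
  rw [g1, h1, mul_one] at a1
  rw [g2, h2, mul_one] at a2
  rw [g3, h3, mul_one] at a3
  rw [ip]
  rw [abs_le] at a1 a2 a3 ⊢
  constructor <;> linarith [a1.1, a1.2, a2.1, a2.2, a3.1, a3.2]

theorem zn_ip_cont (g : T) : Continuous (fun h : T => ip g h) := by
  unfold ip
  fun_prop

theorem zn_facts (μ : Measure T) (hμ : IsFM μ) (n : ℝ) : 0 < zn μ n ∧
    (∀ g ∈ Fr, ∫ h, Real.exp (n * ip g h) ∂μ = zn μ n) ∧
    (∀ g ∈ Fr, ∫ h, Real.exp (n * ip h g) ∂μ = zn μ n) := by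
  haveI := hμ.prob
  have he0 : e0 ∈ Fr := fr_basic.2.2.2.2.2.2.2
  have hae : ∀ᵐ h ∂μ, h ∈ Fr := by
    rw [ae_iff]
    exact hμ.supp
  have h2 : ∀ g ∈ Fr, ∫ h, Real.exp (n * ip g h) ∂μ = zn μ n := by
    intro g hg
    exact hμ.ker (fun x => Real.exp (n * x)) (by fun_prop) g hg e0 he0
  have hcont : Continuous (fun h : T => Real.exp (n * ip e0 h)) :=
    Real.continuous_exp.comp (continuous_const.mul (zn_ip_cont e0))
  have hb : ∀ h ∈ Fr, |n * ip e0 h| ≤ |n| * 3 := by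
    intro h hh
    rw [abs_mul]
    exact mul_le_mul_of_nonneg_left (zn_ip_bound he0 hh) (abs_nonneg n)
  have hint : Integrable (fun h : T => Real.exp (n * ip e0 h)) μ := by
    refine Integrable.of_bound hcont.aestronglyMeasurable (Real.exp (|n| * 3)) ?_
    filter_upwards [hae] with h hh
    rw [Real.norm_eq_abs, Real.abs_exp]
    exact Real.exp_le_exp.2 (le_trans (le_abs_self _) (hb h hh))
  have h1 : 0 < zn μ n := by
    have h3 : ∫ _h : T, Real.exp (-(|n| * 3)) ∂μ ≤ zn μ n := by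
      apply integral_mono_ae (integrable_const _) hint
      filter_upwards [hae] with h hh
      exact Real.exp_le_exp.2 (abs_le.1 (hb h hh)).1
    have h4 : ∫ _h : T, Real.exp (-(|n| * 3)) ∂μ = Real.exp (-(|n| * 3)) := by
      simp
    rw [h4] at h3
    exact lt_of_lt_of_le (Real.exp_pos _) h3
  refine ⟨h1, h2, ?_⟩
  intro g hg
  rw [← h2 g hg]
  congr 1
  ext h
  rw [r_deriv.2.2.2.2.2.2.2.2 h g]

end Pool.Agent.Helper584.PG
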