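import Pool.Agent.Helper584.PG.Defs
import Pool.Agent.Helper584.PG.P_fr_basic
import Pool.Agent.Helper584.PG.P_zn_facts

set_option autoImplicit false

open MeasureTheory Set Filter Topology

noncomputable section

namespace Pool.Agent.Helper584.PG



theorem mol_contr_ip (g h : T) (hg : g ∈ Fr) (hh : h ∈ Fr) : |ip g h| ≤ 3 := by
  obtain ⟨a1, a2, a3, -, -, -⟩ := hg
  obtain ⟨b1, b2, b3, -, -, -⟩ := hh
  have h1 := abs_real_inner_le_norm g.1 h.1
  have h2 := abs_real_inner_le_norm g.2.1 h.2.1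
  have h3 := abs_real_inner_le_norm g.2.2 h.2.2
  rw [a1, b1, mul_one] at h1
  rw [a2, b2, mul_one] at h2
  rw [a3, b3, mul_one] at h3
  unfold ip
  calc |inner ℝ g.1 h.1 + inner ℝ g.2.1 h.2.1 + inner ℝ g.2.2 h.2.2|
      ≤ |inner ℝ g.1 h.1 + inner ℝ g.2.1 h.2.1| + |inner ℝ g.2.2 h.2.2| := abs_add_le _ _
    _ ≤ |inner ℝ g.1 h.1| + |inner ℝ g.2.1 h.2.1| + |inner ℝ g.2.2 h.2.2| := by
        gcongr
        exact abs_add_le _ _
    _ ≤ 3 := by linarith

theorem mol_contr_cont : Continuous (fun p : T × T => ip p.1 p.2) := by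
  unfold ip
  fun_prop

theorem mol_contr_exp (n : ℝ) (g h : T) (hg : g ∈ Fr) (hh : h ∈ Fr) :
    Real.exp (n * ip g h) ≤ Real.exp (3 * |n|) := by
  apply Real.exp_le_exp.2
  have h1 := mol_contr_ip g h hg hh
  calc n * ip g h ≤ |n * ip g h| := le_abs_self _
    _ = |n| * |ip g h| := abs_mul _ _
    _ ≤ |n| * 3 := mul_le_mul_of_nonneg_left h1 (abs_nonneg n)
    _ = 3 * |n| := by ring

/-- Cauchy-Schwarz -/
theorem mol_contr_cs (μ : Measure T) (hμ : IsFM μ) (n : ℝ) (G : T → ℝ) (hG : Measurable G) (B : ℝ)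
    (hB : ∀ g ∈ Fr, |G g| ≤ B) (g : T) (hg : g ∈ Fr) :
    (mol μ n G g) ^ 2 ≤ zn μ n * ∫ h, Real.exp (n * ip g h) * (G h) ^ 2 ∂μ := by
  have := hμ.prob
  obtain ⟨hz, hz1, -⟩ := zn_facts μ hμ n
  have hae : ∀ᵐ h ∂μ, h ∈ Fr := hμ.supp
  have hmk : Measurable (fun h : T => Real.exp (n * ip g h)) := by
    have : Continuous (fun h : T => Real.exp (n * ip g h)) := by
      have h1 : Continuous (fun h : T => ip g h) :=
        mol_contr_cont.comp (continuous_const.prodMk continuous_id)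
      exact Real.continuous_exp.comp (continuous_const.mul h1)
    exact this.measurable
  have i1 : Integrable (fun h => Real.exp (n * ip g h)) μ := by
    apply Integrable.of_bound hmk.aestronglyMeasurable (Real.exp (3 * |n|))
    filter_upwards [hae] with h hh
    rw [Real.norm_eq_abs, abs_of_pos (Real.exp_pos _)]
    exact mol_contr_exp n g h hg hh
  have i2 : Integrable (fun h => Real.exp (n * ip g h) * G h) μ := by
    apply Integrable.of_bound (hmk.mul hG).aestronglyMeasurable (Real.exp (3 * |n|) * B)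
    filter_upwards [hae] with h hh
    show ‖Real.exp (n * ip g h) * G h‖ ≤ _
    rw [Real.norm_eq_abs, abs_mul, abs_of_pos (Real.exp_pos _)]
    exact mul_le_mul (mol_contr_exp n g h hg hh) (hB h hh) (abs_nonneg _) (Real.exp_pos _).le
  have i3 : Integrable (fun h => Real.exp (n * ip g h) * (G h) ^ 2) μ := by
    apply Integrable.of_bound (hmk.mul (hG.pow_const 2)).aestronglyMeasurable
      (Real.exp (3 * |n|) * B ^ 2)
    filter_upwards [hae] with h hh
    show ‖Real.exp (n * ip g h) * (G h) ^ 2‖ ≤ _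
    rw [Real.norm_eq_abs, abs_mul, abs_of_pos (Real.exp_pos _)]
    apply mul_le_mul (mol_contr_exp n g h hg hh) _ (abs_nonneg _) (Real.exp_pos _).le
    rw [abs_pow]
    exact pow_le_pow_left₀ (abs_nonneg _) (hB h hh) 2
  obtain ⟨A, hA⟩ : ∃ A, A = mol μ n G g := ⟨_, rfl⟩
  have key : 0 ≤ ∫ h, Real.exp (n * ip g h) * (A / zn μ n - G h) ^ 2 ∂μ :=
    integral_nonneg fun h => mul_nonneg (Real.exp_pos _).le (sq_nonneg _)
  have e1 : ∫ h, Real.exp (n * ip g h) * (A / zn μ n - G h) ^ 2 ∂μ =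
      (A / zn μ n) ^ 2 * ∫ h, Real.exp (n * ip g h) ∂μ -
      2 * (A / zn μ n) * ∫ h, Real.exp (n * ip g h) * G h ∂μ +
      ∫ h, Real.exp (n * ip g h) * (G h) ^ 2 ∂μ := by
    have j1 : Integrable (fun h => (A / zn μ n) ^ 2 * Real.exp (n * ip g h)) μ := i1.const_mul _
    have j2 : Integrable (fun h => 2 * (A / zn μ n) * (Real.exp (n * ip g h) * G h)) μ :=
      i2.const_mul _
    have j3 : Integrable (fun h => (A / zn μ n) ^ 2 * Real.exp (n * ip g h) -
      2 * (A / zn μ n) * (Real.exp (n * ip g h) * G h)) μ := j1.sub j2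
    rw [← integral_const_mul, ← integral_const_mul, ← integral_sub j1 j2, ← integral_add j3 i3]
    apply integral_congr_ae
    filter_upwards with h
    ring
  rw [e1, hz1 g hg] at key
  have e2 : ∫ h, Real.exp (n * ip g h) * G h ∂μ = A := hA.symm
  rw [e2] at key
  rw [← hA]
  have e3 : (A / zn μ n) ^ 2 * zn μ n - 2 * (A / zn μ n) * A = -(A ^ 2 / zn μ n) := by
    field_simp
    ring
  rw [e3] at key
  have e4 : A ^ 2 / zn μ n ≤ ∫ h, Real.exp (n * ip g h) * (G h) ^ 2 ∂μ := by linarith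
  rw [div_le_iff₀ hz] at e4
  linarith

theorem mol_contr (μ : Measure T) (hμ : IsFM μ) (n : ℝ) (G : T → ℝ) (hG : Measurable G) (B : ℝ)
    (hB : ∀ g ∈ Fr, |G g| ≤ B) :
    ∫ g, (mol μ n G g) ^ 2 ∂μ ≤ (zn μ n) ^ 2 * ∫ g, (G g) ^ 2 ∂μ := by
  have := hμ.prob
  obtain ⟨hz, hz1, hz2⟩ := zn_facts μ hμ n
  have hae : ∀ᵐ h ∂μ, h ∈ Fr := hμ.supp
  have hmk : Measurable (fun p : T × T => Real.exp (n * ip p.1 p.2)) := by
    have : Continuous (fun p : T × T => Real.exp (n * ip p.1 p.2)) :=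
      Real.continuous_exp.comp (continuous_const.mul mol_contr_cont)
    exact this.measurable
  have hae1 : ∀ᵐ p ∂(μ.prod μ), p.1 ∈ Fr := Measure.quasiMeasurePreserving_fst.ae hae
  have hae2 : ∀ᵐ p ∂(μ.prod μ), p.2 ∈ Fr := Measure.quasiMeasurePreserving_snd.ae hae
  have hint : Integrable (fun p : T × T => Real.exp (n * ip p.1 p.2) * (G p.2) ^ 2) (μ.prod μ) := by
    apply Integrable.of_bound (hmk.mul ((hG.comp measurable_snd).pow_const 2)).aestronglyMeasurable
      (Real.exp (3 * |n|) * B ^ 2)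
    filter_upwards [hae1, hae2] with p h1 h2
    show ‖Real.exp (n * ip p.1 p.2) * (G p.2) ^ 2‖ ≤ _
    rw [Real.norm_eq_abs, abs_mul, abs_of_pos (Real.exp_pos _)]
    apply mul_le_mul (mol_contr_exp n p.1 p.2 h1 h2) _ (abs_nonneg _) (Real.exp_pos _).le
    rw [abs_pow]
    exact pow_le_pow_left₀ (abs_nonneg _) (hB _ h2) 2
  have step1 : ∫ g, (mol μ n G g) ^ 2 ∂μ ≤
      ∫ g, zn μ n * ∫ h, Real.exp (n * ip g h) * (G h) ^ 2 ∂μ ∂μ := by
    apply integral_mono_of_nonneg
    · filter_upwards with g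
      exact sq_nonneg _
    · exact (hint.integral_prod_left).const_mul _
    · filter_upwards [hae] with g hg
      exact mol_contr_cs μ hμ n G hG B hB g hg
  refine step1.trans (le_of_eq ?_)
  rw [integral_const_mul, integral_integral_swap hint]
  have step2 : ∫ h, ∫ g, Real.exp (n * ip g h) * (G h) ^ 2 ∂μ ∂μ =
      ∫ h, zn μ n * (G h) ^ 2 ∂μ := by
    apply integral_congr_ae
    filter_upwards [hae] with h hh
    rw [integral_mul_const, hz2 h hh]
  rw [step2, integral_const_mul]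
  ring

end Pool.Agent.Helper584.PG
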