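import Pool.Agent.Helper584.PG.Defs
import Pool.Agent.Helper584.PG.P_fr_basic
import Pool.Agent.Helper584.PG.P_r_deriv

set_option autoImplicit false

open MeasureTheory Set Filter Topology

noncomputable section

namespace Pool.Agent.Helper584.PG



theorem mol_sym (μ : Measure T) (hμ : IsFM μ) (n : ℝ) (F G : T → ℝ) (hF : Measurable F)
    (hG : Measurable G) (B : ℝ) (hB : ∀ g ∈ Fr, |F g| ≤ B) (hB' : ∀ g ∈ Fr, |G g| ≤ B) :
    ∫ g, mol μ n F g * G g ∂μ = ∫ g, F g * mol μ n G g ∂μ := by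
  haveI := hμ.prob
  have hFr : ∀ᵐ g ∂μ, g ∈ Fr := by
    rw [ae_iff]
    exact hμ.supp
  have hipc : Continuous (fun p : T × T => ip p.1 p.2) := by
    unfold ip
    fun_prop
  have hmeas : Measurable (fun p : T × T => Real.exp (n * ip p.1 p.2) * F p.2 * G p.1) := by
    have h1 : Measurable (fun p : T × T => Real.exp (n * ip p.1 p.2)) :=
      (Real.continuous_exp.comp (continuous_const.mul hipc)).measurable
    exact (h1.mul (hF.comp measurable_snd)).mul (hG.comp measurable_fst)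
  have hip : ∀ g ∈ Fr, ∀ h ∈ Fr, |ip g h| ≤ 3 := by
    intro g hg h hh
    obtain ⟨a1, a2, a3, _⟩ := hg
    obtain ⟨b1, b2, b3, _⟩ := hh
    have h1 := abs_real_inner_le_norm g.1 h.1
    have h2 := abs_real_inner_le_norm g.2.1 h.2.1
    have h3 := abs_real_inner_le_norm g.2.2 h.2.2
    rw [a1, b1, mul_one] at h1
    rw [a2, b2, mul_one] at h2
    rw [a3, b3, mul_one] at h3
    unfold ip
    rw [abs_le] at h1 h2 h3 ⊢
    constructor <;> linarith [h1.1, h1.2, h2.1, h2.2, h3.1, h3.2]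
  have hae : ∀ᵐ p ∂(μ.prod μ), ‖Real.exp (n * ip p.1 p.2) * F p.2 * G p.1‖ ≤
      Real.exp (|n| * 3) * B * B := by
    have h1 := Measure.quasiMeasurePreserving_fst (μ := μ) (ν := μ) |>.ae hFr
    have h2 := Measure.quasiMeasurePreserving_snd (μ := μ) (ν := μ) |>.ae hFr
    filter_upwards [h1, h2] with p hp1 hp2
    rw [norm_mul, norm_mul, Real.norm_eq_abs, Real.norm_eq_abs, Real.norm_eq_abs,
      abs_of_pos (Real.exp_pos _)]
    have hB0 : 0 ≤ B := (abs_nonneg _).trans (hB _ hp2)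
    have h3 : Real.exp (n * ip p.1 p.2) ≤ Real.exp (|n| * 3) := by
      apply Real.exp_le_exp.2
      calc n * ip p.1 p.2 ≤ |n * ip p.1 p.2| := le_abs_self _
        _ = |n| * |ip p.1 p.2| := abs_mul _ _
        _ ≤ |n| * 3 := mul_le_mul_of_nonneg_left (hip _ hp1 _ hp2) (abs_nonneg _)
    exact mul_le_mul (mul_le_mul h3 (hB _ hp2) (abs_nonneg _) (Real.exp_pos _).le)
      (hB' _ hp1) (abs_nonneg _) (mul_nonneg (Real.exp_pos _).le hB0)
  have hint : Integrable (fun p : T × T => Real.exp (n * ip p.1 p.2) * F p.2 * G p.1)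
      (μ.prod μ) := Integrable.of_bound hmeas.aestronglyMeasurable _ hae
  have hswap := integral_integral_swap (f := fun g h => Real.exp (n * ip g h) * F h * G g)
    (μ := μ) (ν := μ) hint
  have hL : ∫ g, mol μ n F g * G g ∂μ = ∫ g, ∫ h, Real.exp (n * ip g h) * F h * G g ∂μ ∂μ := by
    congr 1
    funext g
    unfold mol
    rw [integral_mul_const]
  have hR : ∫ g, F g * mol μ n G g ∂μ = ∫ h, ∫ g, Real.exp (n * ip g h) * F h * G g ∂μ ∂μ := by
    congr 1
    funext h
    unfold mol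
    rw [← integral_const_mul]
    congr 1
    funext g
    rw [r_deriv.2.2.2.2.2.2.2.2 h g]
    ring
  rw [hL, hR]
  exact hswap

end Pool.Agent.Helper584.PG
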