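import Pool.Agent.Helper584.PG.Defs
import Pool.Agent.Helper584.PG.P_fr_basic
import Pool.Agent.Helper584.PG.P_zn_facts

set_option autoImplicit false

open MeasureTheory Set Filter Topology

noncomputable section

namespace Pool.Agent.Helper584.PG



theorem mol_conc_ip {g h : T} (hg : g ∈ Fr) (hh : h ∈ Fr) :
    ip g h = 3 - (‖g.1 - h.1‖ ^ 2 + ‖g.2.1 - h.2.1‖ ^ 2 + ‖g.2.2 - h.2.2‖ ^ 2) / 2 := by
  obtain ⟨g1, g2, g3, -, -, -⟩ := hg
  obtain ⟨h1, h2, h3, -, -, -⟩ := hh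
  have e1 := norm_sub_sq_real g.1 h.1
  have e2 := norm_sub_sq_real g.2.1 h.2.1
  have e3 := norm_sub_sq_real g.2.2 h.2.2
  rw [g1, h1] at e1
  rw [g2, h2] at e2
  rw [g3, h3] at e3
  unfold ip
  rw [e1, e2, e3]
  ring

theorem mol_conc_le {g h : T} (hg : g ∈ Fr) (hh : h ∈ Fr) {δ : ℝ} (hδ : 0 < δ)
    (hd : δ ≤ dist g h) : ip g h ≤ 3 - δ ^ 2 / 2 := by
  rw [mol_conc_ip hg hh]
  rw [Prod.dist_eq, Prod.dist_eq, le_max_iff, le_max_iff, dist_eq_norm, dist_eq_norm,
    dist_eq_norm] at hd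
  have p1 := sq_nonneg ‖g.1 - h.1‖
  have p2 := sq_nonneg ‖g.2.1 - h.2.1‖
  have p3 := sq_nonneg ‖g.2.2 - h.2.2‖
  rcases hd with hd | hd | hd
  · have := pow_le_pow_left₀ hδ.le hd 2
    linarith
  · have := pow_le_pow_left₀ hδ.le hd 2
    linarith
  · have := pow_le_pow_left₀ hδ.le hd 2
    linarith

theorem mol_conc_le3 {g h : T} (hg : g ∈ Fr) (hh : h ∈ Fr) : ip g h ≤ 3 := by
  rw [mol_conc_ip hg hh]
  have p1 := sq_nonneg ‖g.1 - h.1‖
  have p2 := sq_nonneg ‖g.2.1 - h.2.1‖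
  have p3 := sq_nonneg ‖g.2.2 - h.2.2‖
  linarith

theorem mol_conc (μ : Measure T) (hμ : IsFM μ) (δ ε : ℝ) (hδ : 0 < δ) (hε : 0 < ε) :
    ∃ n0 : ℝ, ∀ n : ℝ, n0 ≤ n → ∀ g ∈ Fr,
      ∫ h in {h : T | δ ≤ dist g h}, Real.exp (n * ip g h) ∂μ ≤ ε * zn μ n := by
  have hprob := hμ.prob
  have hcip : ∀ g : T, Continuous (fun h => ip g h) := by
    intro g
    unfold ip
    fun_prop
  have hae : ∀ᵐ h ∂μ, h ∈ Fr := by
    rw [ae_iff]
    exact hμ.supp
  have he0 : e0 ∈ Fr := fr_basic.2.2.2.2.2.2.2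
  set U : Set T := {h | 3 - δ ^ 2 / 4 < ip e0 h} with hU
  have hUo : IsOpen U := isOpen_lt continuous_const (hcip e0)
  have hU0 : (U ∩ Fr).Nonempty := by
    refine ⟨e0, ?_, he0⟩
    show 3 - δ ^ 2 / 4 < ip e0 e0
    rw [mol_conc_ip he0 he0]
    simp only [sub_self, norm_zero]
    nlinarith [sq_pos_of_pos hδ]
  have hUne := hμ.pos U hUo hU0
  set m := μ.real U with hm
  have hm0 : 0 < m := by
    rw [hm]
    unfold Measure.real
    exact ENNReal.toReal_pos hUne (measure_ne_top μ U)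
  refine ⟨max 0 (4 / δ ^ 2 * (-Real.log (ε * m))), ?_⟩
  intro n hn g hg
  have hn0 : 0 ≤ n := (le_max_left _ _).trans hn
  have hn1 : 4 / δ ^ 2 * (-Real.log (ε * m)) ≤ n := (le_max_right _ _).trans hn
  have hexp : Real.exp (-(n * δ ^ 2 / 4)) ≤ ε * m := by
    rw [← Real.le_log_iff_exp_le (by positivity)]
    have hδ2 : 0 < δ ^ 2 := by positivity
    rw [div_mul_eq_mul_div, div_le_iff₀ hδ2] at hn1
    linarith
  have hup : ∫ h in {h : T | δ ≤ dist g h}, Real.exp (n * ip g h) ∂μ ≤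
      Real.exp (n * (3 - δ ^ 2 / 2)) := by
    have hS : MeasurableSet {h : T | δ ≤ dist g h} :=
      (isClosed_le continuous_const (by fun_prop)).measurableSet
    have h1 := norm_setIntegral_le_of_norm_le_const_ae (μ := μ) (s := {h : T | δ ≤ dist g h})
      (f := fun h => Real.exp (n * ip g h)) (C := Real.exp (n * (3 - δ ^ 2 / 2)))
      (measure_lt_top μ _) (by
        rw [ae_restrict_iff' hS]
        filter_upwards [hae] with h hh hd
        rw [Real.norm_eq_abs, Real.abs_exp]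
        exact Real.exp_le_exp.2 (mul_le_mul_of_nonneg_left (mol_conc_le hg hh hδ hd) hn0))
    refine (le_abs_self _).trans (h1.trans ?_)
    exact mul_le_of_le_one_right (Real.exp_pos _).le measureReal_le_one
  have hint : Integrable (fun h => Real.exp (n * ip e0 h)) μ := by
    refine Integrable.of_bound (C := Real.exp (n * 3)) ?_ ?_
    · exact (Real.continuous_exp.comp (continuous_const.mul (hcip e0))).aestronglyMeasurable
    · filter_upwards [hae] with h hh
      rw [Real.norm_eq_abs, Real.abs_exp]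
      exact Real.exp_le_exp.2 (mul_le_mul_of_nonneg_left (mol_conc_le3 he0 hh) hn0)
  have hlow : Real.exp (n * (3 - δ ^ 2 / 4)) * m ≤ zn μ n := by
    have h1 := mul_meas_ge_le_integral_of_nonneg (μ := μ) (f := fun h => Real.exp (n * ip e0 h))
      (Filter.Eventually.of_forall fun h => (Real.exp_pos _).le) hint
      (Real.exp (n * (3 - δ ^ 2 / 4)))
    refine le_trans ?_ h1
    apply mul_le_mul_of_nonneg_left _ (Real.exp_pos _).le
    refine measureReal_mono (fun h hh => ?_) (measure_ne_top μ _)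
    exact Real.exp_le_exp.2 (mul_le_mul_of_nonneg_left (le_of_lt hh) hn0)
  calc _ ≤ Real.exp (n * (3 - δ ^ 2 / 2)) := hup
    _ = Real.exp (n * (3 - δ ^ 2 / 4)) * Real.exp (-(n * δ ^ 2 / 4)) := by
        rw [← Real.exp_add]
        congr 1
        ring
    _ ≤ Real.exp (n * (3 - δ ^ 2 / 4)) * (ε * m) :=
        mul_le_mul_of_nonneg_left hexp (Real.exp_pos _).le
    _ = ε * (Real.exp (n * (3 - δ ^ 2 / 4)) * m) := by ring
    _ ≤ ε * zn μ n := mul_le_mul_of_nonneg_left hlow hε.le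

end Pool.Agent.Helper584.PG
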