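import Pool.Agent.Helper584.PG.Defs
import Pool.Agent.Helper584.PG.P_fr_basic
import Pool.Agent.Helper584.PG.P_zn_facts
import Pool.Agent.Helper584.PG.P_mol_conc

set_option autoImplicit false

open MeasureTheory Set Filter Topology

noncomputable section

namespace Pool.Agent.Helper584.PG



theorem mol_unif_aux (μ : Measure T) (hμ : IsFM μ) (f : T → ℝ) (hf : Continuous f) :
    Integrable f μ := by
  haveI := hμ.prob
  have h1 : μ.restrict Fr = μ := by
    refine Measure.restrict_eq_self_of_ae_mem ?_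
    rw [ae_iff]
    exact hμ.supp
  rw [← h1]
  exact (hf.continuousOn).integrableOn_compact fr_basic.1

theorem mol_unif (μ : Measure T) (hμ : IsFM μ) (φ : T → ℝ) (hφ : Continuous φ) (ε : ℝ) (hε : 0 < ε) :
    ∃ n0 : ℝ, ∀ n : ℝ, n0 ≤ n → ∀ g ∈ Fr, |mol μ n φ g - zn μ n * φ g| ≤ ε * zn μ n := by
  haveI := hμ.prob
  obtain ⟨M, hM⟩ := fr_basic.1.exists_bound_of_continuousOn hφ.continuousOn
  have hM0 : 0 ≤ M := le_trans (norm_nonneg _) (hM e0 fr_basic.2.2.2.2.2.2.2)
  have huc := fr_basic.1.uniformContinuousOn_of_continuous hφ.continuousOn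
  rw [Metric.uniformContinuousOn_iff] at huc
  obtain ⟨δ, hδ, hd⟩ := huc (ε / 2) (by positivity)
  obtain ⟨n0, hn0⟩ := mol_conc μ hμ δ (ε / (4 * M + 1)) hδ (by positivity)
  refine ⟨n0, fun n hn g hg => ?_⟩
  have hz := zn_facts μ hμ n
  have hc := hn0 n hn g hg
  have hwc : Continuous fun h : T => Real.exp (n * ip g h) := by
    unfold ip; fun_prop
  have hS : MeasurableSet {h : T | δ ≤ dist g h} := (isClosed_le continuous_const (by fun_prop)).measurableSet
  have hwi := mol_unif_aux μ hμ _ hwc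
  have hwφ : Integrable (fun h : T => Real.exp (n * ip g h) * φ h) μ :=
    mol_unif_aux μ hμ _ (hwc.mul hφ)
  have e1 : mol μ n φ g - zn μ n * φ g = ∫ h, Real.exp (n * ip g h) * (φ h - φ g) ∂μ := by
    have : (fun h : T => Real.exp (n * ip g h) * (φ h - φ g)) =
        fun h => Real.exp (n * ip g h) * φ h - Real.exp (n * ip g h) * φ g := by
      funext h; ring
    rw [this, integral_sub hwφ (hwi.mul_const _), integral_mul_const, hz.2.1 g hg]
    rfl
  have hae : ∀ᵐ h ∂μ, h ∈ Fr := by
    rw [ae_iff]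
    exact hμ.supp
  have hb : ∀ᵐ h ∂μ, ‖Real.exp (n * ip g h) * (φ h - φ g)‖ ≤
      ε / 2 * Real.exp (n * ip g h) +
        2 * M * ({h : T | δ ≤ dist g h}.indicator (fun h => Real.exp (n * ip g h)) h) := by
    filter_upwards [hae] with h hh
    have hw0 : 0 < Real.exp (n * ip g h) := Real.exp_pos _
    rw [norm_mul, Real.norm_of_nonneg hw0.le]
    by_cases hx : δ ≤ dist g h
    · rw [Set.indicator_of_mem (show h ∈ {h : T | δ ≤ dist g h} from hx)]
      have h1 : ‖φ h - φ g‖ ≤ 2 * M := by
        have := norm_sub_le (φ h) (φ g)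
        have h2 := hM h hh
        have h3 := hM g hg
        linarith
      have := mul_le_mul_of_nonneg_left h1 hw0.le
      have h4 : 0 ≤ ε / 2 * Real.exp (n * ip g h) := by positivity
      linarith
    · rw [Set.indicator_of_notMem (show h ∉ {h : T | δ ≤ dist g h} from hx)]
      have h1 : dist (φ h) (φ g) < ε / 2 := hd h hh g hg (by rw [dist_comm]; exact not_le.1 hx)
      rw [Real.dist_eq] at h1
      have := mul_le_mul_of_nonneg_left h1.le hw0.le
      rw [Real.norm_eq_abs]
      linarith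
  have hbi : Integrable (fun h : T => ε / 2 * Real.exp (n * ip g h) +
        2 * M * ({h : T | δ ≤ dist g h}.indicator (fun h => Real.exp (n * ip g h)) h)) μ :=
    (hwi.const_mul _).add ((hwi.indicator hS).const_mul _)
  rw [e1]
  refine le_trans (norm_integral_le_of_norm_le hbi hb) ?_
  rw [integral_add (hwi.const_mul _) ((hwi.indicator hS).const_mul _), integral_const_mul,
    integral_const_mul, integral_indicator hS, hz.2.1 g hg]
  have h5 : 2 * M * (∫ h in {h : T | δ ≤ dist g h}, Real.exp (n * ip g h) ∂μ) ≤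
      2 * M * (ε / (4 * M + 1) * zn μ n) := mul_le_mul_of_nonneg_left hc (by positivity)
  have h6 : 2 * M * (ε / (4 * M + 1) * zn μ n) ≤ ε / 2 * zn μ n := by
    have : 2 * M * (ε / (4 * M + 1)) ≤ ε / 2 := by
      rw [mul_div_assoc', div_le_iff₀ (by positivity)]
      nlinarith
    calc 2 * M * (ε / (4 * M + 1) * zn μ n) = 2 * M * (ε / (4 * M + 1)) * zn μ n := by ring
      _ ≤ ε / 2 * zn μ n := mul_le_mul_of_nonneg_right this hz.1.le
  linarith

end Pool.Agent.Helper584.PG
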