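import Pool.Agent.Helper584.PG.Defs
import Pool.Agent.Helper584.PG.P_fr_basic
import Pool.Agent.Helper584.PG.P_zn_facts
import Pool.Agent.Helper584.PG.P_mol_unif
import Pool.Agent.Helper584.PG.P_mol_sym

set_option autoImplicit false

open MeasureTheory Set Filter Topology

noncomputable section

namespace Pool.Agent.Helper584.PG



theorem mol_lim_ae {μ : Measure T} (hμ : IsFM μ) : ∀ᵐ g ∂μ, g ∈ Fr := by
  rw [ae_iff]
  exact hμ.supp

theorem mol_lim_int {μ : Measure T} (hμ : IsFM μ) (f : T → ℝ) (hf : AEStronglyMeasurable f μ)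
    (B : ℝ) (hB : ∀ g ∈ Fr, |f g| ≤ B) : Integrable f μ := by
  haveI := hμ.prob
  refine Integrable.of_bound hf B ?_
  filter_upwards [mol_lim_ae hμ] with g hg
  rw [Real.norm_eq_abs]
  exact hB g hg

theorem mol_lim_bd (φ : T → ℝ) (hφ : Continuous φ) : ∃ B, 0 ≤ B ∧ ∀ g ∈ Fr, |φ g| ≤ B := by
  obtain ⟨B, hB⟩ := fr_basic.1.exists_bound_of_continuousOn hφ.continuousOn
  refine ⟨max B 0, le_max_right _ _, fun g hg => ?_⟩
  have := hB g hg
  rw [Real.norm_eq_abs] at this
  exact this.trans (le_max_left _ _)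

theorem mol_lim_ip : Continuous (fun p : T × T => ip p.1 p.2) := by
  unfold ip
  refine ((Continuous.inner ?_ ?_).add (Continuous.inner ?_ ?_)).add (Continuous.inner ?_ ?_) <;>
    fun_prop

theorem mol_lim_sm {μ : Measure T} (hμ : IsFM μ) (n : ℝ) (F : T → ℝ) (hF : Measurable F) :
    StronglyMeasurable (mol μ n F) := by
  haveI := hμ.prob
  have h1 : Measurable (fun p : T × T => Real.exp (n * ip p.1 p.2) * F p.2) := by
    refine Measurable.mul ?_ (hF.comp measurable_snd)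
    exact (Real.continuous_exp.comp (continuous_const.mul mol_lim_ip)).measurable
  exact h1.stronglyMeasurable.integral_prod_right'

theorem mol_lim_expint {μ : Measure T} (hμ : IsFM μ) (n : ℝ) (g : T) :
    Integrable (fun h => Real.exp (n * ip g h)) μ := by
  have hc : Continuous (fun h => Real.exp (n * ip g h)) :=
    Real.continuous_exp.comp (continuous_const.mul (mol_lim_ip.comp
      (Continuous.prodMk continuous_const continuous_id)))
  obtain ⟨B, _, hB⟩ := mol_lim_bd _ hc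
  exact mol_lim_int hμ _ hc.aestronglyMeasurable B hB

theorem mol_lim_molbd {μ : Measure T} (hμ : IsFM μ) (n : ℝ) (F : T → ℝ) (B : ℝ)
    (hB : ∀ g ∈ Fr, |F g| ≤ B) : ∀ g ∈ Fr, |mol μ n F g| ≤ zn μ n * B := by
  intro g hg
  unfold mol
  have h1 : ‖∫ h, Real.exp (n * ip g h) * F h ∂μ‖ ≤ ∫ h, Real.exp (n * ip g h) * B ∂μ := by
    refine norm_integral_le_of_norm_le ((mol_lim_expint hμ n g).mul_const B) ?_
    filter_upwards [mol_lim_ae hμ] with h hh
    rw [norm_mul, Real.norm_eq_abs, Real.norm_eq_abs, abs_of_pos (Real.exp_pos _)]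
    exact mul_le_mul_of_nonneg_left (hB h hh) (Real.exp_pos _).le
  rw [integral_mul_const, (zn_facts μ hμ n).2.1 g hg, Real.norm_eq_abs] at h1
  exact h1

theorem mol_lim_key (μ : Measure T) (hμ : IsFM μ) (F : T → ℝ) (hF : Measurable F) (B : ℝ)
    (hB : ∀ g ∈ Fr, |F g| ≤ B) (C : ℝ)
    (h : ∀ n : ℕ, ∫ g, (mol μ n F g) ^ 2 ∂μ ≤ (zn μ n) ^ 2 * C) (φ : T → ℝ) (hφ : Continuous φ) :
    2 * ∫ g, F g * φ g ∂μ ≤ C + ∫ g, φ g ^ 2 ∂μ := by
  haveI := hμ.prob
  obtain ⟨B', hB'0, hB'⟩ := mol_lim_bd φ hφ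
  have hBa : ∀ g ∈ Fr, |F g| ≤ max B B' := fun g hg => (hB g hg).trans (le_max_left _ _)
  have hBb : ∀ g ∈ Fr, |φ g| ≤ max B B' := fun g hg => (hB' g hg).trans (le_max_right _ _)
  refine le_of_forall_pos_le_add fun ε hε => ?_
  set ε' := ε / (2 * (|B| + 1)) with hε'
  have hε'0 : 0 < ε' := by positivity
  obtain ⟨n0, hn0⟩ := mol_unif μ hμ φ hφ ε' hε'0
  obtain ⟨n, hn⟩ := exists_nat_ge n0
  have hz := (zn_facts μ hμ n).1
  set z := zn μ n with hzdef
  have hmolφ := mol_lim_sm hμ (n : ℝ) φ hφ.measurable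
  have hmolF := mol_lim_sm hμ (n : ℝ) F hF
  have bφ := mol_lim_molbd hμ (n : ℝ) φ B' hB'
  have bF := mol_lim_molbd hμ (n : ℝ) F B hB
  rw [← hzdef] at bφ bF
  -- integrability
  have i1 : Integrable (fun g => F g * mol μ n φ g) μ :=
    mol_lim_int hμ _ (hF.aestronglyMeasurable.mul hmolφ.aestronglyMeasurable) (|B| * (z * B'))
      (fun g hg => by
        rw [abs_mul]
        exact mul_le_mul ((hB g hg).trans (le_abs_self _)) (bφ g hg) (abs_nonneg _) (abs_nonneg _))
  have i2 : Integrable (fun g => F g * (mol μ n φ g - z * φ g)) μ :=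
    mol_lim_int hμ _ (hF.aestronglyMeasurable.mul (hmolφ.aestronglyMeasurable.sub
      (hφ.aestronglyMeasurable.const_mul z))) (|B| * (ε' * z))
      (fun g hg => by
        rw [abs_mul]
        exact mul_le_mul ((hB g hg).trans (le_abs_self _)) (hn0 n hn g hg) (abs_nonneg _)
          (abs_nonneg _))
  have i3 : Integrable (fun g => mol μ n F g * φ g) μ :=
    mol_lim_int hμ _ (hmolF.aestronglyMeasurable.mul hφ.aestronglyMeasurable) (z * B * B')
      (fun g hg => by
        rw [abs_mul]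
        exact mul_le_mul (bF g hg) (hB' g hg) (abs_nonneg _) ((abs_nonneg _).trans (bF g hg)))
  have i4 : Integrable (fun g => (mol μ n F g) ^ 2) μ :=
    mol_lim_int hμ _ (hmolF.aestronglyMeasurable.pow 2) ((z * B) ^ 2)
      (fun g hg => by
        rw [abs_pow]
        exact pow_le_pow_left₀ (abs_nonneg _) (bF g hg) 2)
  have i5 : Integrable (fun g => (φ g) ^ 2) μ :=
    mol_lim_int hμ _ (hφ.aestronglyMeasurable.pow 2) (B' ^ 2)
      (fun g hg => by
        rw [abs_pow]
        exact pow_le_pow_left₀ (abs_nonneg _) (hB' g hg) 2)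
  -- the estimates
  have e1 : z * ∫ g, F g * φ g ∂μ
      = ∫ g, F g * mol μ n φ g ∂μ - ∫ g, F g * (mol μ n φ g - z * φ g) ∂μ := by
    rw [← integral_sub i1 i2, ← integral_const_mul]
    refine integral_congr_ae (Eventually.of_forall fun g => ?_)
    simp only
    ring
  have e2 : |∫ g, F g * (mol μ n φ g - z * φ g) ∂μ| ≤ |B| * (ε' * z) := by
    have h1 := norm_integral_le_of_norm_le_const (μ := μ) (C := |B| * (ε' * z))
      (f := fun g => F g * (mol μ n φ g - z * φ g)) (by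
        filter_upwards [mol_lim_ae hμ] with g hg
        rw [norm_mul, Real.norm_eq_abs, Real.norm_eq_abs]
        exact mul_le_mul ((hB g hg).trans (le_abs_self _)) (hn0 n hn g hg) (abs_nonneg _)
          (abs_nonneg _))
    simpa using h1
  have e3 : ∫ g, F g * mol μ n φ g ∂μ = ∫ g, mol μ n F g * φ g ∂μ :=
    (mol_sym μ hμ n F φ hF hφ.measurable (max B B') hBa hBb).symm
  have e4 : 2 * ∫ g, mol μ n F g * φ g ∂μ ≤ z * C + z * ∫ g, φ g ^ 2 ∂μ := by
    have h1 : ∫ g, 2 * (mol μ n F g * φ g) ∂μ ≤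
        ∫ g, (z⁻¹ * (mol μ n F g) ^ 2 + z * φ g ^ 2) ∂μ := by
      refine integral_mono (i3.const_mul 2) ((i4.const_mul _).add (i5.const_mul _)) fun g => ?_
      simp only
      have h2 : z⁻¹ * (mol μ n F g) ^ 2 + z * φ g ^ 2 - 2 * (mol μ n F g * φ g)
          = z⁻¹ * (mol μ n F g - z * φ g) ^ 2 := by field_simp; ring
      have h3 : 0 ≤ z⁻¹ * (mol μ n F g - z * φ g) ^ 2 := by positivity
      linarith
    rw [integral_const_mul, integral_add (i4.const_mul _) (i5.const_mul _), integral_const_mul,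
      integral_const_mul] at h1
    have h2 : z⁻¹ * ∫ g, (mol μ n F g) ^ 2 ∂μ ≤ z * C := by
      have h3 := mul_le_mul_of_nonneg_left (h n) (inv_nonneg.2 hz.le)
      rw [← hzdef] at h3
      have h4 : z⁻¹ * (z ^ 2 * C) = z * C := by field_simp
      linarith
    linarith
  have e5 := (abs_le.1 e2).1
  have e6 : |B| * (ε' * z) * 2 ≤ ε * z := by
    rw [hε']
    have : |B| * (ε / (2 * (|B| + 1)) * z) * 2 = (|B| / (|B| + 1)) * (ε * z) := by
      field_simp
    rw [this]
    refine mul_le_of_le_one_left (by positivity) ?_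
    rw [div_le_one (by positivity)]
    linarith
  have e7 : z * (2 * ∫ g, F g * φ g ∂μ) ≤ z * (C + ∫ g, φ g ^ 2 ∂μ + ε) := by
    linarith
  exact le_of_mul_le_mul_left e7 hz

theorem mol_lim (μ : Measure T) (hμ : IsFM μ) (F : T → ℝ) (hF : Measurable F) (B : ℝ)
    (hB : ∀ g ∈ Fr, |F g| ≤ B) (C : ℝ)
    (h : ∀ n : ℕ, ∫ g, (mol μ n F g) ^ 2 ∂μ ≤ (zn μ n) ^ 2 * C) :
    ∫ g, (F g) ^ 2 ∂μ ≤ C := by
  haveI := hμ.prob
  refine le_of_forall_pos_le_add fun ε hε => ?_
  have hae : ∀ᵐ g ∂μ, ‖F g‖ ≤ |B| := by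
    filter_upwards [mol_lim_ae hμ] with g hg
    exact (hB g hg).trans (le_abs_self _)
  have hmem : MemLp F (ENNReal.ofReal 2) μ := MemLp.of_bound hF.aestronglyMeasurable |B| hae
  obtain ⟨φ, hφ1, -⟩ := hmem.exists_boundedContinuous_integral_rpow_sub_le (by norm_num) hε
  have hφc : Continuous (fun g => φ g) := φ.continuous
  obtain ⟨B', hB'0, hB'⟩ := mol_lim_bd _ hφc
  have hkey := mol_lim_key μ hμ F hF B hB C h (fun g => φ g) hφc
  have j1 : Integrable (fun g => F g * φ g) μ :=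
    mol_lim_int hμ _ (hF.aestronglyMeasurable.mul hφc.aestronglyMeasurable) (|B| * B')
      (fun g hg => by
        rw [abs_mul]
        exact mul_le_mul ((hB g hg).trans (le_abs_self _)) (hB' g hg) (abs_nonneg _)
          (abs_nonneg _))
  have j2 : Integrable (fun g => (φ g) ^ 2) μ :=
    mol_lim_int hμ _ (hφc.aestronglyMeasurable.pow 2) (B' ^ 2)
      (fun g hg => by
        rw [abs_pow]
        exact pow_le_pow_left₀ (abs_nonneg _) (hB' g hg) 2)
  have j3 : Integrable (fun g => (F g - φ g) ^ 2) μ :=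
    mol_lim_int hμ _ ((hF.aestronglyMeasurable.sub hφc.aestronglyMeasurable).pow 2)
      ((|B| + B') ^ 2)
      (fun g hg => by
        rw [abs_pow]
        refine pow_le_pow_left₀ (abs_nonneg _) ?_ 2
        refine (abs_sub _ _).trans ?_
        exact add_le_add ((hB g hg).trans (le_abs_self _)) (hB' g hg))
  have e1 : ∫ g, (F g) ^ 2 ∂μ = 2 * ∫ g, F g * φ g ∂μ - ∫ g, φ g ^ 2 ∂μ
      + ∫ g, (F g - φ g) ^ 2 ∂μ := by
    have j4 : Integrable (fun g => 2 * (F g * φ g) - φ g ^ 2) μ := (j1.const_mul 2).sub j2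
    rw [← integral_const_mul, ← integral_sub (j1.const_mul 2) j2, ← integral_add j4 j3]
    refine integral_congr_ae (Eventually.of_forall fun g => ?_)
    simp only
    ring
  have e2 : ∫ g, (F g - φ g) ^ 2 ∂μ ≤ ε := by
    refine le_trans (le_of_eq ?_) hφ1
    refine integral_congr_ae (Eventually.of_forall fun g => ?_)
    simp only
    rw [show (2:ℝ) = ((2:ℕ):ℝ) by norm_num, Real.rpow_natCast, Real.norm_eq_abs, sq_abs]
  linarith

end Pool.Agent.Helper584.PG
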