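import Pool.Agent.Helper584.PG.Defs
import Pool.Agent.Helper584.PG.P_fr_basic
import Pool.Agent.Helper584.PG.P_mol_shift

set_option autoImplicit false

open MeasureTheory Set Filter Topology

noncomputable section

namespace Pool.Agent.Helper584.PG



theorem mol_zero_ip26462 (g : T) : Continuous (fun h : T => ip g h) := by
  unfold ip
  fun_prop

theorem mol_zero_int26462 (μ : Measure T) (hμ : IsFM μ) (n : ℝ) (F : T → ℝ) (hF : Measurable F)
    (B : ℝ) (hB : ∀ g ∈ Fr, |F g| ≤ B) (g : T) :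
    Integrable (Function.uncurry (fun (t : ℝ) (h : T) => Real.exp (n * ip g h) * F (rX t h)))
      ((volume.restrict (Ioc 0 (2 * Real.pi))).prod μ) := by
  haveI := hμ.prob
  obtain ⟨hc, hX, -, -, hcX, -, -, he0⟩ := fr_basic
  have hcont : Continuous (fun h : T => Real.exp (n * ip g h)) :=
    Real.continuous_exp.comp (continuous_const.mul (mol_zero_ip26462 g))
  obtain ⟨C, hC⟩ := hc.exists_bound_of_continuousOn hcont.continuousOn
  have hC0 : 0 ≤ C := (norm_nonneg _).trans (hC e0 he0)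
  have hmeas : Measurable (Function.uncurry
      (fun (t : ℝ) (h : T) => Real.exp (n * ip g h) * F (rX t h))) := by
    have h1 : Measurable (fun p : ℝ × T => Real.exp (n * ip g p.2)) :=
      hcont.measurable.comp measurable_snd
    have h2 : Measurable (fun p : ℝ × T => F (rX p.1 p.2)) := hF.comp hcX.measurable
    exact h1.mul h2
  refine Integrable.of_bound hmeas.aestronglyMeasurable (C * B) ?_
  have hae : ∀ᵐ h ∂μ, h ∈ Fr := by
    rw [ae_iff]
    exact hμ.supp
  have hae2 : ∀ᵐ p ∂((volume.restrict (Ioc 0 (2 * Real.pi))).prod μ), (p : ℝ × T).2 ∈ Fr :=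
    Measure.quasiMeasurePreserving_snd.ae hae
  filter_upwards [hae2] with p hp
  show ‖Real.exp (n * ip g p.2) * F (rX p.1 p.2)‖ ≤ C * B
  rw [norm_mul]
  have h3 := hC p.2 hp
  have h4 := hB (rX p.1 p.2) (hX p.1 p.2 hp)
  rw [← Real.norm_eq_abs] at h4
  exact mul_le_mul h3 h4 (norm_nonneg _) hC0

theorem mol_zero (μ : Measure T) (hμ : IsFM μ) (n : ℝ) (F : T → ℝ) (hF : Measurable F) (B : ℝ)
    (hB : ∀ g ∈ Fr, |F g| ≤ B)
    (hz : ∀ᵐ g ∂μ, ∫ t in (0:ℝ)..(2 * Real.pi), F (rX t g) = 0) (g : T) :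
    ∫ t in (0:ℝ)..(2 * Real.pi), mol μ n F (rX t g) = 0 := by
  haveI := hμ.prob
  have h2pi : (0 : ℝ) ≤ 2 * Real.pi := by positivity
  have h1 : (fun t : ℝ => mol μ n F (rX t g))
      = fun t => ∫ h, Real.exp (n * ip g h) * F (rX t h) ∂μ := by
    funext t
    exact (mol_shift μ hμ n F hF).1 t g
  rw [h1, intervalIntegral.integral_of_le h2pi,
    integral_integral_swap (mol_zero_int26462 μ hμ n F hF B hB g)]
  apply integral_eq_zero_of_ae
  filter_upwards [hz] with h hh
  show ∫ t in Ioc 0 (2 * Real.pi), Real.exp (n * ip g h) * F (rX t h) = 0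
  rw [intervalIntegral.integral_of_le h2pi] at hh
  rw [integral_const_mul, hh, mul_zero]

end Pool.Agent.Helper584.PG
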