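import Pool.Agent.Helper584.PG.Defs
import Pool.Agent.Helper584.PG.P_energyC2
import Pool.Agent.Helper584.PG.P_mol_smooth
import Pool.Agent.Helper584.PG.P_mol_shift
import Pool.Agent.Helper584.PG.P_mol_zero
import Pool.Agent.Helper584.PG.P_mol_DV
import Pool.Agent.Helper584.PG.P_mol_contr
import Pool.Agent.Helper584.PG.P_mol_lim

set_option autoImplicit false

open MeasureTheory Set Filter Topology

noncomputable section

namespace Pool.Agent.Helper584.PG



theorem energyLip (μ : Measure T) (hμ : IsFM μ) (F VF : T → ℝ) (hF : Measurable F)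
    (hVF : Measurable VF) (B : ℝ) (hB : ∀ g ∈ Fr, |F g| ≤ B) (hB' : ∀ g ∈ Fr, |VF g| ≤ B)
    (hd : ∀ g ∈ Fr, ∀ t : ℝ, HasDerivAt (fun s => F (rV s g)) (VF (rV t g)) t)
    (hz : ∀ᵐ g ∂μ, ∫ t in (0:ℝ)..(2 * Real.pi), F (rX t g) = 0)
    (he : ∀ g ∈ Fr, F (rX Real.pi g) = F g) :
    ∫ g, (F g) ^ 2 ∂μ ≤ ∫ g, (VF g) ^ 2 ∂μ := by
  refine mol_lim μ hμ F hF B hB _ (fun n => ?_)
  have hFr : ∀ᵐ h ∂μ, h ∈ Fr := by
    rw [ae_iff]
    exact hμ.supp
  have hev : ∀ g : T, mol μ n F (rX Real.pi g) = mol μ n F g := by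
    intro g
    rw [(mol_shift μ hμ n F hF).1 Real.pi g]
    unfold mol
    apply integral_congr_ae
    filter_upwards [hFr] with h hh
    rw [he h hh]
  have h1 := energyC2 μ hμ (mol μ n F) (mol_smooth μ hμ n F hF B hB)
    (fun g _ => mol_zero μ hμ n F hF B hB hz g) (fun g _ => hev g)
  have h2 : (fun g => (DV (mol μ n F) g) ^ 2) = fun g => (mol μ n VF g) ^ 2 := by
    funext g
    rw [mol_DV μ hμ n F VF hF hVF B hB hB' hd g]
  rw [h2] at h1
  exact h1.trans (mol_contr μ hμ n VF hVF B hB')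

end Pool.Agent.Helper584.PG
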