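import Pool.Agent.Helper584.PG.Defs

set_option autoImplicit false

open MeasureTheory Set Filter Topology

noncomputable section

namespace Pool.Agent.Helper584.PG



theorem haar_right {G : Type} [Group G] [TopologicalSpace G] [IsTopologicalGroup G]
    [CompactSpace G] [MeasurableSpace G] [BorelSpace G] (μ : Measure G) [μ.IsHaarMeasure]
    [IsProbabilityMeasure μ] (g : G) : Measure.map (· * g) μ = μ := by
  have : IsProbabilityMeasure (Measure.map (· * g) μ) :=
    Measure.isProbabilityMeasure_map (continuous_mul_const g).measurable.aemeasurable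
  exact Measure.isHaarMeasure_eq_of_isProbabilityMeasure _ _

/-- the orthogonal group -/
abbrev OO : Type := ↥(Matrix.orthogonalGroup (Fin 3) ℝ)

theorem OO_compact : CompactSpace OO := by
  apply isCompact_iff_compactSpace.1
  have hK : IsCompact (Set.pi univ (fun _ : Fin 3 => Set.pi univ (fun _ : Fin 3 =>
      Icc (-1 : ℝ) 1))) :=
    isCompact_univ_pi fun _ => isCompact_univ_pi fun _ => isCompact_Icc
  have hK' : IsCompact (X := Matrix (Fin 3) (Fin 3) ℝ)
      (Set.pi univ (fun _ : Fin 3 => Set.pi univ (fun _ : Fin 3 => Icc (-1 : ℝ) 1))) := hK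
  apply hK'.of_isClosed_subset
  · have h1 : (Matrix.orthogonalGroup (Fin 3) ℝ : Set (Matrix (Fin 3) (Fin 3) ℝ)) =
        {A | A.transpose * A = 1} := by
      ext A
      exact (Matrix.mem_orthogonalGroup_iff' (Fin 3) ℝ)
    rw [h1]
    exact isClosed_eq (by fun_prop) continuous_const
  · intro A hA i _ j _
    have := entry_norm_bound_of_unitary hA i j
    rw [Real.norm_eq_abs, abs_le] at this
    exact this

/-- the entries -/
def OOe (g : OO) : Fin 3 → Fin 3 → ℝ := fun i j => g.1 i j

theorem OOe_cont : Continuous OOe := by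
  apply continuous_pi
  intro i
  apply continuous_pi
  intro j
  exact (continuous_apply_apply i j).comp
    (continuous_subtype_val : Continuous fun g : OO => (g.1 : Matrix (Fin 3) (Fin 3) ℝ))

theorem om_exists : ∃ ν : Measure (Fin 3 → Fin 3 → ℝ), IsProbabilityMeasure ν ∧
    ν {A | (Matrix.of A).transpose * Matrix.of A = 1}ᶜ = 0 ∧
    (∀ R : Matrix (Fin 3) (Fin 3) ℝ, R.transpose * R = 1 →
      Measure.map (fun (A : Fin 3 → Fin 3 → ℝ) => (fun i j => (Matrix.of A * R) i j)) ν = ν) ∧
    (∀ R : Matrix (Fin 3) (Fin 3) ℝ, R.transpose * R = 1 →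
      Measure.map (fun (A : Fin 3 → Fin 3 → ℝ) => (fun i j => (R * Matrix.of A) i j)) ν = ν) ∧
    (∀ U : Set (Fin 3 → Fin 3 → ℝ), IsOpen U →
      (U ∩ {A | (Matrix.of A).transpose * Matrix.of A = 1}).Nonempty → ν U ≠ 0) := by
  let : MeasurableSpace OO := borel OO
  have : BorelSpace OO := ⟨rfl⟩
  have : CompactSpace OO := OO_compact
  have : IsTopologicalGroup OO := inferInstance
  let K : TopologicalSpace.PositiveCompacts OO := ⊤
  let μ : Measure OO := Measure.haarMeasure K
  have hμH : μ.IsHaarMeasure := Measure.isHaarMeasure_haarMeasure K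
  have hμP : IsProbabilityMeasure μ := ⟨by
    have := Measure.haarMeasure_self (K₀ := K)
    simpa [K] using this⟩
  have hmeas : Measurable OOe := OOe_cont.measurable
  have hcl : IsClosed {A : Fin 3 → Fin 3 → ℝ | (Matrix.of A).transpose * Matrix.of A = 1} := by
    apply isClosed_eq _ continuous_const
    apply continuous_matrix
    intro i j
    simp only [Matrix.mul_apply, Matrix.transpose_apply, Matrix.of_apply]
    fun_prop
  refine ⟨Measure.map OOe μ, Measure.isProbabilityMeasure_map hmeas.aemeasurable, ?_, ?_, ?_, ?_⟩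
  · rw [Measure.map_apply hmeas hcl.measurableSet.compl]
    have : OOe ⁻¹' {A : Fin 3 → Fin 3 → ℝ | (Matrix.of A).transpose * Matrix.of A = 1}ᶜ = ∅ := by
      ext g
      simp only [mem_preimage, mem_compl_iff, mem_ofPred_eq, mem_empty_iff_false, iff_false,
        not_not]
      exact (Matrix.mem_orthogonalGroup_iff' (Fin 3) ℝ).1 g.2
    rw [this, measure_empty]
  · intro R hR
    have hcR : Continuous fun (A : Fin 3 → Fin 3 → ℝ) => (fun i j => (Matrix.of A * R) i j) := by
      apply continuous_pi
      intro i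
      apply continuous_pi
      intro j
      simp only [Matrix.mul_apply, Matrix.of_apply]
      fun_prop
    rw [Measure.map_map hcR.measurable hmeas]
    let g : OO := ⟨R, (Matrix.mem_orthogonalGroup_iff' (Fin 3) ℝ).2 hR⟩
    have h1 : (fun (A : Fin 3 → Fin 3 → ℝ) => (fun i j => (Matrix.of A * R) i j)) ∘ OOe =
        OOe ∘ (· * g) := by
      funext x
      rfl
    rw [h1, ← Measure.map_map hmeas (continuous_mul_const g).measurable, haar_right μ g]
  · intro R hR
    have hcR : Continuous fun (A : Fin 3 → Fin 3 → ℝ) => (fun i j => (R * Matrix.of A) i j) := by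
      apply continuous_pi
      intro i
      apply continuous_pi
      intro j
      simp only [Matrix.mul_apply, Matrix.of_apply]
      fun_prop
    rw [Measure.map_map hcR.measurable hmeas]
    let g : OO := ⟨R, (Matrix.mem_orthogonalGroup_iff' (Fin 3) ℝ).2 hR⟩
    have h1 : (fun (A : Fin 3 → Fin 3 → ℝ) => (fun i j => (R * Matrix.of A) i j)) ∘ OOe =
        OOe ∘ (g * ·) := by
      funext x
      rfl
    rw [h1, ← Measure.map_map hmeas (continuous_const_mul g).measurable, map_mul_left_eq_self μ g]
  · intro U hU hne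
    rw [Measure.map_apply hmeas hU.measurableSet]
    refine (hU.preimage OOe_cont).measure_ne_zero μ ?_
    obtain ⟨A, hA, hA2⟩ := hne
    exact ⟨⟨Matrix.of A, (Matrix.mem_orthogonalGroup_iff' (Fin 3) ℝ).2 hA2⟩, hA⟩

end Pool.Agent.Helper584.PG
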