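import Pool.Agent.Helper584.PG.Defs
import Pool.Agent.Helper584.PG.P_om_exists

set_option autoImplicit false

open MeasureTheory Set Filter Topology

noncomputable section

namespace Pool.Agent.Helper584.PG



/-- the triple of columns -/
def fmC (A : Fin 3 → Fin 3 → ℝ) : T :=
  (WithLp.toLp 2 (fun i => A i 0), WithLp.toLp 2 (fun i => A i 1), WithLp.toLp 2 (fun i => A i 2))

theorem fmC_cont : Continuous fmC := by
  unfold fmC
  refine Continuous.prodMk ?_ (Continuous.prodMk ?_ ?_)
  all_goals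
    refine (PiLp.continuous_toLp 2 _).comp ?_
    fun_prop

theorem fm_inner (x y : E) : (inner ℝ x y : ℝ) = x 0 * y 0 + x 1 * y 1 + x 2 * y 2 := by
  rw [PiLp.inner_apply, Fin.sum_univ_three]
  simp only [RCLike.inner_apply, conj_trivial]
  ring

theorem fm_orth (A : Fin 3 → Fin 3 → ℝ) (hA : (Matrix.of A).transpose * Matrix.of A = 1)
    (k l : Fin 3) : A 0 k * A 0 l + A 1 k * A 1 l + A 2 k * A 2 l = if k = l then 1 else 0 := by
  have h := congrFun (congrFun hA k) l
  rw [Matrix.mul_apply, Fin.sum_univ_three, Matrix.one_apply] at h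
  simpa [Matrix.transpose_apply, Matrix.of_apply] using h

theorem fm_norm (x : E) : ‖x‖ = 1 ↔ x 0 * x 0 + x 1 * x 1 + x 2 * x 2 = 1 := by
  rw [← fm_inner, real_inner_self_eq_norm_sq]
  constructor
  · intro h; rw [h]; norm_num
  · intro h
    have h0 := norm_nonneg x
    nlinarith [sq_nonneg (‖x‖ - 1)]

theorem fmC_mem (A : Fin 3 → Fin 3 → ℝ) (hA : (Matrix.of A).transpose * Matrix.of A = 1) :
    fmC A ∈ Fr := by
  have h := fm_orth A hA
  refine ⟨?_, ?_, ?_, ?_, ?_, ?_⟩
  · rw [fm_norm]; simpa [fmC] using h 0 0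
  · rw [fm_norm]; simpa [fmC] using h 1 1
  · rw [fm_norm]; simpa [fmC] using h 2 2
  · rw [fm_inner]; simpa [fmC] using h 0 1
  · rw [fm_inner]; simpa [fmC] using h 0 2
  · rw [fm_inner]; simpa [fmC] using h 1 2

theorem fmC_surj (g : T) (hg : g ∈ Fr) : ∃ A : Fin 3 → Fin 3 → ℝ,
    (Matrix.of A).transpose * Matrix.of A = 1 ∧ fmC A = g := by
  obtain ⟨h1, h2, h3, h4, h5, h6⟩ := hg
  rw [fm_norm] at h1 h2 h3
  rw [fm_inner] at h4 h5 h6
  refine ⟨fun i k => if k = 0 then g.1 i else if k = 1 then g.2.1 i else g.2.2 i, ?_, ?_⟩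
  · ext k l
    rw [Matrix.mul_apply, Fin.sum_univ_three, Matrix.one_apply]
    fin_cases k <;> fin_cases l <;>
      simp [Matrix.transpose_apply, Matrix.of_apply] <;> linarith
  · refine Prod.ext ?_ (Prod.ext ?_ ?_)
    all_goals
      ext i
      simp [fmC]

theorem fm_rX (t : ℝ) (A : Fin 3 → Fin 3 → ℝ) : rX t (fmC A) = fmC (fun i j => (Matrix.of A *
    !![Real.cos t, -Real.sin t, 0; Real.sin t, Real.cos t, 0; 0, 0, 1]) i j) := by
  refine Prod.ext ?_ (Prod.ext ?_ ?_)
  all_goals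
    ext i
    simp [fmC, rX, Matrix.mul_apply, Fin.sum_univ_three]
    try ring

theorem fm_rV (t : ℝ) (A : Fin 3 → Fin 3 → ℝ) : rV t (fmC A) = fmC (fun i j => (Matrix.of A *
    !![1, 0, 0; 0, Real.cos t, -Real.sin t; 0, Real.sin t, Real.cos t]) i j) := by
  refine Prod.ext ?_ (Prod.ext ?_ ?_)
  all_goals
    ext i
    simp [fmC, rV, Matrix.mul_apply, Fin.sum_univ_three]
    try ring

theorem fm_rH (t : ℝ) (A : Fin 3 → Fin 3 → ℝ) : rH t (fmC A) = fmC (fun i j => (Matrix.of A *
    !![Real.cos t, 0, -Real.sin t; 0, 1, 0; Real.sin t, 0, Real.cos t]) i j) := by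
  refine Prod.ext ?_ (Prod.ext ?_ ?_)
  all_goals
    ext i
    simp [fmC, rH, Matrix.mul_apply, Fin.sum_univ_three]
    try ring

theorem fm_oX (t : ℝ) : (!![Real.cos t, -Real.sin t, 0; Real.sin t, Real.cos t, 0; 0, 0, 1] :
    Matrix (Fin 3) (Fin 3) ℝ).transpose *
    !![Real.cos t, -Real.sin t, 0; Real.sin t, Real.cos t, 0; 0, 0, 1] = 1 := by
  have h := Real.sin_sq_add_cos_sq t
  ext k l
  rw [Matrix.mul_apply, Fin.sum_univ_three, Matrix.one_apply]
  fin_cases k <;> fin_cases l <;> simp [Matrix.transpose_apply] <;> nlinarith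

theorem fm_oV (t : ℝ) : (!![1, 0, 0; 0, Real.cos t, -Real.sin t; 0, Real.sin t, Real.cos t] :
    Matrix (Fin 3) (Fin 3) ℝ).transpose *
    !![1, 0, 0; 0, Real.cos t, -Real.sin t; 0, Real.sin t, Real.cos t] = 1 := by
  have h := Real.sin_sq_add_cos_sq t
  ext k l
  rw [Matrix.mul_apply, Fin.sum_univ_three, Matrix.one_apply]
  fin_cases k <;> fin_cases l <;> simp [Matrix.transpose_apply] <;> nlinarith

theorem fm_oH (t : ℝ) : (!![Real.cos t, 0, -Real.sin t; 0, 1, 0; Real.sin t, 0, Real.cos t] :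
    Matrix (Fin 3) (Fin 3) ℝ).transpose *
    !![Real.cos t, 0, -Real.sin t; 0, 1, 0; Real.sin t, 0, Real.cos t] = 1 := by
  have h := Real.sin_sq_add_cos_sq t
  ext k l
  rw [Matrix.mul_apply, Fin.sum_univ_three, Matrix.one_apply]
  fin_cases k <;> fin_cases l <;> simp [Matrix.transpose_apply] <;> nlinarith

theorem fm_mulR_cont (R : Matrix (Fin 3) (Fin 3) ℝ) :
    Continuous (fun (A : Fin 3 → Fin 3 → ℝ) => (fun i j => (Matrix.of A * R) i j)) := by
  simp only [Matrix.mul_apply, Fin.sum_univ_three, Matrix.of_apply]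
  fun_prop

theorem fm_mulL_cont (R : Matrix (Fin 3) (Fin 3) ℝ) :
    Continuous (fun (A : Fin 3 → Fin 3 → ℝ) => (fun i j => (R * Matrix.of A) i j)) := by
  simp only [Matrix.mul_apply, Fin.sum_univ_three, Matrix.of_apply]
  fun_prop

theorem fm_inv (ν : Measure (Fin 3 → Fin 3 → ℝ)) (R : Matrix (Fin 3) (Fin 3) ℝ)
    (hν : Measure.map (fun (A : Fin 3 → Fin 3 → ℝ) => (fun i j => (Matrix.of A * R) i j)) ν = ν)
    (r : T → T) (hr : Continuous r)
    (h : ∀ A, r (fmC A) = fmC (fun i j => (Matrix.of A * R) i j)) :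
    Measure.map r (Measure.map fmC ν) = Measure.map fmC ν := by
  rw [Measure.map_map hr.measurable fmC_cont.measurable]
  have h1 : r ∘ fmC = fmC ∘ (fun (A : Fin 3 → Fin 3 → ℝ) => (fun i j => (Matrix.of A * R) i j)) :=
    funext h
  rw [h1, ← Measure.map_map fmC_cont.measurable (fm_mulR_cont R).measurable, hν]

theorem fm_ip_cont (g : T) : Continuous (ip g) := by
  unfold ip
  fun_prop

theorem fm_ip (A B : Fin 3 → Fin 3 → ℝ) : ip (fmC B) (fmC A) =
    ∑ k, ((Matrix.of B).transpose * Matrix.of A) k k := by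
  unfold ip
  rw [fm_inner, fm_inner, fm_inner]
  simp [fmC, Matrix.mul_apply, Fin.sum_univ_three]

theorem fm_closed : IsClosed Fr := by
  unfold Fr
  have h1 : Continuous fun g : T => ‖g.1‖ := by fun_prop
  have h2 : Continuous fun g : T => ‖g.2.1‖ := by fun_prop
  have h3 : Continuous fun g : T => ‖g.2.2‖ := by fun_prop
  have h4 : Continuous fun g : T => (inner ℝ g.1 g.2.1 : ℝ) := by fun_prop
  have h5 : Continuous fun g : T => (inner ℝ g.1 g.2.2 : ℝ) := by fun_prop
  have h6 : Continuous fun g : T => (inner ℝ g.2.1 g.2.2 : ℝ) := by fun_prop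
  exact (isClosed_eq h1 continuous_const).inter ((isClosed_eq h2 continuous_const).inter
    ((isClosed_eq h3 continuous_const).inter ((isClosed_eq h4 continuous_const).inter
      ((isClosed_eq h5 continuous_const).inter (isClosed_eq h6 continuous_const)))))

theorem fm_exists : ∃ μ : Measure T, IsFM μ := by
  obtain ⟨ν, hν, hsupp, hR, hL, hpos⟩ := om_exists
  refine ⟨Measure.map fmC ν, ?_⟩
  have hker : ∀ φ : ℝ → ℝ, Continuous φ → ∀ g ∈ Fr,
      ∫ h, φ (ip g h) ∂(Measure.map fmC ν) = ∫ A, φ (∑ k, A k k) ∂ν := by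
    intro φ hφ g hg
    obtain ⟨B, hB, rfl⟩ := fmC_surj g hg
    have hc1 : Continuous fun h : T => φ (ip (fmC B) h) := hφ.comp (fm_ip_cont _)
    rw [integral_map fmC_cont.measurable.aemeasurable hc1.aestronglyMeasurable]
    have h1 : ((Matrix.of B).transpose).transpose * (Matrix.of B).transpose = 1 := by
      rw [Matrix.transpose_transpose]
      exact mul_eq_one_comm.mp hB
    have h2 := hL (Matrix.of B).transpose h1
    have h3 : ∫ A, φ (∑ k, A k k) ∂ν = ∫ A, φ (∑ k, A k k) ∂(Measure.map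
        (fun (A : Fin 3 → Fin 3 → ℝ) => (fun i j => ((Matrix.of B).transpose * Matrix.of A) i j))
          ν) := by
      rw [h2]
    have hcφ : Continuous fun A : Fin 3 → Fin 3 → ℝ => φ (∑ k, A k k) := by
      refine hφ.comp ?_
      fun_prop
    rw [h3, integral_map (fm_mulL_cont _).measurable.aemeasurable hcφ.aestronglyMeasurable]
    refine integral_congr_ae (Filter.Eventually.of_forall fun A => ?_)
    show φ (ip (fmC B) (fmC A)) = φ (∑ k, ((Matrix.of B).transpose * Matrix.of A) k k)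
    rw [fm_ip]
  exact
    { prob := Measure.isProbabilityMeasure_map fmC_cont.measurable.aemeasurable
      supp := by
        rw [Measure.map_apply fmC_cont.measurable fm_closed.measurableSet.compl]
        refine measure_mono_null ?_ hsupp
        intro A hA hmem
        exact hA (fmC_mem A hmem)
      invX := fun t => fm_inv ν _ (hR _ (fm_oX t)) (rX t) (by unfold rX; fun_prop) (fm_rX t)
      invV := fun t => fm_inv ν _ (hR _ (fm_oV t)) (rV t) (by unfold rV; fun_prop) (fm_rV t)
      invH := fun t => fm_inv ν _ (hR _ (fm_oH t)) (rH t) (by unfold rH; fun_prop) (fm_rH t)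
      pos := by
        rintro U hU ⟨g, hgU, hg⟩
        obtain ⟨A, hA, rfl⟩ := fmC_surj g hg
        rw [Measure.map_apply fmC_cont.measurable hU.measurableSet]
        exact hpos _ (hU.preimage fmC_cont) ⟨A, hgU, hA⟩
      ker := by
        intro φ hφ g hg g' hg'
        rw [hker φ hφ g hg, hker φ hφ g' hg'] }

end Pool.Agent.Helper584.PG
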