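import Pool.Agent.Helper584.PG.Defs
import Pool.Agent.Helper584.PG.P_fr_basic
import Pool.Agent.Helper584.PG.P_r_alg
import Pool.Agent.Helper584.PG.P_flow_zero
import Pool.Agent.Helper584.PG.P_orbit_avg
import Pool.Agent.Helper584.PG.P_energyLip
import Pool.Agent.Helper584.PG.P_N_orbit
import Pool.Agent.Helper584.PG.P_S_chain
import Pool.Agent.Helper584.PG.P_S_meas
import Pool.Agent.Helper584.PG.P_S_V
import Pool.Agent.Helper584.PG.P_S_even

set_option autoImplicit false

open MeasureTheory Set Filter Topology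

noncomputable section

namespace Pool.Agent.Helper584.PG



theorem main_T (μ : Measure T) (hμ : IsFM μ) (N : E → ℝ) (hN : IsG N) (c : ℝ)
    (hc : ∀ g ∈ Fr, ∫ t in (0:ℝ)..(2 * Real.pi), plS (nn N g) t = 2 * Real.pi * c) :
    ∫ g, pT N g ∂μ ≤ c ^ 2 := by
  
  haveI := hμ.prob
  obtain ⟨mS, mV, mT, mk, B, hB⟩ := S_meas N hN
  obtain ⟨-, hrX, hrV, -, cX, cV, -, -⟩ := fr_basic
  obtain ⟨-, -, -, -, hV0, -, -, -, -, -⟩ := r_alg
  have haeF : ∀ᵐ g ∂μ, g ∈ Fr := by
    rw [ae_iff]; exact hμ.supp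
  have bS : ∀ g ∈ Fr, |pS N g| ≤ B := fun g hg => (hB g hg).1
  have bV : ∀ g ∈ Fr, |pVS N g| ≤ B := fun g hg => (hB g hg).2.1
  have bT : ∀ g ∈ Fr, |pT N g| ≤ B := fun g hg => (hB g hg).2.2.1
  have bk : ∀ g ∈ Fr, |pk N g| ≤ B := fun g hg => (hB g hg).2.2.2
  have bS2 : ∀ g ∈ Fr, |(pS N g) ^ 2| ≤ B ^ 2 := fun g hg => by
    rw [abs_pow]; exact pow_le_pow_left₀ (abs_nonneg _) (bS g hg) 2
  have bV2 : ∀ g ∈ Fr, |(pVS N g) ^ 2| ≤ B ^ 2 := fun g hg => by
    rw [abs_pow]; exact pow_le_pow_left₀ (abs_nonneg _) (bV g hg) 2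
  obtain ⟨I1, -, A1⟩ := orbit_avg μ hμ (pS N) mS B bS
  obtain ⟨I2, -, -⟩ := orbit_avg μ hμ (fun g => (pS N g) ^ 2) (mS.pow_const 2) (B ^ 2) bS2
  obtain ⟨I3, -, -⟩ := orbit_avg μ hμ (fun g => (pVS N g) ^ 2) (mV.pow_const 2) (B ^ 2) bV2
  obtain ⟨I4, -, -⟩ := orbit_avg μ hμ (pT N) mT B bT
  have horb : ∀ᵐ g ∂μ, ∫ t in (0:ℝ)..(2 * Real.pi), pS N (rX t g) = 2 * Real.pi * c := by
    filter_upwards [haeF, N_orbit μ hμ N hN] with g hg hgt
    rw [← hc g hg]
    apply intervalIntegral.integral_congr_ae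
    filter_upwards [hgt] with t ht _
    exact (S_chain N hN g t ht).2.1
  have hcurve : ∀ g, Measurable (fun t : ℝ => pS N (rX t g)) := by
    intro g
    have h1 : Continuous (fun t : ℝ => (t, g)) := by fun_prop
    have h2 := cX.comp h1
    simp only [Function.comp_def] at h2
    have h3 := mS.comp h2.measurable
    simp only [Function.comp_def] at h3
    exact h3
  have hii : ∀ g ∈ Fr, IntervalIntegrable (fun t : ℝ => pS N (rX t g)) volume 0 (2 * Real.pi) := by
    intro g hg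
    rw [intervalIntegrable_iff]
    apply Measure.integrableOn_of_bounded (M := B)
    · exact measure_Ioc_lt_top.ne
    · exact (hcurve g).aestronglyMeasurable
    · exact Filter.Eventually.of_forall fun t => bS _ (hrX t g hg)
  have hz : ∀ᵐ g ∂μ, ∫ t in (0:ℝ)..(2 * Real.pi), (pS N (rX t g) - c) = 0 := by
    filter_upwards [haeF, horb] with g hg h
    rw [intervalIntegral.integral_sub (hii g hg) intervalIntegrable_const, h,
      intervalIntegral.integral_const, smul_eq_mul]
    ring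
  have hE := energyLip μ hμ (fun g => pS N g - c) (pVS N) (mS.sub_const c) mV (B + |c|)
    (fun g hg => (abs_sub _ _).trans (by have := bS g hg; linarith))
    (fun g hg => (bV g hg).trans (by have := abs_nonneg c; linarith))
    (fun g hg t => (S_V N hN g hg t).1.sub_const c) hz
    (fun g _ => by rw [S_even N hN g])
  have hmean : ∫ g, pS N g ∂μ = c := by
    rw [integral_congr_ae horb, integral_const] at A1
    simp only [probReal_univ, one_smul] at A1
    have hpi : (0:ℝ) < 2 * Real.pi := by positivity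
    exact (mul_left_cancel₀ hpi.ne' A1).symm
  have hexp : ∫ g, (pS N g - c) ^ 2 ∂μ = (∫ g, (pS N g) ^ 2 ∂μ) - c ^ 2 := by
    have e1 : ∀ g, (pS N g - c) ^ 2 = (pS N g) ^ 2 - 2 * c * pS N g + c ^ 2 := by intro g; ring
    simp only [e1]
    have J1 : Integrable (fun g => (pS N g) ^ 2 - 2 * c * pS N g) μ := I2.sub (I1.const_mul _)
    rw [integral_add J1 (integrable_const _), integral_sub I2 (I1.const_mul _),
      integral_const_mul, hmean, integral_const]
    simp only [probReal_univ, one_smul]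
    ring
  have hflow := flow_zero μ hμ rV cV hV0 (fun t g hg => hrV t g hg) hμ.invV (pk N)
    (fun g => pT N g - (pS N g) ^ 2 + (pVS N g) ^ 2) mk ((mT.sub (mS.pow_const 2)).add (mV.pow_const 2))
    (B + B ^ 2 + B ^ 2) (fun g hg => (bk g hg).trans (by nlinarith [sq_nonneg B]))
    (fun g hg => by
      have h1 := abs_le.1 (bT g hg)
      have h2 := abs_le.1 (bS2 g hg)
      have h3 := abs_le.1 (bV2 g hg)
      rw [abs_le]
      constructor <;> linarith [h1.1, h1.2, h2.1, h2.2, h3.1, h3.2])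
    (by filter_upwards [haeF] with g hg t; exact (S_V N hN g hg t).2)
  have J2 : Integrable (fun g => pT N g - (pS N g) ^ 2) μ := I4.sub I2
  rw [integral_add J2 I3, integral_sub I4 I2] at hflow
  rw [hexp] at hE
  linarith

end Pool.Agent.Helper584.PG
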