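import Pool.Agent.Helper584.PG.Defs

set_option autoImplicit false

open MeasureTheory Set Filter Topology

noncomputable section

namespace Pool.Agent.Helper584.PG



theorem inner_s_inv (n : ℝ → ℝ) (hn : IsP n) (a b : ℝ) :
    AbsolutelyContinuousOnInterval (fun t => (n t)⁻¹) a b := by
  obtain ⟨m, hm, hmn⟩ := hn.low
  obtain ⟨L, hL⟩ := hn.lip
  have h1 : LipschitzOnWith (L * Real.toNNReal (1 / m ^ 2)) (fun t => (n t)⁻¹) (uIcc a b) := by
    refine LipschitzOnWith.of_dist_le_mul ?_
    intro x _ y _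
    have hx : 0 < n x := lt_of_lt_of_le hm (hmn x)
    have hy : 0 < n y := lt_of_lt_of_le hm (hmn y)
    have h2 := hL.dist_le_mul x y
    rw [NNReal.coe_mul, Real.coe_toNNReal _ (by positivity)]
    rw [Real.dist_eq] at h2 ⊢
    have h3 : (n x)⁻¹ - (n y)⁻¹ = -(n x - n y) / (n x * n y) := by
      field_simp
      ring
    rw [h3, abs_div, abs_neg, abs_of_pos (mul_pos hx hy), div_le_iff₀ (mul_pos hx hy)]
    have h4 : m ^ 2 ≤ n x * n y := by
      rw [pow_two]
      exact mul_le_mul (hmn x) (hmn y) hm.le hx.le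
    have h5 : 1 ≤ 1 / m ^ 2 * (n x * n y) := by
      rw [div_mul_eq_mul_div, one_mul, le_div_iff₀ (by positivity), one_mul]
      exact h4
    calc |n x - n y| ≤ L * dist x y := h2
      _ = (L * dist x y) * 1 := by ring
      _ ≤ (L * dist x y) * (1 / m ^ 2 * (n x * n y)) :=
          mul_le_mul_of_nonneg_left h5 (by positivity)
      _ = ↑L * (1 / m ^ 2) * dist x y * (n x * n y) := by ring
  exact h1.absolutelyContinuousOnInterval

theorem inner_s (n τ : ℝ → ℝ) (hn : IsP n) (hτ : IsTau n τ) (l s : ℝ) :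
    ∫ t in (τ s)..s, kk n l s t = (1 / n s - l) ^ 2 - (Real.cos (s - τ s) / n (τ s) - l) ^ 2 := by
  have hcos : AbsolutelyContinuousOnInterval (fun t => Real.cos (s - t)) (τ s) s :=
    ContDiffOn.absolutelyContinuousOnInterval (by fun_prop)
  have hcst : AbsolutelyContinuousOnInterval (fun _ : ℝ => l) (τ s) s :=
    ContDiffOn.absolutelyContinuousOnInterval (by fun_prop)
  have h1 := (hcos.mul (inner_s_inv n hn (τ s) s)).sub hcst
  have h2 := h1.mul h1
  obtain ⟨f, hf⟩ : ∃ f : ℝ → ℝ, f = fun t => (Real.cos (s - t) / n t - l) ^ 2 := ⟨_, rfl⟩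
  have hAC : AbsolutelyContinuousOnInterval f (τ s) s := by
    have h3 : f = ((fun t => Real.cos (s - t)) * (fun t => (n t)⁻¹) - fun _ : ℝ => l) *
        ((fun t => Real.cos (s - t)) * (fun t => (n t)⁻¹) - fun _ : ℝ => l) := by
      rw [hf]
      funext t
      simp only [Pi.mul_apply, Pi.sub_apply]
      ring
    rw [h3]
    exact h2
  have h4 := hAC.integral_deriv_eq_sub
  obtain ⟨m, hm, hmn⟩ := hn.low
  obtain ⟨L, hL⟩ := hn.lip
  have h5 : ∫ t in (τ s)..s, kk n l s t = ∫ t in (τ s)..s, deriv f t := by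
    refine intervalIntegral.integral_congr_ae ?_
    filter_upwards [hL.ae_differentiableAt_real] with t ht _
    have hnt : n t ≠ 0 := (lt_of_lt_of_le hm (hmn t)).ne'
    have e1 : HasDerivAt (fun t => Real.cos (s - t)) (Real.sin (s - t)) t := by
      have e2 := ((hasDerivAt_id t).const_sub s).cos
      have e5 : -Real.sin (s - id t) * (-1) = Real.sin (s - t) := by
        simp only [id]
        ring
      rw [e5] at e2
      exact e2
    have e3 := ((e1.div ht.hasDerivAt hnt).sub_const l).pow 2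
    have e4 : HasDerivAt f (((2 : ℕ) : ℝ) * (Real.cos (s - t) / n t - l) ^ (2 - 1) *
        ((Real.sin (s - t) * n t - Real.cos (s - t) * deriv n t) / n t ^ 2)) t := by
      rw [hf]
      exact e3
    rw [e4.deriv]
    unfold kk
    have e5 : Real.sin (s - t) / n t - Real.cos (s - t) * deriv n t / (n t) ^ 2 =
        (Real.sin (s - t) * n t - Real.cos (s - t) * deriv n t) / n t ^ 2 := by
      field_simp
    rw [e5]
    push_cast
    ring
  rw [h5, h4, hf]
  simp only [sub_self, Real.cos_zero]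

end Pool.Agent.Helper584.PG
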