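import Pool.Agent.Helper584.PG.Defs

set_option autoImplicit false

open MeasureTheory Set Filter Topology

noncomputable section

namespace Pool.Agent.Helper584.PG



theorem inner_t_int (a b l w : ℝ) :
    ∫ σ in (0:ℝ)..w, (2 * (Real.cos σ / a - l) * (Real.sin σ / a - Real.cos σ * b / a ^ 2)) =
      (-(Real.cos w / a - l) ^ 2 - (b / a ^ 3) * (w + Real.sin w * Real.cos w) +
        (2 * l * b / a ^ 2) * Real.sin w) + (1 / a - l) ^ 2 := by
  have hd : ∀ σ ∈ Set.uIcc 0 w, HasDerivAt (fun σ : ℝ => -(Real.cos σ / a - l) ^ 2 -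
      (b / a ^ 3) * (σ + Real.sin σ * Real.cos σ) + (2 * l * b / a ^ 2) * Real.sin σ)
      (2 * (Real.cos σ / a - l) * (Real.sin σ / a - Real.cos σ * b / a ^ 2)) σ := by
    intro σ _
    have h1 : HasDerivAt (fun σ : ℝ => (Real.cos σ / a - l) ^ 2)
        (2 * (Real.cos σ / a - l) ^ (2 - 1) * (-Real.sin σ / a)) σ := by
      refine ((((Real.hasDerivAt_cos σ).div_const a).sub_const l).pow 2).congr_deriv ?_
      norm_num
    have h2 : HasDerivAt (fun σ : ℝ => σ + Real.sin σ * Real.cos σ)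
        (1 + (Real.cos σ * Real.cos σ + Real.sin σ * (-Real.sin σ))) σ :=
      (hasDerivAt_id σ).add ((Real.hasDerivAt_sin σ).mul (Real.hasDerivAt_cos σ))
    have h3 := ((h1.neg.sub (h2.const_mul (b / a ^ 3))).add
      ((Real.hasDerivAt_sin σ).const_mul (2 * l * b / a ^ 2)))
    refine h3.congr_deriv ?_
    have hsc := Real.sin_sq_add_cos_sq σ
    have e : (1 + (Real.cos σ * Real.cos σ + Real.sin σ * (-Real.sin σ))) =
        2 * Real.cos σ ^ 2 := by nlinarith
    rw [e]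
    by_cases ha : a = 0
    · subst ha
      simp
    · simp only [Nat.add_one_sub_one, pow_one, show (2 - 1 : ℕ) = 1 from rfl]
      field_simp
      ring
  rw [intervalIntegral.integral_eq_sub_of_hasDerivAt hd]
  · simp
  · apply Continuous.intervalIntegrable
    fun_prop

theorem inner_t (n : ℝ → ℝ) (hn : IsP n) (l t : ℝ) :
    (1 / n t - l) ^ 2 - ∫ σ in (0:ℝ)..(om n t), kk n l (t + σ) t = plT n t - 2 * l * plS n t + l ^ 2 := by
  obtain ⟨m, hm, hlow⟩ := hn.low
  have ha : 0 < n t := lt_of_lt_of_le hm (hlow t)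
  have hk : ∀ σ : ℝ, kk n l (t + σ) t = 2 * (Real.cos σ / n t - l) *
      (Real.sin σ / n t - Real.cos σ * deriv n t / (n t) ^ 2) := by
    intro σ
    unfold kk
    rw [add_sub_cancel_left]
  simp_rw [hk]
  rw [inner_t_int]
  unfold plT plS om
  generalize deriv n t = b
  generalize n t = a at ha
  obtain ⟨q, hq⟩ : ∃ q : ℝ, q = b / a := ⟨_, rfl⟩
  have hb : b = q * a := by rw [hq]; field_simp
  rw [← hq, hb]
  rw [Real.cos_arctan, Real.sin_arctan]
  have hr0 : 0 < √(1 + q ^ 2) := Real.sqrt_pos.mpr (by positivity)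
  have hr2 : √(1 + q ^ 2) ^ 2 = 1 + q ^ 2 := Real.sq_sqrt (by positivity)
  have hs : √(a ^ 2 + (q * a) ^ 2) = a * √(1 + q ^ 2) := by
    have e : a ^ 2 + (q * a) ^ 2 = (a * √(1 + q ^ 2)) ^ 2 := by
      rw [mul_pow a, hr2]; ring
    rw [e, Real.sqrt_sq (by positivity)]
  rw [hs]
  generalize Real.arctan q = w
  generalize √(1 + q ^ 2) = r at *
  have ha' := ha.ne'
  have hr' := hr0.ne'
  have key : (1 / r / a - l) ^ 2 + q * a / a ^ 3 * (w + q / r * (1 / r)) -
      2 * l * (q * a) / a ^ 2 * (q / r) = (1 + q * w) / a ^ 2 - 2 * l * (a * r / a ^ 2) + l ^ 2 := by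
    field_simp
    have hq2 : q ^ 2 = r ^ 2 - 1 := by linarith
    ring_nf
    rw [hq2]
    ring
  linarith

end Pool.Agent.Helper584.PG
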