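import Pool.Agent.Helper584.PG.Defs

set_option autoImplicit false

open MeasureTheory Set Filter Topology

noncomputable section

namespace Pool.Agent.Helper584.PG



theorem pl_int (n : ℝ → ℝ) (hn : IsP n) :
    IntervalIntegrable (plT n) volume 0 (2 * Real.pi) ∧ IntervalIntegrable (plS n) volume 0 (2 * Real.pi) := by
  obtain ⟨m, hm, hmn⟩ := hn.low
  obtain ⟨L, hL⟩ := hn.lip
  have hnc : Continuous n := hL.continuous
  have hnm : Measurable n := hnc.measurable
  have hdm : Measurable (deriv n) := measurable_deriv n
  have hd : ∀ t, |deriv n t| ≤ L := fun t => by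
    have := norm_deriv_le_of_lipschitz (x₀ := t) hL
    simpa using this
  have hn0 : ∀ t, 0 < n t := fun t => lt_of_lt_of_le hm (hmn t)
  have hL0 : (0 : ℝ) ≤ L := L.2
  have hsm : ∀ t, m ^ 2 ≤ n t ^ 2 := fun t => by
    have := hmn t
    nlinarith
  have hpi : (0 : ℝ) ≤ 2 * Real.pi := by positivity
  constructor
  · rw [intervalIntegrable_iff_integrableOn_Ioc_of_le hpi]
    refine Measure.integrableOn_of_bounded (M := (1 + L / m * 2) / m ^ 2) ?_ ?_ ?_
    · exact measure_Ioc_lt_top.ne
    · apply Measurable.aestronglyMeasurable
      unfold plT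
      have h1 : Measurable (fun t => deriv n t / n t) := hdm.div hnm
      exact (measurable_const.add (h1.mul (Real.measurable_arctan.comp h1))).div (hnm.pow_const 2)
    · refine Filter.Eventually.of_forall fun t => ?_
      unfold plT
      rw [Real.norm_eq_abs, abs_div, abs_of_pos (pow_pos (hn0 t) 2)]
      have h1 : |deriv n t / n t| ≤ L / m := by
        rw [abs_div, abs_of_pos (hn0 t)]
        exact div_le_div₀ hL0 (hd t) hm (hmn t)
      have h2 : |Real.arctan (deriv n t / n t)| ≤ 2 := by
        have h3 := Real.arctan_lt_pi_div_two (deriv n t / n t)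
        have h4 := Real.neg_pi_div_two_lt_arctan (deriv n t / n t)
        have h5 := Real.pi_le_four
        rw [abs_le]
        constructor <;> linarith
      apply div_le_div₀
      · positivity
      · refine (abs_add_le _ _).trans ?_
        rw [abs_one, abs_mul]
        apply add_le_add_right
        exact mul_le_mul h1 h2 (abs_nonneg _) (by positivity)
      · positivity
      · exact hsm t
  · rw [intervalIntegrable_iff_integrableOn_Ioc_of_le hpi]
    refine Measure.integrableOn_of_bounded (M := 1 / m + L / m ^ 2) ?_ ?_ ?_
    · exact measure_Ioc_lt_top.ne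
    · apply Measurable.aestronglyMeasurable
      unfold plS
      exact (((hnm.pow_const 2).add (hdm.pow_const 2)).sqrt).div (hnm.pow_const 2)
    · refine Filter.Eventually.of_forall fun t => ?_
      unfold plS
      rw [Real.norm_eq_abs, abs_div, abs_of_pos (pow_pos (hn0 t) 2), abs_of_nonneg (Real.sqrt_nonneg _)]
      have h1 : Real.sqrt (n t ^ 2 + deriv n t ^ 2) ≤ n t + |deriv n t| := by
        apply Real.sqrt_le_iff.mpr
        constructor
        · have := hn0 t; positivity
        · have h2 := mul_nonneg (hn0 t).le (abs_nonneg (deriv n t))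
          have h3 := sq_abs (deriv n t)
          nlinarith
      have h2 : Real.sqrt (n t ^ 2 + deriv n t ^ 2) / n t ^ 2 ≤ (n t + |deriv n t|) / n t ^ 2 :=
        div_le_div_of_nonneg_right h1 (by positivity)
      refine h2.trans ?_
      rw [add_div]
      apply add_le_add
      · rw [show n t / n t ^ 2 = 1 / n t by
          have := (hn0 t).ne'
          field_simp]
        exact one_div_le_one_div_of_le hm (hmn t)
      · exact div_le_div₀ hL0 (hd t) (by positivity) (hsm t)

end Pool.Agent.Helper584.PG
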