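import Pool.Agent.Helper584.PG.Defs

set_option autoImplicit false

open MeasureTheory Set Filter Topology

noncomputable section

namespace Pool.Agent.Helper584.PG



theorem region_key (n τ : ℝ → ℝ) (hn : IsP n) (hτ : IsTau n τ) (s t : ℝ)
    (ht : DifferentiableAt ℝ n t) (hc : 0 ≤ Real.cos (s - t)) :
    Real.sin (s - (t + om n t)) * Real.sin (t - τ s) ≤ 0 := by
  have hpos : ∀ u, 0 < n u := by
    obtain ⟨m, hm, h⟩ := hn.low
    exact fun u => lt_of_lt_of_le hm (h u)
  have h1 := (hτ s).2 t
  have h2 := hn.nor t ht (τ s)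
  have hom1 : om n t < Real.pi / 2 := Real.arctan_lt_pi_div_two _
  have hom2 : -(Real.pi / 2) < om n t := Real.neg_pi_div_two_lt_arctan _
  have hd : 0 < Real.cos (om n t) := Real.cos_pos_of_mem_Ioo ⟨hom2, hom1⟩
  have h3 : Real.cos (s - t) / n t * (Real.cos (t + om n t - τ s) / n (τ s)) ≤
      Real.cos (s - τ s) / n (τ s) * (Real.cos (om n t) / n t) := by
    calc Real.cos (s - t) / n t * (Real.cos (t + om n t - τ s) / n (τ s))
        ≤ Real.cos (s - t) / n t * (Real.cos (om n t) / n t) :=
          mul_le_mul_of_nonneg_left h2 (div_nonneg hc (hpos t).le)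
      _ ≤ _ := mul_le_mul_of_nonneg_right h1 (div_nonneg hd.le (hpos t).le)
  have h4 : Real.cos (s - t) * Real.cos (t + om n t - τ s) ≤
      Real.cos (s - τ s) * Real.cos (om n t) := by
    have hp : 0 < n t * n (τ s) := mul_pos (hpos t) (hpos (τ s))
    rw [div_mul_div_comm, div_mul_div_comm, mul_comm (n (τ s)) (n t)] at h3
    exact (div_le_div_iff_of_pos_right hp).1 h3
  have h5 : Real.cos (s - τ s) * Real.cos (om n t) -
      Real.cos (s - t) * Real.cos (t + om n t - τ s) =
      -(Real.sin (s - (t + om n t)) * Real.sin (t - τ s)) := by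
    set P := s - (t + om n t) with hP
    set Q := t - τ s with hQ
    set w := om n t with hw
    have e1 : s - τ s = (P + Q) + w := by rw [hP, hQ]; ring
    have e2 : s - t = P + w := by rw [hP]; ring
    have e3 : t + w - τ s = Q + w := by rw [hQ]; ring
    rw [e1, e2, e3, Real.cos_add (P + Q) w, Real.cos_add P Q, Real.sin_add P Q,
      Real.cos_add P w, Real.cos_add Q w]
    have e4 := Real.sin_sq_add_cos_sq w
    linear_combination (-Real.sin P * Real.sin Q) * e4
  linarith

theorem region (n τ : ℝ → ℝ) (hn : IsP n) (hτ : IsTau n τ) (s t : ℝ) (ht : DifferentiableAt ℝ n t) :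
    (τ s < t → t < s → s ≤ t + om n t) ∧ (t < s → s < t + om n t → τ s ≤ t) ∧
    (s < t → t < τ s → t + om n t ≤ s) ∧ (t + om n t < s → s < t → t ≤ τ s) := by
  have hom1 : om n t < Real.pi / 2 := Real.arctan_lt_pi_div_two _
  have hom2 : -(Real.pi / 2) < om n t := Real.neg_pi_div_two_lt_arctan _
  obtain ⟨hs1, hs2⟩ := abs_lt.1 (hτ s).1
  have key := region_key n τ hn hτ s t ht
  have hpi := Real.pi_pos
  refine ⟨fun h1 h2 => ?_, fun h1 h2 => ?_, fun h1 h2 => ?_, fun h1 h2 => ?_⟩
  · by_contra hcon
    push Not at hcon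
    have hc : 0 ≤ Real.cos (s - t) :=
      Real.cos_nonneg_of_mem_Icc ⟨by linarith, by linarith⟩
    have hA : 0 < Real.sin (s - (t + om n t)) :=
      Real.sin_pos_of_pos_of_lt_pi (by linarith) (by linarith)
    have hB : 0 < Real.sin (t - τ s) :=
      Real.sin_pos_of_pos_of_lt_pi (by linarith) (by linarith)
    have := key hc
    have := mul_pos hA hB
    linarith
  · by_contra hcon
    push Not at hcon
    have hc : 0 ≤ Real.cos (s - t) :=
      Real.cos_nonneg_of_mem_Icc ⟨by linarith, by linarith⟩
    have hA : Real.sin (s - (t + om n t)) < 0 :=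
      Real.sin_neg_of_neg_of_neg_pi_lt (by linarith) (by linarith)
    have hB : Real.sin (t - τ s) < 0 :=
      Real.sin_neg_of_neg_of_neg_pi_lt (by linarith) (by linarith)
    have := key hc
    have := mul_pos_of_neg_of_neg hA hB
    linarith
  · by_contra hcon
    push Not at hcon
    have hc : 0 ≤ Real.cos (s - t) :=
      Real.cos_nonneg_of_mem_Icc ⟨by linarith, by linarith⟩
    have hA : Real.sin (s - (t + om n t)) < 0 :=
      Real.sin_neg_of_neg_of_neg_pi_lt (by linarith) (by linarith)
    have hB : Real.sin (t - τ s) < 0 :=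
      Real.sin_neg_of_neg_of_neg_pi_lt (by linarith) (by linarith)
    have := key hc
    have := mul_pos_of_neg_of_neg hA hB
    linarith
  · by_contra hcon
    push Not at hcon
    have hc : 0 ≤ Real.cos (s - t) :=
      Real.cos_nonneg_of_mem_Icc ⟨by linarith, by linarith⟩
    have hA : 0 < Real.sin (s - (t + om n t)) :=
      Real.sin_pos_of_pos_of_lt_pi (by linarith) (by linarith)
    have hB : 0 < Real.sin (t - τ s) :=
      Real.sin_pos_of_pos_of_lt_pi (by linarith) (by linarith)
    have := key hc
    have := mul_pos hA hB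
    linarith

end Pool.Agent.Helper584.PG
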