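import Pool.Agent.Helper584.PG.Defs
import Pool.Agent.Helper584.PG.P_region

set_option autoImplicit false

open MeasureTheory Set Filter Topology

noncomputable section

namespace Pool.Agent.Helper584.PG



def chi (a b x : ℝ) : ℝ := if a < x ∧ x < b then 1 else if b < x ∧ x < a then -1 else 0

theorem chi_int (F : ℝ → ℝ) (a b : ℝ) : ∫ x in a..b, F x = ∫ x, chi a b x * F x := by
  rcases le_total a b with h | h
  · rw [intervalIntegral.integral_of_le h, integral_Ioc_eq_integral_Ioo, ← integral_indicator measurableSet_Ioo]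
    congr 1
    funext x
    unfold chi
    by_cases h1 : a < x ∧ x < b
    · rw [if_pos h1, indicator_of_mem (show x ∈ Ioo a b from h1), one_mul]
    · rw [if_neg h1, if_neg (by rintro ⟨h2, h3⟩; linarith), indicator_of_notMem (show x ∉ Ioo a b from h1), zero_mul]
  · rw [intervalIntegral.integral_symm, intervalIntegral.integral_of_le h, integral_Ioc_eq_integral_Ioo,
      ← integral_indicator measurableSet_Ioo, ← integral_neg]
    congr 1
    funext x
    unfold chi
    by_cases h1 : b < x ∧ x < a
    · rw [if_neg (by rintro ⟨h2, h3⟩; linarith [h1.1, h1.2]), if_pos h1, indicator_of_mem (show x ∈ Ioo b a from h1)]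
      ring
    · rw [if_neg (by rintro ⟨h2, h3⟩; linarith), if_neg h1, indicator_of_notMem (show x ∉ Ioo b a from h1)]
      simp

theorem chi_abs (a b x : ℝ) : |chi a b x| ≤ 1 := by
  unfold chi
  split_ifs <;> simp

theorem fub (G : ℝ → ℝ → ℝ) (M : ℝ) (hGm : Measurable (fun p : ℝ × ℝ => G p.1 p.2))
    (hGb : ∀ t σ, |G t σ| ≤ M) (hGp : ∀ t σ, G (t + 2 * Real.pi) σ = G t σ)
    (hG0 : ∀ t σ, σ ∉ Icc (-2:ℝ) 2 → G t σ = 0) :
    ∫ s in (0:ℝ)..(2 * Real.pi), (∫ σ, G (s - σ) σ) = ∫ t in (0:ℝ)..(2 * Real.pi), (∫ σ, G t σ) := by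
  have hI : ∀ f : ℝ → ℝ, (∀ σ, σ ∉ Icc (-2:ℝ) 2 → f σ = 0) → ∫ σ, f σ = ∫ σ in Icc (-2:ℝ) 2, f σ := by
    intro f hf
    exact (setIntegral_eq_integral_of_forall_compl_eq_zero hf).symm
  have e1 : ∀ s, ∫ σ, G (s - σ) σ = ∫ σ in Icc (-2:ℝ) 2, G (s - σ) σ :=
    fun s => hI _ (fun σ hσ => hG0 _ _ hσ)
  have e2 : ∀ t, ∫ σ, G t σ = ∫ σ in Icc (-2:ℝ) 2, G t σ :=
    fun t => hI _ (fun σ hσ => hG0 _ _ hσ)
  simp_rw [e1, e2]
  have hpi : (0:ℝ) ≤ 2 * Real.pi := by positivity
  rw [intervalIntegral.integral_of_le hpi, intervalIntegral.integral_of_le hpi]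
  have hGm' : Measurable (fun p : ℝ × ℝ => G (p.1 - p.2) p.2) :=
    hGm.comp ((measurable_fst.sub measurable_snd).prodMk measurable_snd)
  have fin1 : IsFiniteMeasure ((volume : Measure ℝ).restrict (Ioc 0 (2 * Real.pi))) := by
    infer_instance
  have fin2 : IsFiniteMeasure ((volume : Measure ℝ).restrict (Icc (-2) 2)) := by
    infer_instance
  have i1 : Integrable (Function.uncurry fun s σ => G (s - σ) σ)
      (((volume : Measure ℝ).restrict (Ioc 0 (2 * Real.pi))).prod ((volume : Measure ℝ).restrict (Icc (-2) 2))) := by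
    refine Integrable.of_bound (C := M) hGm'.aestronglyMeasurable ?_
    exact Filter.Eventually.of_forall fun p => by
      rw [Real.norm_eq_abs]; exact hGb _ _
  have i2 : Integrable (Function.uncurry fun s σ => G s σ)
      (((volume : Measure ℝ).restrict (Ioc 0 (2 * Real.pi))).prod ((volume : Measure ℝ).restrict (Icc (-2) 2))) := by
    refine Integrable.of_bound (C := M) hGm.aestronglyMeasurable ?_
    exact Filter.Eventually.of_forall fun p => by
      rw [Real.norm_eq_abs]; exact hGb _ _
  rw [integral_integral_swap i1, integral_integral_swap i2]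
  congr 1
  funext σ
  rw [← intervalIntegral.integral_of_le hpi, ← intervalIntegral.integral_of_le hpi]
  rw [intervalIntegral.integral_comp_sub_right (fun x => G x σ) σ]
  have hper : Function.Periodic (fun x => G x σ) (2 * Real.pi) := fun x => hGp x σ
  have h9 := hper.intervalIntegral_add_eq (0 - σ) 0
  have e3 : 0 - σ + 2 * Real.pi = 2 * Real.pi - σ := by ring
  rw [zero_add, e3] at h9
  exact h9

theorem swap (n τ : ℝ → ℝ) (hn : IsP n) (hτ : IsTau n τ) (l : ℝ) :
    ∫ s in (0:ℝ)..(2 * Real.pi), (∫ t in (τ s)..s, kk n l s t) =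
      ∫ t in (0:ℝ)..(2 * Real.pi), (∫ σ in (0:ℝ)..(om n t), kk n l (t + σ) t) := by
  obtain ⟨m, hm, hml⟩ := hn.low
  obtain ⟨L, hL⟩ := hn.lip
  have hnc : Continuous n := hL.continuous
  have hnm : Measurable n := hnc.measurable
  have hDm : Measurable (deriv n) := measurable_deriv n
  have hDb : ∀ t, |deriv n t| ≤ L := fun t => by
    rw [← Real.norm_eq_abs]; exact norm_deriv_le_of_lipschitz hL
  have hDp : ∀ t, deriv n (t + 2 * Real.pi) = deriv n t := by
    intro t
    rw [← deriv_comp_add_const]
    congr 1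
    funext x
    exact hn.per x
  have homm : Measurable (om n) := by
    unfold om
    exact Real.measurable_arctan.comp (hDm.div hnm)
  have homp : ∀ t, om n (t + 2 * Real.pi) = om n t := by
    intro t
    unfold om
    rw [hDp, hn.per]
  have homb1 : ∀ t, om n t < 2 := by
    intro t
    have h1 := Real.arctan_lt_pi_div_two (deriv n t / n t)
    have h2 := Real.pi_lt_d2
    unfold om
    linarith
  have homb2 : ∀ t, -2 < om n t := by
    intro t
    have h1 := Real.neg_pi_div_two_lt_arctan (deriv n t / n t)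
    have h2 := Real.pi_lt_d2
    unfold om
    linarith
  have hkkb : ∃ M : ℝ, 0 ≤ M ∧ ∀ s t, |kk n l s t| ≤ M := by
    refine ⟨2 * (1 / m + |l|) * (1 / m + L / m ^ 2), by positivity, ?_⟩
    intro s t
    unfold kk
    have hnt : 0 < n t := lt_of_lt_of_le hm (hml t)
    rw [abs_mul, abs_mul, abs_of_pos (show (0:ℝ) < 2 by norm_num)]
    have a1 : |Real.cos (s - t) / n t - l| ≤ 1 / m + |l| := by
      refine (abs_sub _ _).trans ?_
      gcongr
      rw [abs_div, abs_of_pos hnt]
      gcongr
      · exact Real.abs_cos_le_one _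
      · exact hml t
    have a2 : |Real.sin (s - t) / n t - Real.cos (s - t) * deriv n t / n t ^ 2| ≤ 1 / m + L / m ^ 2 := by
      refine (abs_sub _ _).trans ?_
      have b1 : |Real.sin (s - t) / n t| ≤ 1 / m := by
        rw [abs_div, abs_of_pos hnt]
        gcongr
        · exact Real.abs_sin_le_one _
        · exact hml t
      have b2 : |Real.cos (s - t) * deriv n t / n t ^ 2| ≤ L / m ^ 2 := by
        rw [abs_div, abs_mul, abs_of_pos (show 0 < n t ^ 2 by positivity)]
        have c1 : |Real.cos (s - t)| * |deriv n t| ≤ 1 * L :=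
          mul_le_mul (Real.abs_cos_le_one _) (hDb t) (abs_nonneg _) zero_le_one
        rw [one_mul] at c1
        gcongr
        exact hml t
      linarith
    exact mul_le_mul (mul_le_mul_of_nonneg_left a1 (by norm_num)) a2 (abs_nonneg _) (by positivity)
  obtain ⟨M, hM0, hM⟩ := hkkb
  set G : ℝ → ℝ → ℝ := fun t σ => chi 0 (om n t) σ * kk n l (t + σ) t with hG
  have hGm : Measurable (fun p : ℝ × ℝ => G p.1 p.2) := by
    rw [hG]
    simp only
    apply Measurable.mul
    · unfold chi
      have ho : Measurable (fun p : ℝ × ℝ => om n p.1) := homm.comp measurable_fst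
      refine Measurable.ite ?_ measurable_const (Measurable.ite ?_ measurable_const measurable_const)
      · exact (measurableSet_lt measurable_const measurable_snd).inter (measurableSet_lt measurable_snd ho)
      · exact (measurableSet_lt ho measurable_snd).inter (measurableSet_lt measurable_snd measurable_const)
    · unfold kk
      have h1 : Measurable (fun p : ℝ × ℝ => n p.1) := hnm.comp measurable_fst
      have h2 : Measurable (fun p : ℝ × ℝ => deriv n p.1) := hDm.comp measurable_fst
      fun_prop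
  have hGb : ∀ t σ, |G t σ| ≤ M := by
    intro t σ
    rw [hG]
    simp only
    rw [abs_mul]
    calc |chi 0 (om n t) σ| * |kk n l (t + σ) t| ≤ 1 * M :=
          mul_le_mul (chi_abs _ _ _) (hM _ _) (abs_nonneg _) zero_le_one
      _ = M := one_mul _
  have hGp : ∀ t σ, G (t + 2 * Real.pi) σ = G t σ := by
    intro t σ
    rw [hG]
    simp only
    rw [homp]
    congr 1
    unfold kk
    rw [hDp, hn.per]
    have e1 : t + 2 * Real.pi + σ - (t + 2 * Real.pi) = t + σ - t := by ring
    rw [e1]
  have hG0 : ∀ t σ, σ ∉ Icc (-2:ℝ) 2 → G t σ = 0 := by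
    intro t σ hσ
    rw [hG]
    simp only
    unfold chi
    have h1 := homb1 t
    have h2 := homb2 t
    rw [if_neg, if_neg, zero_mul]
    · rintro ⟨h3, h4⟩
      exact hσ ⟨by linarith, by linarith⟩
    · rintro ⟨h3, h4⟩
      exact hσ ⟨by linarith, by linarith⟩
  -- right side
  have hR : ∀ t, ∫ σ in (0:ℝ)..(om n t), kk n l (t + σ) t = ∫ σ, G t σ := fun t => chi_int _ _ _
  -- a.e. statement
  have hdiff : ∀ᵐ t, DifferentiableAt ℝ n t := hL.ae_differentiableAt
  have hnull : ∀ᵐ s : ℝ, ∀ᵐ t : ℝ, s ≠ t + om n t := by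
    have hms : MeasurableSet {x : ℝ × ℝ | x.1 ≠ x.2 + om n x.2} := by
      apply MeasurableSet.compl
      exact measurableSet_eq_fun measurable_fst (measurable_snd.add (homm.comp measurable_snd))
    rw [Measure.ae_ae_comm hms]
    refine Filter.Eventually.of_forall fun t => ?_
    have : ({t + om n t} : Set ℝ)ᶜ ∈ ae (volume : Measure ℝ) := by
      rw [mem_ae_iff, compl_compl]
      simp
    filter_upwards [this] with s hs
    exact hs
  have hL' : ∀ᵐ s : ℝ, ∫ t in (τ s)..s, kk n l s t = ∫ σ, G (s - σ) σ := by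
    filter_upwards [hnull] with s hs
    rw [chi_int]
    have h1 : ∫ t, chi (τ s) s t * kk n l s t = ∫ t, chi 0 (om n t) (s - t) * kk n l s t := by
      refine integral_congr_ae ?_
      have hne1 : ∀ᵐ t : ℝ, t ≠ τ s := by
        have : ({τ s} : Set ℝ)ᶜ ∈ ae (volume : Measure ℝ) := by
          rw [mem_ae_iff, compl_compl]; simp
        filter_upwards [this] with t ht
        exact ht
      filter_upwards [hs, hdiff, hne1] with t h1 h2 h3
      obtain ⟨r1, r2, r3, r4⟩ := region n τ hn hτ s t h2
      congr 1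
      unfold chi
      by_cases c1 : τ s < t ∧ t < s
      · have := r1 c1.1 c1.2
        have h4 : s < t + om n t := lt_of_le_of_ne this h1
        rw [if_pos c1, if_pos ⟨by linarith [c1.2], by linarith⟩]
      · rw [if_neg c1]
        have c1' : ¬ (0 < s - t ∧ s - t < om n t) := by
          rintro ⟨h4, h5⟩
          have h6 := r2 (by linarith) (by linarith)
          exact c1 ⟨lt_of_le_of_ne h6 (Ne.symm h3), by linarith⟩
        rw [if_neg c1']
        by_cases c2 : s < t ∧ t < τ s
        · have := r3 c2.1 c2.2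
          have h4 : t + om n t < s := lt_of_le_of_ne this (Ne.symm h1)
          rw [if_pos c2, if_pos ⟨by linarith, by linarith [c2.1]⟩]
        · rw [if_neg c2]
          have c2' : ¬ (om n t < s - t ∧ s - t < 0) := by
            rintro ⟨h4, h5⟩
            have h6 := r4 (by linarith) (by linarith)
            exact c2 ⟨by linarith, lt_of_le_of_ne h6 h3⟩
          rw [if_neg c2']
    rw [h1]
    rw [← integral_sub_left_eq_self (fun t => chi 0 (om n t) (s - t) * kk n l s t) volume s]
    congr 1
    funext σ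
    rw [hG]
    simp only
    rw [sub_sub_cancel, sub_add_cancel]
  have hLHS : ∫ s in (0:ℝ)..(2 * Real.pi), (∫ t in (τ s)..s, kk n l s t) =
      ∫ s in (0:ℝ)..(2 * Real.pi), (∫ σ, G (s - σ) σ) := by
    refine intervalIntegral.integral_congr_ae ?_
    filter_upwards [hL'] with s hs _
    exact hs
  rw [hLHS]
  simp_rw [hR]
  exact fub G M hGm hGb hGp hG0

end Pool.Agent.Helper584.PG
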