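import Pool.Agent.Helper584.PG.Defs

set_option autoImplicit false

open MeasureTheory Set Filter Topology

noncomputable section

namespace Pool.Agent.Helper584.PG



theorem tau_ex (n : ℝ → ℝ) (hn : IsP n) : ∃ τ : ℝ → ℝ, IsTau n τ ∧
    Continuous (fun s => Real.cos (s - τ s) / n (τ s)) := by
  obtain ⟨m, hm, hmn⟩ := hn.low
  obtain ⟨L, hL⟩ := hn.lip
  have hpos : ∀ t, 0 < n t := fun t => hm.trans_le (hmn t)
  have hex : ∀ s : ℝ, ∃ τ : ℝ, |τ - s| < Real.pi / 2 ∧
      ∀ t, Real.cos (s - t) / n t ≤ Real.cos (s - τ) / n τ := by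
    intro s
    have hcont : Continuous (fun t => Real.cos (s - t) / n t) :=
      (Real.continuous_cos.comp (continuous_const.sub continuous_id)).div hL.continuous
        (fun t => (hpos t).ne')
    obtain ⟨τ, hτ, hmax⟩ := isCompact_Icc.exists_isMaxOn
      (⟨s, by constructor <;> linarith [Real.pi_pos]⟩ : (Icc (s - Real.pi) (s + Real.pi)).Nonempty)
      hcont.continuousOn
    have hper : Function.Periodic (fun t => Real.cos (s - t) / n t) (2 * Real.pi) := by
      intro t
      beta_reduce
      rw [hn.per]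
      have : s - (t + 2 * Real.pi) = (s - t) - 2 * Real.pi := by ring
      rw [this, Real.cos_sub_two_pi]
    have hall : ∀ t, Real.cos (s - t) / n t ≤ Real.cos (s - τ) / n τ := by
      intro t
      obtain ⟨y, hy, hty⟩ := hper.exists_mem_Ico (by linarith [Real.pi_pos] : 0 < 2 * Real.pi)
        t (s - Real.pi)
      beta_reduce at hty
      rw [hty]
      exact hmax ⟨hy.1, by linarith [hy.2]⟩
    refine ⟨τ, ?_, hall⟩
    have h1 := hall s
    rw [sub_self, Real.cos_zero] at h1
    have h2 : 0 < Real.cos (s - τ) / n τ := lt_of_lt_of_le (one_div_pos.2 (hpos s)) h1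
    have h3 : 0 < Real.cos (s - τ) := by
      by_contra hcon
      have : Real.cos (s - τ) / n τ ≤ 0 :=
        div_nonpos_of_nonpos_of_nonneg (not_lt.1 hcon) (hpos τ).le
      linarith
    by_contra hcon
    have h4 : Real.cos (|τ - s|) ≤ 0 := by
      apply Real.cos_nonpos_of_pi_div_two_le_of_le (not_lt.1 hcon)
      have : |τ - s| ≤ Real.pi := abs_le.2 ⟨by linarith [hτ.1], by linarith [hτ.2]⟩
      linarith [Real.pi_pos]
    rw [Real.cos_abs, ← Real.cos_neg, neg_sub] at h4
    linarith
  choose τ hτ1 hτ2 using hex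
  refine ⟨τ, fun s => ⟨hτ1 s, hτ2 s⟩, ?_⟩
  have hlip : LipschitzWith (Real.toNNReal (1 / m))
      (fun s => Real.cos (s - τ s) / n (τ s)) := by
    apply LipschitzWith.of_le_add_mul'
    intro x y
    have h1 := hτ2 y (τ x)
    have h2 : Real.cos (x - τ x) / n (τ x) - Real.cos (y - τ x) / n (τ x) ≤ 1 / m * dist x y := by
      rw [← sub_div, Real.dist_eq]
      have h3 : Real.cos (x - τ x) - Real.cos (y - τ x) ≤ |x - y| := by
        refine (le_abs_self _).trans ((Real.abs_cos_sub_cos_le _ _).trans (le_of_eq ?_))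
        congr 1
        ring
      calc (Real.cos (x - τ x) - Real.cos (y - τ x)) / n (τ x) ≤ |x - y| / n (τ x) :=
            div_le_div_of_nonneg_right h3 (hpos _).le
        _ ≤ |x - y| / m := div_le_div_of_nonneg_left (abs_nonneg _) hm (hmn _)
        _ = 1 / m * |x - y| := by ring
    linarith
  exact hlip.continuous

end Pool.Agent.Helper584.PG
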