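import Pool.Agent.Helper584.PG.Defs
import Pool.Agent.Helper584.PG.P_tau_ex
import Pool.Agent.Helper584.PG.P_inner_s
import Pool.Agent.Helper584.PG.P_inner_t
import Pool.Agent.Helper584.PG.P_swap
import Pool.Agent.Helper584.PG.P_pl_int

set_option autoImplicit false

open MeasureTheory Set Filter Topology

noncomputable section

namespace Pool.Agent.Helper584.PG



theorem planar (n τ : ℝ → ℝ) (hn : IsP n) (hτ : IsTau n τ) (l : ℝ) :
    (∫ t in (0:ℝ)..(2 * Real.pi), plT n t) - 2 * l * (∫ t in (0:ℝ)..(2 * Real.pi), plS n t)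
      + 2 * Real.pi * l ^ 2 =
    ∫ s in (0:ℝ)..(2 * Real.pi), (Real.cos (s - τ s) / n (τ s) - l) ^ 2 := by
  obtain ⟨m, hm, hlow⟩ := hn.low
  obtain ⟨L, hL⟩ := hn.lip
  have hnc : Continuous n := hL.continuous
  have hne : ∀ t, n t ≠ 0 := fun t => ne_of_gt (lt_of_lt_of_le hm (hlow t))
  obtain ⟨τ', hτ', hc'⟩ := tau_ex n hn
  have hheq : (fun s => Real.cos (s - τ s) / n (τ s)) =
      fun s => Real.cos (s - τ' s) / n (τ' s) := by
    funext s
    exact le_antisymm ((hτ' s).2 (τ s)) ((hτ s).2 (τ' s))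
  have hc : Continuous (fun s => Real.cos (s - τ s) / n (τ s)) := by
    rw [hheq]; exact hc'
  have hA : Continuous (fun s => (1 / n s - l) ^ 2) :=
    ((continuous_const.div hnc hne).sub continuous_const).pow 2
  have hB : Continuous (fun s => (Real.cos (s - τ s) / n (τ s) - l) ^ 2) :=
    (hc.sub continuous_const).pow 2
  obtain ⟨hT, hS⟩ := pl_int n hn
  have h1 := swap n τ hn hτ l
  have h2 : ∫ s in (0:ℝ)..(2 * Real.pi), (∫ t in (τ s)..s, kk n l s t) =
      (∫ s in (0:ℝ)..(2 * Real.pi), (1 / n s - l) ^ 2) -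
        ∫ s in (0:ℝ)..(2 * Real.pi), (Real.cos (s - τ s) / n (τ s) - l) ^ 2 := by
    rw [← intervalIntegral.integral_sub (hA.intervalIntegrable _ _) (hB.intervalIntegrable _ _)]
    exact intervalIntegral.integral_congr (fun s _ => inner_s n τ hn hτ l s)
  have hJ : ∀ t, (∫ σ in (0:ℝ)..(om n t), kk n l (t + σ) t) =
      (1 / n t - l) ^ 2 - (plT n t - 2 * l * plS n t + l ^ 2) := by
    intro t
    have := inner_t n hn l t
    linarith
  have hint : IntervalIntegrable (fun t => plT n t - 2 * l * plS n t + l ^ 2) volume 0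
      (2 * Real.pi) :=
    (hT.sub (hS.const_mul (2 * l))).add intervalIntegrable_const
  have h3 : ∫ t in (0:ℝ)..(2 * Real.pi), (∫ σ in (0:ℝ)..(om n t), kk n l (t + σ) t) =
      (∫ s in (0:ℝ)..(2 * Real.pi), (1 / n s - l) ^ 2) -
        ∫ t in (0:ℝ)..(2 * Real.pi), (plT n t - 2 * l * plS n t + l ^ 2) := by
    rw [← intervalIntegral.integral_sub (hA.intervalIntegrable _ _) hint]
    exact intervalIntegral.integral_congr (fun t _ => hJ t)
  have h4 : ∫ t in (0:ℝ)..(2 * Real.pi), (plT n t - 2 * l * plS n t + l ^ 2) =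
      (∫ t in (0:ℝ)..(2 * Real.pi), plT n t) - 2 * l * (∫ t in (0:ℝ)..(2 * Real.pi), plS n t)
      + 2 * Real.pi * l ^ 2 := by
    rw [intervalIntegral.integral_add (hT.sub (hS.const_mul (2 * l))) intervalIntegrable_const,
      intervalIntegral.integral_sub hT (hS.const_mul (2 * l)),
      intervalIntegral.integral_const_mul, intervalIntegral.integral_const]
    simp
  rw [h2, h3, h4] at h1
  linarith

end Pool.Agent.Helper584.PG
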