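import Pool.Agent.Helper584.PG.Defs
import Pool.Agent.Helper584.PG.P_tau_ex
import Pool.Agent.Helper584.PG.P_planar

set_option autoImplicit false

open MeasureTheory Set Filter Topology

noncomputable section

namespace Pool.Agent.Helper584.PG



theorem planar_eq (n : ℝ → ℝ) (hn : IsP n) (l : ℝ) :
    0 ≤ (∫ t in (0:ℝ)..(2 * Real.pi), plT n t) - 2 * l * (∫ t in (0:ℝ)..(2 * Real.pi), plS n t)
      + 2 * Real.pi * l ^ 2 ∧
    ((∫ t in (0:ℝ)..(2 * Real.pi), plT n t) - 2 * l * (∫ t in (0:ℝ)..(2 * Real.pi), plS n t)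
      + 2 * Real.pi * l ^ 2 ≤ 0 → ∀ t, l * n t = 1) := by
  obtain ⟨τ, hτ, hcont⟩ := tau_ex n hn
  have hpi := Real.pi_pos
  obtain ⟨m, hm, hmn⟩ := hn.low
  have hnpos : ∀ t, 0 < n t := fun t => lt_of_lt_of_le hm (hmn t)
  rw [planar n τ hn hτ l]
  refine ⟨intervalIntegral.integral_nonneg (by positivity) fun s _ => sq_nonneg _, ?_⟩
  intro hle
  set h : ℝ → ℝ := fun s => Real.cos (s - τ s) / n (τ s) with hh
  have hmax : ∀ s t, Real.cos (s - t) / n t ≤ h s := fun s t => (hτ s).2 t
  have hI : ∀ c ∈ Icc (0 : ℝ) (2 * Real.pi), h c = l := by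
    intro c hc
    by_contra hne
    have hpos : 0 < ∫ s in (0:ℝ)..(2 * Real.pi), (Real.cos (s - τ s) / n (τ s) - l) ^ 2 := by
      apply intervalIntegral.integral_pos (by positivity)
      · exact ((hcont.sub continuous_const).pow 2).continuousOn
      · intro x _
        exact sq_nonneg _
      · exact ⟨c, hc, by
          have : Real.cos (c - τ c) / n (τ c) - l ≠ 0 := sub_ne_zero.mpr hne
          positivity⟩
    exact absurd hpos (not_lt.mpr hle)
  have hper : Function.Periodic h (2 * Real.pi) := by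
    intro s
    apply le_antisymm
    · have h1 := hmax s (τ (s + 2 * Real.pi))
      have h2 : h (s + 2 * Real.pi) =
          Real.cos (s - τ (s + 2 * Real.pi)) / n (τ (s + 2 * Real.pi)) := by
        rw [hh]
        simp only
        rw [show s + 2 * Real.pi - τ (s + 2 * Real.pi) = (s - τ (s + 2 * Real.pi)) + 2 * Real.pi by
          ring, Real.cos_add_two_pi]
      rw [h2]
      exact h1
    · have h1 := hmax (s + 2 * Real.pi) (τ s)
      rw [show s + 2 * Real.pi - τ s = (s - τ s) + 2 * Real.pi by ring, Real.cos_add_two_pi] at h1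
      exact h1
  have hall : ∀ s, h s = l := by
    intro s
    obtain ⟨y, hy, hsy⟩ := hper.exists_mem_Ico₀ (by positivity) s
    rw [hsy]
    exact hI y ⟨hy.1, hy.2.le⟩
  have hone : ∀ t, 1 / n t ≤ l := by
    intro t
    have h1 := hmax t t
    rw [sub_self, Real.cos_zero, hall t] at h1
    exact h1
  intro s
  have hc : 0 < Real.cos (s - τ s) := by
    have h1 := (hτ s).1
    rw [abs_lt] at h1
    apply Real.cos_pos_of_mem_Ioo
    constructor <;> linarith [h1.1, h1.2]
  have hl : l = Real.cos (s - τ s) / n (τ s) := (hall s).symm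
  have h2 : l ≤ Real.cos (s - τ s) * l := by
    calc l = Real.cos (s - τ s) * (1 / n (τ s)) := by rw [hl]; ring
      _ ≤ Real.cos (s - τ s) * l := mul_le_mul_of_nonneg_left (hone _) hc.le
  have hlpos : 0 < l := lt_of_lt_of_le (by have := hnpos s; positivity) (hone s)
  have h3 : 1 ≤ Real.cos (s - τ s) := by
    by_contra hlt
    push Not at hlt
    have := mul_lt_mul_of_pos_right hlt hlpos
    linarith
  have h4 : Real.cos (s - τ s) = 1 := le_antisymm (Real.cos_le_one _) h3
  have h5 : s - τ s = 0 := by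
    have h1 := (hτ s).1
    rw [abs_lt] at h1
    exact (Real.cos_eq_one_iff_of_lt_of_lt (by linarith [h1.1, h1.2]) (by linarith [h1.1, h1.2])).1 h4
  have h6 : τ s = s := by linarith
  rw [h6, sub_self, Real.cos_zero] at hl
  rw [hl]
  have := (hnpos s).ne'
  field_simp

end Pool.Agent.Helper584.PG
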