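import Pool.Agent.Helper584.PG.Defs
import Pool.Agent.Helper584.PG.P_fr_basic
import Pool.Agent.Helper584.PG.P_r_alg
import Pool.Agent.Helper584.PG.P_fm_exists
import Pool.Agent.Helper584.PG.P_orbit_avg
import Pool.Agent.Helper584.PG.P_nn_isP
import Pool.Agent.Helper584.PG.P_planar_eq
import Pool.Agent.Helper584.PG.P_N_orbit
import Pool.Agent.Helper584.PG.P_S_chain
import Pool.Agent.Helper584.PG.P_S_meas
import Pool.Agent.Helper584.PG.P_main_T

set_option autoImplicit false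

open MeasureTheory Set Filter Topology

noncomputable section

namespace Pool.Agent.Helper584.PG



theorem final_N_frame (x : E) (hx : ‖x‖ = 1) : ∃ g ∈ Fr, g.1 = x := by
  have h1 : Orthonormal ℝ (({0} : Set (Fin 3)).domRestrict (fun _ : Fin 3 => x)) := by
    constructor
    · intro i
      exact hx
    · intro i j hij
      exact absurd (Subsingleton.elim i j) hij
  obtain ⟨B, hB⟩ := Orthonormal.exists_orthonormalBasis_extension_of_card_eq (𝕜 := ℝ) (E := E)
    (ι := Fin 3) (by simp) h1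
  have h0 : B 0 = x := hB 0 rfl
  have hi : ∀ i j : Fin 3, inner ℝ (B i) (B j) = if i = j then (1:ℝ) else 0 :=
    orthonormal_iff_ite.1 B.orthonormal
  refine ⟨(B 0, B 1, B 2), ⟨B.norm_eq_one 0, B.norm_eq_one 1, B.norm_eq_one 2, ?_, ?_, ?_⟩, h0⟩
  · change inner ℝ (B 0) (B 1) = (0:ℝ)
    rw [hi]; simp
  · change inner ℝ (B 0) (B 2) = (0:ℝ)
    rw [hi]; simp
  · change inner ℝ (B 1) (B 2) = (0:ℝ)
    rw [hi]; simp

theorem final_N (N : E → ℝ) (hN : IsG N) (c : ℝ)
    (hc : ∀ g ∈ Fr, ∫ t in (0:ℝ)..(2 * Real.pi), plS (nn N g) t = 2 * Real.pi * c)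
    (x : E) (hx : ‖x‖ = 1) : c * N x = 1 := by
  obtain ⟨μ, hμ⟩ := fm_exists
  have hprob := hμ.prob
  obtain ⟨-, -, hTm, -, B, hB⟩ := S_meas N hN
  obtain ⟨-, hAint, hAavg⟩ := orbit_avg μ hμ (pT N) hTm B (fun g hg => (hB g hg).2.2.1)
  have hmain := main_T μ hμ N hN c hc
  have hpi := Real.pi_pos
  -- the orbit integral is the planar integral
  have hae : ∀ᵐ g ∂μ, (∫ t in (0:ℝ)..(2 * Real.pi), pT N (rX t g)) =
      ∫ t in (0:ℝ)..(2 * Real.pi), plT (nn N g) t := by
    filter_upwards [N_orbit μ hμ N hN] with g hg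
    refine intervalIntegral.integral_congr_ae ?_
    filter_upwards [hg] with t ht _
    exact (S_chain N hN g t ht).2.2
  have hFr : ∀ᵐ g ∂μ, g ∈ Fr := by
    rw [ae_iff]
    exact hμ.supp
  have hge : ∀ᵐ g ∂μ, 0 ≤ (∫ t in (0:ℝ)..(2 * Real.pi), pT N (rX t g)) - 2 * Real.pi * c ^ 2 := by
    filter_upwards [hae, hFr] with g h1 h2
    have h3 := (planar_eq (nn N g) (nn_isP N hN g h2) c).1
    rw [hc g h2, ← h1] at h3
    nlinarith
  have hint : Integrable (fun g => (∫ t in (0:ℝ)..(2 * Real.pi), pT N (rX t g)) -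
      2 * Real.pi * c ^ 2) μ := hAint.sub (integrable_const _)
  have hle : ∫ g, ((∫ t in (0:ℝ)..(2 * Real.pi), pT N (rX t g)) - 2 * Real.pi * c ^ 2) ∂μ ≤ 0 := by
    rw [integral_sub hAint (integrable_const _), hAavg, integral_const, probReal_univ]
    rw [one_smul]
    nlinarith
  have heq : ∫ g, ((∫ t in (0:ℝ)..(2 * Real.pi), pT N (rX t g)) - 2 * Real.pi * c ^ 2) ∂μ = 0 :=
    le_antisymm hle (integral_nonneg_of_ae hge)
  have hzero := (integral_eq_zero_iff_of_nonneg_ae hge hint).1 heq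
  have hfin : ∀ᵐ g ∂μ, c * N g.1 = 1 := by
    filter_upwards [hzero, hae, hFr] with g h1 h2 h3
    have h4 : (∫ t in (0:ℝ)..(2 * Real.pi), pT N (rX t g)) - 2 * Real.pi * c ^ 2 = 0 := h1
    have h5 := (planar_eq (nn N g) (nn_isP N hN g h3) c).2
    rw [hc g h3, ← h2] at h5
    have h6 := h5 (by nlinarith) 0
    have h7 : nn N g 0 = N g.1 := by
      unfold nn cv
      rw [Real.cos_zero, Real.sin_zero, one_smul, zero_smul, add_zero]
    rw [h7] at h6
    exact h6
  by_contra hne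
  obtain ⟨L, hL⟩ := hN.lip
  have hopen : IsOpen {g : T | c * N g.1 ≠ 1} := by
    have hcont : Continuous fun g : T => c * N g.1 :=
      continuous_const.mul (hL.continuous.comp continuous_fst)
    exact isOpen_ne_fun hcont continuous_const
  obtain ⟨g, hg1, hg2⟩ := final_N_frame x hx
  refine hμ.pos _ hopen ⟨g, ?_, hg1⟩ ?_
  · change c * N g.1 ≠ 1
    rw [hg2]
    exact hne
  · rw [ae_iff] at hfin
    exact hfin

end Pool.Agent.Helper584.PG
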