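import Pool.Agent.Helper584.PG.Defs

set_option autoImplicit false

open MeasureTheory Set Filter Topology

noncomputable section

namespace Pool.Agent.Helper584.PG



theorem gauge_isG (K : Set E) (h1 : IsCompact K) (h2 : Convex ℝ K) (h3 : (interior K).Nonempty)
    (h4 : ∀ x ∈ K, -x ∈ K) : IsG (gauge K) ∧ K = {x | gauge K x ≤ 1} := by
  
  obtain ⟨x, hx⟩ := h3
  have h0 : (0 : E) ∈ interior K := by
    have h := h2.combo_interior_self_mem_interior hx (h4 x (interior_subset hx))
      (show (0:ℝ) < 1/2 by norm_num) (show (0:ℝ) ≤ 1/2 by norm_num) (by norm_num)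
    rwa [smul_neg, add_neg_cancel] at h
  have hnhds : K ∈ 𝓝 (0 : E) := mem_interior_iff_mem_nhds.1 h0
  have habs : Absorbent ℝ K := absorbent_nhds_zero hnhds
  refine ⟨⟨⟨convex_univ, ?_⟩, ?_, ?_, ?_, ?_⟩, ?_⟩
  · intro y _ z _ a b ha hb _
    refine (gauge_add_le h2 habs _ _).trans ?_
    rw [gauge_smul_of_nonneg ha, gauge_smul_of_nonneg hb]
  · intro r hr y
    rw [gauge_smul_of_nonneg hr, smul_eq_mul]
  · intro y
    exact gauge_neg h4 y
  · intro y hy
    exact (gauge_pos habs ((NormedSpace.isVonNBounded_iff ℝ).2 h1.isBounded)).2 hy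
  · exact h2.lipschitz_gauge hnhds
  · ext y
    rw [Set.mem_ofPred_eq, gauge_le_one_iff_mem_closure h2 hnhds, h1.isClosed.closure_eq]

end Pool.Agent.Helper584.PG
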