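import Pool.Agent.Helper584.PG.Defs

set_option autoImplicit false

open MeasureTheory Set Filter Topology

noncomputable section

namespace Pool.Agent.Helper584.PG



theorem len_chord (β : ℝ → E) (hβ : Continuous β) (a b : ℝ) (hab : a < b) :
    ENNReal.ofReal ‖β b - β a‖ ≤ Measure.hausdorffMeasure (1:ℝ) (β '' Ico a b) := by
  by_cases h0 : β b - β a = 0
  · rw [h0, norm_zero, ENNReal.ofReal_zero]
    exact zero_le
  have hn : 0 < ‖β b - β a‖ := norm_pos_iff.2 h0
  set u : E := (‖β b - β a‖)⁻¹ • (β b - β a) with hu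
  have hu1 : ‖u‖ = 1 := by
    rw [hu, norm_smul, norm_inv, norm_norm, inv_mul_cancel₀ hn.ne']
  have hP : LipschitzWith 1 (fun y : E => (inner ℝ u y : ℝ)) := by
    apply LipschitzWith.of_dist_le_mul
    intro y z
    rw [Real.dist_eq, ← inner_sub_right, NNReal.coe_one, one_mul, dist_eq_norm]
    calc |(inner ℝ u (y - z) : ℝ)| ≤ ‖u‖ * ‖y - z‖ := abs_real_inner_le_norm _ _
      _ = ‖y - z‖ := by rw [hu1, one_mul]
  have hfc : Continuous (fun t : ℝ => (inner ℝ u (β t) : ℝ)) := continuous_const.inner hβ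
  have hdiff : (inner ℝ u (β b) : ℝ) - inner ℝ u (β a) = ‖β b - β a‖ := by
    rw [← inner_sub_right, hu, real_inner_smul_left, real_inner_self_eq_norm_sq]
    field_simp
  have hIVT := intermediate_value_Ico hab.le hfc.continuousOn
  have him : (fun t : ℝ => (inner ℝ u (β t) : ℝ)) '' Ico a b =
      (fun y : E => (inner ℝ u y : ℝ)) '' (β '' Ico a b) := by
    rw [Set.image_image]
  calc ENNReal.ofReal ‖β b - β a‖
      = volume (Ico (inner ℝ u (β a) : ℝ) (inner ℝ u (β b) : ℝ)) := by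
        rw [Real.volume_Ico, hdiff]
    _ ≤ volume ((fun t : ℝ => (inner ℝ u (β t) : ℝ)) '' Ico a b) := measure_mono hIVT
    _ = Measure.hausdorffMeasure (1:ℝ) ((fun y : E => (inner ℝ u y : ℝ)) '' (β '' Ico a b)) := by
        rw [him, hausdorffMeasure_real]
    _ ≤ ((1 : NNReal) : ENNReal) ^ (1:ℝ) * Measure.hausdorffMeasure (1:ℝ) (β '' Ico a b) :=
        hP.hausdorffMeasure_image_le zero_le_one _
    _ = Measure.hausdorffMeasure (1:ℝ) (β '' Ico a b) := by
        rw [ENNReal.coe_one, ENNReal.one_rpow, one_mul]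

end Pool.Agent.Helper584.PG
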