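import Pool.Agent.Helper584.PG.Defs
import Pool.Agent.Helper584.PG.P_len_chord

set_option autoImplicit false

open MeasureTheory Set Filter Topology

noncomputable section

namespace Pool.Agent.Helper584.PG



theorem len_lower_inj (β : ℝ → E) (hp : ∀ t, β (t + 2 * Real.pi) = β t)
    (hi : InjOn β (Ico 0 (2 * Real.pi))) (s : ℝ) : InjOn β (Ico s (s + 2 * Real.pi)) := by
  have hP : (0:ℝ) < 2 * Real.pi := Real.two_pi_pos
  have hper : Function.Periodic β (2 * Real.pi) := hp
  have e1 : ∀ t, β (toIcoMod hP 0 t) = β t := by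
    intro t
    rw [toIcoMod]
    exact hper.sub_zsmul_eq _
  have hm : ∀ t, toIcoMod hP 0 t ∈ Ico (0:ℝ) (2 * Real.pi) := by
    intro t
    have := toIcoMod_mem_Ico hP 0 t
    rwa [zero_add] at this
  intro t ht t' ht' h
  have h2 := hi (hm t) (hm t') ((e1 t).trans (h.trans (e1 t').symm))
  rw [toIcoMod, toIcoMod, zsmul_eq_mul, zsmul_eq_mul] at h2
  set k := toIcoDiv hP 0 t
  set k' := toIcoDiv hP 0 t'
  rcases lt_trichotomy k k' with hk | hk | hk
  · exfalso
    have h3 : (k : ℝ) + 1 ≤ k' := by exact_mod_cast hk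
    have h4 : ((k : ℝ) + 1) * (2 * Real.pi) ≤ k' * (2 * Real.pi) :=
      mul_le_mul_of_nonneg_right h3 hP.le
    linarith [ht.1, ht.2, ht'.1, ht'.2]
  · rw [hk] at h2
    linarith
  · exfalso
    have h3 : (k' : ℝ) + 1 ≤ k := by exact_mod_cast hk
    have h4 : ((k' : ℝ) + 1) * (2 * Real.pi) ≤ k * (2 * Real.pi) :=
      mul_le_mul_of_nonneg_right h3 hP.le
    linarith [ht.1, ht.2, ht'.1, ht'.2]

theorem len_lower_sum (β : ℝ → E) (hβ : Continuous β) (hp : ∀ t, β (t + 2 * Real.pi) = β t)
    (hi : InjOn β (Ico 0 (2 * Real.pi))) (m : ℕ) (e : ℝ) (he : 0 < e)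
    (hme : (m : ℝ) * e = 2 * Real.pi) (s : ℝ) :
    ∑ i ∈ Finset.range m, ENNReal.ofReal ‖β (s + (i + 1) * e) - β (s + i * e)‖ ≤
      Measure.hausdorffMeasure (1:ℝ) (range β) := by
  have hinj := len_lower_inj β hp hi s
  have hup : ∀ i ∈ Finset.range m, s + ((i : ℝ) + 1) * e ≤ s + 2 * Real.pi := by
    intro i hi
    have h1 : (i : ℝ) + 1 ≤ m := by exact_mod_cast Finset.mem_range.1 hi
    have h2 : ((i : ℝ) + 1) * e ≤ m * e := mul_le_mul_of_nonneg_right h1 he.le
    linarith
  have hlo : ∀ i : ℕ, s ≤ s + (i : ℝ) * e := by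
    intro i
    have : 0 ≤ (i : ℝ) * e := by positivity
    linarith
  have hsub : ∀ i ∈ Finset.range m, Ico (s + (i : ℝ) * e) (s + ((i : ℝ) + 1) * e) ⊆
      Ico s (s + 2 * Real.pi) := by
    intro i hi t ht
    exact ⟨(hlo i).trans ht.1, lt_of_lt_of_le ht.2 (hup i hi)⟩
  have hdis : ∀ i ∈ Finset.range m, ∀ j ∈ Finset.range m, i < j →
      Disjoint (β '' Ico (s + (i : ℝ) * e) (s + ((i : ℝ) + 1) * e))
        (β '' Ico (s + (j : ℝ) * e) (s + ((j : ℝ) + 1) * e)) := by
    intro i hi j hj hij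
    rw [Set.disjoint_left]
    rintro x ⟨t, ht, rfl⟩ ⟨t', ht', h⟩
    have h1 := hinj (hsub j hj ht') (hsub i hi ht) h
    rw [h1] at ht'
    have h2 : (i : ℝ) + 1 ≤ j := by exact_mod_cast hij
    have h3 : ((i : ℝ) + 1) * e ≤ j * e := mul_le_mul_of_nonneg_right h2 he.le
    linarith [ht.2, ht'.1]
  calc ∑ i ∈ Finset.range m, ENNReal.ofReal ‖β (s + (i + 1) * e) - β (s + i * e)‖
      ≤ ∑ i ∈ Finset.range m, Measure.hausdorffMeasure (1:ℝ)
          (β '' Ico (s + (i : ℝ) * e) (s + ((i : ℝ) + 1) * e)) :=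
        Finset.sum_le_sum (fun i _ => len_chord β hβ _ _ (by nlinarith))
    _ = Measure.hausdorffMeasure (1:ℝ) (⋃ i ∈ Finset.range m,
          β '' Ico (s + (i : ℝ) * e) (s + ((i : ℝ) + 1) * e)) := by
        rw [measure_biUnion_finset]
        · intro i hi j hj hij
          rcases lt_or_gt_of_ne hij with h | h
          · exact hdis i hi j hj h
          · exact (hdis j hj i hi h).symm
        · intro i hi
          exact measurableSet_Ico.image_of_continuousOn_injOn hβ.continuousOn
            (hinj.mono (hsub i hi))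
    _ ≤ _ := measure_mono (by
        intro x hx
        simp only [Set.mem_iUnion] at hx
        obtain ⟨i, _, t, _, rfl⟩ := hx
        exact mem_range_self t)

theorem len_lower_int (β : ℝ → E) (hβ : Continuous β) (hp : ∀ t, β (t + 2 * Real.pi) = β t)
    (hi : InjOn β (Ico 0 (2 * Real.pi))) (m : ℕ) (e : ℝ) (he : 0 < e)
    (hme : (m : ℝ) * e = 2 * Real.pi)
    (hH : Measure.hausdorffMeasure (1:ℝ) (range β) ≠ ⊤) :
    ∫ t in (0:ℝ)..(2 * Real.pi), ‖β (t + e) - β t‖ ≤
      e * (Measure.hausdorffMeasure (1:ℝ) (range β)).toReal := by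
  have hs : ∀ s : ℝ, ∑ i ∈ Finset.range m, ‖β (s + i * e + e) - β (s + i * e)‖ ≤
      (Measure.hausdorffMeasure (1:ℝ) (range β)).toReal := by
    intro s
    have h1 := len_lower_sum β hβ hp hi m e he hme s
    rw [← ENNReal.ofReal_sum_of_nonneg (fun i _ => norm_nonneg _)] at h1
    rw [ENNReal.ofReal_le_iff_le_toReal hH] at h1
    refine le_trans (le_of_eq ?_) h1
    refine Finset.sum_congr rfl fun i _ => ?_
    congr 3
    ring
  have hc : Continuous (fun t => ‖β (t + e) - β t‖) := by fun_prop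
  have h1 := intervalIntegral.sum_integral_adjacent_intervals
    (f := fun t => ‖β (t + e) - β t‖) (μ := volume) (a := fun k : ℕ => (k : ℝ) * e) (n := m)
    (fun k _ => hc.intervalIntegrable _ _)
  simp only [Nat.cast_zero, zero_mul, hme] at h1
  rw [← h1]
  have h2 : ∀ k : ℕ, ∫ t in ((k : ℝ) * e)..(((k + 1 : ℕ) : ℝ) * e), ‖β (t + e) - β t‖ =
      ∫ s in (0:ℝ)..e, ‖β (s + k * e + e) - β (s + k * e)‖ := by
    intro k
    rw [intervalIntegral.integral_comp_add_right (fun t => ‖β (t + e) - β t‖) ((k : ℝ) * e)]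
    congr 1
    · ring
    · push_cast
      ring
  rw [Finset.sum_congr rfl (fun k _ => h2 k), ← intervalIntegral.integral_finsetSum]
  · calc ∫ s in (0:ℝ)..e, ∑ i ∈ Finset.range m, ‖β (s + i * e + e) - β (s + i * e)‖
        ≤ ∫ s in (0:ℝ)..e, (Measure.hausdorffMeasure (1:ℝ) (range β)).toReal := by
          apply intervalIntegral.integral_mono_on he.le
          · apply Continuous.intervalIntegrable
            fun_prop
          · exact intervalIntegrable_const
          · intro s _
            exact hs s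
      _ = e * (Measure.hausdorffMeasure (1:ℝ) (range β)).toReal := by
          rw [intervalIntegral.integral_const, sub_zero, smul_eq_mul]
  · intro i _
    apply Continuous.intervalIntegrable
    fun_prop

theorem len_lower (β : ℝ → E) (L : NNReal) (hβ : LipschitzWith L β)
    (hp : ∀ t, β (t + 2 * Real.pi) = β t) (hi : InjOn β (Ico 0 (2 * Real.pi))) :
    ENNReal.ofReal (∫ t in (0:ℝ)..(2 * Real.pi), ‖deriv β t‖) ≤
      Measure.hausdorffMeasure (1:ℝ) (range β) := by
  by_cases hH : Measure.hausdorffMeasure (1:ℝ) (range β) = ⊤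
  · rw [hH]
    exact le_top
  have hP := Real.two_pi_pos
  have hcont := hβ.continuous
  rw [ENNReal.ofReal_le_iff_le_toReal hH]
  set e : ℕ → ℝ := fun m => 2 * Real.pi / ((m : ℝ) + 1) with he
  have hepos : ∀ m, 0 < e m := fun m => by
    simp only [he]
    positivity
  have hlim : Tendsto (fun m : ℕ => ∫ t in (0:ℝ)..(2 * Real.pi),
      ‖(e m)⁻¹ • (β (t + e m) - β t)‖) atTop (𝓝 (∫ t in (0:ℝ)..(2 * Real.pi), ‖deriv β t‖)) := by
    apply intervalIntegral.tendsto_integral_filter_of_dominated_convergence (fun _ => (L : ℝ))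
    · refine Eventually.of_forall fun m => ?_
      apply Continuous.aestronglyMeasurable
      fun_prop
    · refine Eventually.of_forall fun m => Eventually.of_forall fun t _ => ?_
      rw [norm_norm, norm_smul, norm_inv, Real.norm_eq_abs, abs_of_pos (hepos m)]
      have h1 := hβ.dist_le_mul (t + e m) t
      rw [dist_eq_norm, dist_eq_norm, add_sub_cancel_left, Real.norm_eq_abs,
        abs_of_pos (hepos m)] at h1
      rw [inv_mul_le_iff₀ (hepos m)]
      linarith
    · exact intervalIntegrable_const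
    · have hae : ∀ᵐ t : ℝ, DifferentiableAt ℝ β t := hβ.ae_differentiableAt
      filter_upwards [hae] with t ht _
      have h1 := ht.hasDerivAt.tendsto_slope_zero
      have h2 : Tendsto e atTop (𝓝[≠] 0) := by
        rw [tendsto_nhdsWithin_iff]
        refine ⟨?_, Eventually.of_forall fun m => (hepos m).ne'⟩
        simp only [he]
        have := tendsto_one_div_add_atTop_nhds_zero_nat (𝕜 := ℝ)
        have h3 := this.const_mul (2 * Real.pi)
        rw [mul_zero] at h3
        refine h3.congr fun m => ?_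
        ring
      exact (h1.comp h2).norm
  refine le_of_tendsto' hlim fun m => ?_
  have h1 := len_lower_int β hcont hp hi (m + 1) (e m) (hepos m) (by
    simp only [he]
    push_cast
    field_simp) hH
  have h2 : (fun t => ‖(e m)⁻¹ • (β (t + e m) - β t)‖) =
      fun t => (e m)⁻¹ * ‖β (t + e m) - β t‖ := by
    funext t
    rw [norm_smul, norm_inv, Real.norm_eq_abs, abs_of_pos (hepos m)]
  rw [h2, intervalIntegral.integral_const_mul, inv_mul_le_iff₀ (hepos m)]
  exact h1

end Pool.Agent.Helper584.PG
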