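import Pool.Agent.Helper584.PG.Defs

set_option autoImplicit false

open MeasureTheory Set Filter Topology

noncomputable section

namespace Pool.Agent.Helper584.PG



theorem lip_ftc (β : ℝ → E) (L : NNReal) (hβ : LipschitzWith L β) (a b : ℝ) (hab : a ≤ b) :
    IntervalIntegrable (fun t => ‖deriv β t‖) volume a b ∧
    ‖β b - β a‖ ≤ ∫ t in a..b, ‖deriv β t‖ := by
  have hbound : ∀ t, ‖deriv β t‖ ≤ L := fun t => norm_deriv_le_of_lipschitz hβ
  have hint : IntervalIntegrable (fun t => ‖deriv β t‖) volume a b := by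
    refine (intervalIntegrable_const (c := (L : ℝ))).mono_fun'
      (measurable_deriv β).norm.aestronglyMeasurable ?_
    refine Filter.Eventually.of_forall fun t => ?_
    show ‖‖deriv β t‖‖ ≤ (L : ℝ)
    rw [norm_norm]
    exact hbound t
  refine ⟨hint, ?_⟩
  by_cases h0 : β b = β a
  · rw [h0, sub_self, norm_zero]
    exact intervalIntegral.integral_nonneg hab fun t _ => norm_nonneg _
  have hn : 0 < ‖β b - β a‖ := norm_pos_iff.mpr (sub_ne_zero.mpr h0)
  set u : E := (‖β b - β a‖)⁻¹ • (β b - β a) with hu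
  have hu1 : ‖u‖ = 1 := by
    rw [hu, norm_smul, norm_inv, norm_norm, inv_mul_cancel₀ hn.ne']
  have hfl : LipschitzWith L (fun t => inner ℝ u (β t) : ℝ → ℝ) := by
    refine LipschitzWith.of_dist_le_mul fun x y => ?_
    rw [Real.dist_eq, ← inner_sub_right]
    calc |inner ℝ u (β x - β y)| ≤ ‖u‖ * ‖β x - β y‖ := abs_real_inner_le_norm _ _
      _ = dist (β x) (β y) := by rw [hu1, one_mul, dist_eq_norm]
      _ ≤ L * dist x y := hβ.dist_le_mul x y
  have hac := (hfl.lipschitzOnWith (s := uIcc a b)).absolutelyContinuousOnInterval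
  have hftc := hac.integral_deriv_eq_sub
  have hval : inner ℝ u (β b) - inner ℝ u (β a) = ‖β b - β a‖ := by
    rw [← inner_sub_right, hu, inner_smul_left, real_inner_self_eq_norm_sq]
    simp only [conj_trivial]
    field_simp
  rw [← hval, ← hftc]
  have hae : ∀ᵐ t : ℝ, deriv (fun t => inner ℝ u (β t) : ℝ → ℝ) t ≤ ‖deriv β t‖ := by
    filter_upwards [hβ.ae_differentiableAt_real] with t ht
    have h1 : HasDerivAt (fun t => inner ℝ u (β t) : ℝ → ℝ) (inner ℝ u (deriv β t)) t := by
      have h2 := (innerSL ℝ u).hasFDerivAt.comp_hasDerivAt t ht.hasDerivAt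
      exact h2
    rw [h1.deriv]
    calc inner ℝ u (deriv β t) ≤ ‖u‖ * ‖deriv β t‖ := real_inner_le_norm _ _
      _ = ‖deriv β t‖ := by rw [hu1, one_mul]
  have hfi : IntervalIntegrable (deriv (fun t => inner ℝ u (β t) : ℝ → ℝ)) volume a b := by
    refine (intervalIntegrable_const (c := (L : ℝ))).mono_fun'
      (measurable_deriv _).aestronglyMeasurable ?_
    exact Filter.Eventually.of_forall fun t => norm_deriv_le_of_lipschitz hfl
  exact intervalIntegral.integral_mono_ae hab hfi hint hae

end Pool.Agent.Helper584.PG
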