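import Pool.Agent.Helper584.PG.Defs
import Pool.Agent.Helper584.PG.P_lip_ftc

set_option autoImplicit false

open MeasureTheory Set Filter Topology

noncomputable section

namespace Pool.Agent.Helper584.PG



theorem len_upper_cover (c : ℕ → ℝ) (m : ℕ) (hm : 1 ≤ m) (x : ℝ) (h0 : c 0 ≤ x) (h1 : x ≤ c m) :
    ∃ k, k < m ∧ c k ≤ x ∧ x ≤ c (k + 1) := by
  induction m with
  | zero => omega
  | succ m ih =>
    by_cases hm0 : m = 0
    · subst hm0
      exact ⟨0, by omega, h0, h1⟩
    · by_cases hx : x ≤ c m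
      · obtain ⟨k, hk, h⟩ := ih (by omega) hx
        exact ⟨k, by omega, h⟩
      · exact ⟨m, by omega, (not_le.1 hx).le, h1⟩

theorem len_upper_diam (β : ℝ → E) (L : NNReal) (hβ : LipschitzWith L β) (c d : ℝ) (hcd : c ≤ d) :
    Metric.ediam (β '' Icc c d) ≤ ENNReal.ofReal (∫ t in c..d, ‖deriv β t‖) ∧
    Metric.ediam (β '' Icc c d) ≤ ENNReal.ofReal (L * (d - c)) := by
  have hI := (lip_ftc β L hβ c d hcd).1
  have key : ∀ x ∈ Icc c d, ∀ y ∈ Icc c d, x ≤ y →
      edist (β x) (β y) ≤ ENNReal.ofReal (∫ t in c..d, ‖deriv β t‖) ∧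
      edist (β x) (β y) ≤ ENNReal.ofReal (L * (d - c)) := by
    intro x hx y hy hxy
    rw [edist_dist, dist_comm, dist_eq_norm]
    constructor
    · apply ENNReal.ofReal_le_ofReal
      refine (lip_ftc β L hβ x y hxy).2.trans ?_
      refine intervalIntegral.integral_mono_interval hx.1 hxy hy.2 ?_ hI
      exact Eventually.of_forall fun t => norm_nonneg _
    · apply ENNReal.ofReal_le_ofReal
      have h1 := hβ.dist_le_mul y x
      rw [dist_eq_norm, Real.dist_eq, abs_of_nonneg (by linarith)] at h1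
      refine h1.trans (mul_le_mul_of_nonneg_left ?_ L.2)
      linarith [hx.1, hy.2]
  constructor
  · apply Metric.ediam_le
    rintro _ ⟨x, hx, rfl⟩ _ ⟨y, hy, rfl⟩
    rcases le_total x y with h | h
    · exact (key x hx y hy h).1
    · rw [edist_comm]; exact (key y hy x hx h).1
  · apply Metric.ediam_le
    rintro _ ⟨x, hx, rfl⟩ _ ⟨y, hy, rfl⟩
    rcases le_total x y with h | h
    · exact (key x hx y hy h).2
    · rw [edist_comm]; exact (key y hy x hx h).2

theorem len_upper (β : ℝ → E) (L : NNReal) (hβ : LipschitzWith L β) (a b : ℝ) (hab : a ≤ b) :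
    Measure.hausdorffMeasure (1:ℝ) (β '' Icc a b) ≤ ENNReal.ofReal (∫ t in a..b, ‖deriv β t‖) := by
  let c : ℕ → ℕ → ℝ := fun n k => a + k * ((b - a) / (n + 1))
  have hstep : ∀ n : ℕ, 0 ≤ (b - a) / ((n : ℝ) + 1) := fun n => by
    apply div_nonneg (by linarith); positivity
  have hc0 : ∀ n, c n 0 = a := fun n => by simp [c]
  have hcn : ∀ n, c n (n + 1) = b := fun n => by
    show a + ((n + 1 : ℕ) : ℝ) * ((b - a) / (n + 1)) = b
    have : ((n : ℝ) + 1) ≠ 0 := by positivity
    push_cast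
    field_simp
    ring
  have hmono : ∀ n k, c n k ≤ c n (k + 1) := fun n k => by
    show a + (k : ℝ) * ((b - a) / (n + 1)) ≤ a + ((k + 1 : ℕ) : ℝ) * ((b - a) / (n + 1))
    push_cast
    nlinarith [hstep n]
  have hdiff : ∀ n k, c n (k + 1) - c n k = (b - a) / (n + 1) := fun n k => by
    show (a + ((k + 1 : ℕ) : ℝ) * ((b - a) / (n + 1))) - (a + (k : ℝ) * ((b - a) / (n + 1))) = _
    push_cast
    ring
  have hI := (lip_ftc β L hβ a b hab).1
  refine (Measure.hausdorffMeasure_le_liminf_sum (l := atTop) (1 : ℝ) (β '' Icc a b)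
    (fun n : ℕ => ENNReal.ofReal (L * ((b - a) / (n + 1)))) ?_
    (fun (n : ℕ) (i : Fin (n + 1)) => β '' Icc (c n i) (c n (i + 1))) ?_ ?_).trans ?_
  · have h1 : Tendsto (fun n : ℕ => (L : ℝ) * ((b - a) / ((n : ℝ) + 1))) atTop (𝓝 0) := by
      have h2 := (tendsto_one_div_add_atTop_nhds_zero_nat (𝕜 := ℝ)).const_mul ((L : ℝ) * (b - a))
      rw [mul_zero] at h2
      refine h2.congr fun n => ?_
      ring
    have h3 := ENNReal.tendsto_ofReal h1
    rwa [ENNReal.ofReal_zero] at h3
  · refine Eventually.of_forall fun n i => ?_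
    have h1 := (len_upper_diam β L hβ _ _ (hmono n i)).2
    rwa [hdiff] at h1
  · refine Eventually.of_forall fun n => ?_
    rintro _ ⟨x, hx, rfl⟩
    obtain ⟨k, hk, h1, h2⟩ := len_upper_cover (c n) (n + 1) (by omega) x (by rw [hc0]; exact hx.1)
      (by rw [hcn]; exact hx.2)
    rw [mem_iUnion]
    exact ⟨⟨k, hk⟩, x, ⟨h1, h2⟩, rfl⟩
  · have hle : ∀ n : ℕ, ∑ i : Fin (n + 1), Metric.ediam (β '' Icc (c n i) (c n (i + 1))) ^ (1 : ℝ) ≤
        ENNReal.ofReal (∫ t in a..b, ‖deriv β t‖) := by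
      intro n
      have h1 : ∀ i : Fin (n + 1), Metric.ediam (β '' Icc (c n i) (c n (i + 1))) ^ (1 : ℝ) ≤
          ENNReal.ofReal (∫ t in (c n i)..(c n (i + 1)), ‖deriv β t‖) := by
        intro i
        rw [ENNReal.rpow_one]
        exact (len_upper_diam β L hβ _ _ (hmono n i)).1
      refine (Finset.sum_le_sum fun i _ => h1 i).trans ?_
      rw [Fin.sum_univ_eq_sum_range
        (fun i : ℕ => ENNReal.ofReal (∫ t in (c n i)..(c n (i + 1)), ‖deriv β t‖)) (n + 1),
        ← ENNReal.ofReal_sum_of_nonneg]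
      · apply ENNReal.ofReal_le_ofReal
        rw [intervalIntegral.sum_integral_adjacent_intervals, hc0, hcn]
        intro k hk
        exact (lip_ftc β L hβ _ _ (hmono n k)).1
      · intro k _
        exact intervalIntegral.integral_nonneg (hmono n k) fun t _ => norm_nonneg _
    refine (liminf_le_liminf (Eventually.of_forall hle)).trans ?_
    rw [liminf_const]

end Pool.Agent.Helper584.PG
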