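import Pool.Agent.Helper584.PG.Defs
import Pool.Agent.Helper584.PG.P_len_upper
import Pool.Agent.Helper584.PG.P_len_lower
import Pool.Agent.Helper584.PG.P_bdry
import Pool.Agent.Helper584.PG.P_bc_facts
import Pool.Agent.Helper584.PG.P_nn_isP
import Pool.Agent.Helper584.PG.P_bc_speed

set_option autoImplicit false

open MeasureTheory Set Filter Topology

noncomputable section

namespace Pool.Agent.Helper584.PG



theorem perim (K : Set E) (N : E → ℝ) (hN : IsG N) (hK : K = {x | N x ≤ 1}) (g : T) (hg : g ∈ Fr) :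
    Measure.hausdorffMeasure (1:ℝ) (bd K g.2.2) =
      ENNReal.ofReal (∫ t in (0:ℝ)..(2 * Real.pi), plS (nn N g) t) := by
  obtain ⟨⟨L, hL⟩, hper, hinj⟩ := bc_facts N hN g hg
  have hP := nn_isP N hN g hg
  obtain ⟨L', hL'⟩ := hP.lip
  rw [bdry K N hN hK g hg]
  have h2pi : (0:ℝ) ≤ 2 * Real.pi := by positivity
  have hint : ∫ t in (0:ℝ)..(2 * Real.pi), plS (nn N g) t =
      ∫ t in (0:ℝ)..(2 * Real.pi), ‖deriv (bc N g) t‖ := by
    refine intervalIntegral.integral_congr_ae ?_
    have h1 : ∀ᵐ t : ℝ, DifferentiableAt ℝ (nn N g) t := hL'.ae_differentiableAt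
    filter_upwards [h1] with t ht _
    exact (bc_speed N hN g hg t ht).symm
  rw [hint]
  refine le_antisymm ?_ (len_lower _ L hL hper hinj)
  have hr : range (bc N g) = bc N g '' Icc 0 (2 * Real.pi) := by
    refine Subset.antisymm ?_ (image_subset_range _ _)
    rintro _ ⟨t, rfl⟩
    have hp : Function.Periodic (bc N g) (2 * Real.pi) := hper
    obtain ⟨y, hy, hy'⟩ := hp.exists_mem_Ico₀ (by positivity) t
    exact ⟨y, ⟨hy.1, hy.2.le⟩, hy'.symm⟩
  rw [hr]
  exact len_upper _ L hL _ _ h2pi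

end Pool.Agent.Helper584.PG
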