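import Pool.Agent.Helper584.PG.Defs
import Pool.Agent.Helper584.PG.P_fr_basic
import Pool.Agent.Helper584.PG.P_gauge_isG
import Pool.Agent.Helper584.PG.P_perim
import Pool.Agent.Helper584.PG.P_final_N

set_option autoImplicit false

open MeasureTheory Set Filter Topology

noncomputable section

namespace Pool.Agent.Helper584.PG



theorem final_K (K : Set E) (h1 : IsCompact K) (h2 : Convex ℝ K) (h3 : (interior K).Nonempty)
    (h4 : ∀ x ∈ K, -x ∈ K) (p : ENNReal)
    (hp : ∀ e : E, ‖e‖ = 1 → Measure.hausdorffMeasure (1:ℝ) (bd K e) = p) :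
    ∃ r : ℝ, K = Metric.closedBall (0 : E) r := by
  obtain ⟨hG, hKe⟩ := gauge_isG K h1 h2 h3 h4
  obtain ⟨-, -, -, -, -, -, -, he0⟩ := fr_basic
  have hint : ∀ g ∈ Fr, ∫ t in (0:ℝ)..(2 * Real.pi), plS (nn (gauge K) g) t =
      2 * Real.pi * (p.toReal / (2 * Real.pi)) := by
    intro g hg
    have e1 := perim K (gauge K) hG hKe g hg
    rw [hp g.2.2 hg.2.2.1] at e1
    have hnn : 0 ≤ ∫ t in (0:ℝ)..(2 * Real.pi), plS (nn (gauge K) g) t := by
      apply intervalIntegral.integral_nonneg (by positivity)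
      intro t _
      unfold plS
      positivity
    rw [e1, ENNReal.toReal_ofReal hnn]
    field_simp
  have hfin := final_N (gauge K) hG (p.toReal / (2 * Real.pi)) hint
  set c := p.toReal / (2 * Real.pi) with hcdef
  have hne0 : ∀ x : E, ‖x‖ = 1 → x ≠ 0 := by
    intro x hx h0
    rw [h0, norm_zero] at hx
    exact zero_ne_one hx
  have hcpos : 0 < c := by
    have h5 := hfin e0.1 he0.1
    have h6 := hG.pos e0.1 (hne0 _ he0.1)
    by_contra hcon
    push Not at hcon
    have := mul_nonpos_of_nonpos_of_nonneg hcon h6.le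
    linarith
  refine ⟨c, ?_⟩
  ext y
  have hyK : y ∈ K ↔ gauge K y ≤ 1 := by
    constructor
    · intro hy
      rw [hKe] at hy
      exact hy
    · intro hy
      rw [hKe]
      exact hy
  rw [hyK, Metric.mem_closedBall, dist_zero_right]
  by_cases hy : y = 0
  · rw [hy, gauge_zero, norm_zero]
    exact ⟨fun _ => hcpos.le, fun _ => zero_le_one⟩
  · have hyn : 0 < ‖y‖ := norm_pos_iff.mpr hy
    have hunit : ‖(‖y‖⁻¹ • y)‖ = 1 := by
      rw [norm_smul, norm_inv, norm_norm]
      exact inv_mul_cancel₀ hyn.ne'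
    have e1 := hfin _ hunit
    have e2 : gauge K y = ‖y‖ * gauge K (‖y‖⁻¹ • y) := by
      rw [← hG.hom ‖y‖ hyn.le, smul_smul, mul_inv_cancel₀ hyn.ne', one_smul]
    have e3 : gauge K (‖y‖⁻¹ • y) = c⁻¹ := eq_inv_of_mul_eq_one_right e1
    rw [e2, e3, ← div_eq_mul_inv, div_le_one hcpos]

end Pool.Agent.Helper584.PG
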